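import Mathlib
import Pool.Agent.Helper549.Tri.SqDefs
import Pool.Agent.Helper549.Tri.Defs
set_option autoImplicit false
noncomputable section
open scoped BigOperators

/-! Square-only triangles (MP_a03157_co): common definitions. -/

namespace Pool.Agent.TH387
open Pool.Agent.Helper549.Tri

/-- the three numbers `S 0, S 1, S 2` are, in some order, proportional to `x, y, z` -/
def Like (S : Fin 3 → ℝ) (x y z : ℝ) : Prop :=
  ∃ σ : Equiv.Perm (Fin 3), ∃ r : ℝ, 0 < r ∧ S (σ 0) = r * x ∧ S (σ 1) = r * y ∧ S (σ 2) = r * z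

/-- the explicit list of the side lengths of the triangles that are not square-only -/
def Exc (S : Fin 3 → ℝ) : Prop :=
  (∃ i j : Fin 3, i ≠ j ∧ S i = S j) ∨
  (∃ p q : ℕ, 0 < p ∧ 0 < q ∧ ¬ IsSquare (p ^ 2 + q ^ 2) ∧
    Like S p q (Real.sqrt ((p : ℝ) ^ 2 + (q : ℝ) ^ 2))) ∨
  Like S 1 (Real.sqrt 3) 2 ∨
  (∃ s : ℚ, 0 < s ∧ s < 1 ∧ ¬ IsSquare (2 - s ^ 2) ∧
    Like S ((s : ℝ) * (2 - (s : ℝ) ^ 2)) 1 (1 - (s : ℝ) ^ 2)) ∨
  (∃ s : ℚ, 0 < s ∧ s < 1 ∧ ¬ IsSquare ((2 - s ^ 2) * (3 - s ^ 2)) ∧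
    Like S (2 - (s : ℝ) ^ 2) 1 ((1 - (s : ℝ) ^ 2) * (3 - (s : ℝ) ^ 2))) ∨
  (∃ a b c : ℕ, 0 < a ∧ 0 < b ∧ c ^ 2 = a ^ 2 + a * b + b ^ 2 ∧
    ((¬ IsSquare (a * (a + b)) ∧ Like S (a + b) c b) ∨
     (¬ IsSquare ((a + b) * (2 * a + b)) ∧ Like S ((a + b) * c) (a * c) (b * (2 * a + b))) ∨
     (¬ IsSquare ((2 * a + b) * (a + 2 * b)) ∧
        Like S (a * (a + 2 * b)) ((c : ℝ) ^ 2) (b * (2 * a + b))) ∨
     (¬ IsSquare (3 * (a + b) * (2 * a + b)) ∧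
        Like S (3 * a * (a + b)) ((c : ℝ) ^ 2) ((2 * a + b) * c))))

/-- what the tiles at a corner of the dissected triangle tell us: `κ j x` is the number of tile
angles of type `x` at corner `j`, `β k y` the number of tile sides of type `y` on side `k`. The
tile at corner `j` that touches side `k1` has angle type `x1` there and side type `y1` on side
`k1`; similarly for `k2`; the two tiles may coincide. -/
def Corners (κ β : Fin 3 → Fin 3 → ℕ) : Prop :=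
  ∀ j k1 k2 : Fin 3, k1 ≠ j → k2 ≠ j → k1 ≠ k2 → ∃ x1 y1 x2 y2 : Fin 3,
    x1 ≠ y1 ∧ x2 ≠ y2 ∧ 0 < κ j x1 ∧ 0 < κ j x2 ∧ 0 < β k1 y1 ∧ 0 < β k2 y2 ∧
    ((x1 = x2 ∧ y1 ≠ y2) ∨ x1 ≠ x2 ∨ 2 ≤ κ j x1)

/-- class of a direction, invariant under scaling by non-zero reals -/
def cl (d : ℂ) : ℂ := d / (starRingEnd ℂ) d

/-- formal boundary of the oriented segment from `p` to `q`, sorted by the direction class of the
line that carries it -/
def seg (p q : ℂ) : (ℂ × ℂ) →₀ ℤ :=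
  Finsupp.single (cl (q - p), q) 1 - Finsupp.single (cl (q - p), p) 1

/-- formal boundary of a triangle -/
def bdc (v : Fin 3 → ℂ) : (ℂ × ℂ) →₀ ℤ := ∑ k : Fin 3, seg (v (k + 1)) (v (k + 2))

end Pool.Agent.TH387
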