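import Mathlib
import Pool.Agent.Helper549.Tri.Defs
import Pool.Agent.TH387.Base
set_option autoImplicit false
noncomputable section
open scoped BigOperators

namespace Pool.Agent.TH387
open Pool.Agent.Helper549.Tri

abbrev Ch := (ℂ × ℂ) →₀ ℤ

/-- formal difference of two points in class `c` -/
def sg (c p q : ℂ) : Ch := Finsupp.single (c, q) 1 - Finsupp.single (c, p) 1

theorem sg_self (c p : ℂ) : sg c p p = 0 := by simp [sg]

theorem sg_add (c p q x : ℂ) : sg c p q + sg c q x = sg c p x := by
  simp [sg]

theorem cl_smul (r : ℝ) (hr : r ≠ 0) (d : ℂ) : cl ((r : ℂ) * d) = cl d := by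
  unfold cl
  rw [map_mul, Complex.conj_ofReal]
  exact mul_div_mul_left _ _ (by exact_mod_cast hr)

theorem seg_eq {p q d : ℂ} (r : ℝ) (h : q - p = (r : ℂ) * d) : seg p q = sg (cl d) p q := by
  by_cases hr : r = 0
  · subst hr
    have : q = p := by
      rw [Complex.ofReal_zero, zero_mul] at h
      exact sub_eq_zero.mp h
    subst this
    rw [sg_self]
    simp [seg]
  · unfold seg sg
    rw [h, cl_smul r hr]

theorem seg_self (p : ℂ) : seg p p = 0 := by
  simp [seg]

theorem seg_symm (p q : ℂ) : seg q p = - seg p q := by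
  have h1 : seg p q = sg (cl (q - p)) p q := rfl
  have h2 : seg q p = sg (cl (q - p)) q p := seg_eq (-1) (by push_cast; ring)
  rw [h1, h2]
  simp [sg]

/-- additivity along a line -/
theorem seg_add {p q x d : ℂ} (r s : ℝ) (h1 : q - p = (r : ℂ) * d) (h2 : x - q = (s : ℂ) * d) :
    seg p q + seg q x = seg p x := by
  rw [seg_eq r h1, seg_eq s h2, seg_eq (r + s) (p := p) (q := x) (d := d) (by
    push_cast
    linear_combination h1 + h2)]
  exact sg_add _ _ _ _

/-- boundary of a triangle given by three points -/
def tri (A B C : ℂ) : Ch := seg A B + seg B C + seg C A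

/-- boundary of a quadrilateral given by four points -/
def quad (A B C D : ℂ) : Ch := seg A B + seg B C + seg C D + seg D A

theorem bdc_eq (v : Fin 3 → ℂ) : bdc v = tri (v 0) (v 1) (v 2) := by
  unfold bdc tri
  rw [Fin.sum_univ_three]
  change seg (v 1) (v 2) + seg (v 2) (v 0) + seg (v 0) (v 1) = _
  abel

theorem tri_rot (A B C : ℂ) : tri A B C = tri B C A := by
  unfold tri
  abel

theorem quad_rot (A B C D : ℂ) : quad A B C D = quad B C D A := by
  unfold quad
  abel

/-- cutting a quadrilateral along a diagonal -/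
theorem quad_diag (A B C D : ℂ) : quad A B C D = tri A B C + tri A C D := by
  unfold quad tri
  rw [seg_symm A C]
  abel

/-- cutting a triangle by a cevian -/
theorem tri_cevian {A B C D d : ℂ} (r s : ℝ) (h1 : D - B = (r : ℂ) * d) (h2 : C - D = (s : ℂ) * d) :
    tri A B C = tri A B D + tri A D C := by
  unfold tri
  rw [← seg_add r s h1 h2, seg_symm A D]
  abel

end Pool.Agent.TH387
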