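import Mathlib
import Pool.Agent.Helper549.Tri.Defs
import Pool.Agent.TH387.Base
import Pool.Agent.TH387.Seg
set_option autoImplicit false
noncomputable section
open scoped BigOperators

namespace Pool.Agent.TH387
open Pool.Agent.Helper549.Tri

/-- positively oriented triangle with the side lengths `ℓ` in some order -/
def IsT (ℓ : Fin 3 → ℝ) (v : Fin 3 → ℂ) : Prop :=
  0 < dd v ∧ ∃ σ : Equiv.Perm (Fin 3), ∀ k, len v k = ℓ (σ k)

/-- formal boundaries of regions that can be tiled by triangles with side lengths `ℓ` -/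
def Til (ℓ : Fin 3 → ℝ) : AddSubmonoid Ch :=
  AddSubmonoid.closure {C | ∃ v, IsT ℓ v ∧ C = bdc v}

theorem til_of {ℓ : Fin 3 → ℝ} {v : Fin 3 → ℂ} (h : IsT ℓ v) : bdc v ∈ Til ℓ :=
  AddSubmonoid.subset_closure ⟨v, h, rfl⟩

theorem til_fin {ℓ : Fin 3 → ℝ} {C : Ch} (h : C ∈ Til ℓ) :
    ∃ (N : ℕ) (t : Fin N → Fin 3 → ℂ), (∀ i, IsT ℓ (t i)) ∧ ∑ i, bdc (t i) = C := by
  obtain ⟨l, hl, hs⟩ := AddSubmonoid.exists_list_of_mem_closure h
  have hc : ∀ i : Fin l.length, ∃ v, IsT ℓ v ∧ l.get i = bdc v := fun i => hl _ (l.get_mem i)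
  choose t ht using hc
  refine ⟨l.length, t, fun i => (ht i).1, ?_⟩
  rw [← hs]
  have : ∀ i, bdc (t i) = l.get i := fun i => (ht i).2.symm
  rw [Finset.sum_congr rfl fun i _ => this i]
  rw [← List.sum_ofFn, List.ofFn_get]

theorem til_unit {ℓ : Fin 3 → ℝ} (A u w : ℂ) (h : 0 < cr u w) (σ : Equiv.Perm (Fin 3))
    (h0 : ‖w - u‖ = ℓ (σ 0)) (h1 : ‖w‖ = ℓ (σ 1)) (h2 : ‖u‖ = ℓ (σ 2)) :
    tri A (A + u) (A + w) ∈ Til ℓ := by
  have h3 : IsT ℓ ![A, A + u, A + w] := by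
    refine ⟨?_, σ, ?_⟩
    · have : dd ![A, A + u, A + w] = cr u w := by
        simp [dd, cr]
      rw [this]; exact h
    · intro k
      fin_cases k
      · change ‖(A + w) - (A + u)‖ = ℓ (σ 0)
        rw [← h0]; congr 1; ring
      · change ‖A - (A + w)‖ = ℓ (σ 1)
        rw [← h1, ← norm_neg]; congr 1; ring
      · change ‖(A + u) - A‖ = ℓ (σ 2)
        rw [← h2]; congr 1; ring
  have := til_of h3
  rw [bdc_eq] at this
  exact this

theorem til_par_unit {ℓ : Fin 3 → ℝ} (A u w : ℂ) (h : 0 < cr u w) (σ : Equiv.Perm (Fin 3))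
    (h0 : ‖w - u‖ = ℓ (σ 0)) (h1 : ‖w‖ = ℓ (σ 1)) (h2 : ‖u‖ = ℓ (σ 2)) :
    quad A (A + u) (A + u + w) (A + w) ∈ Til ℓ := by
  rw [quad_rot, quad_diag]
  apply add_mem
  · rw [tri_rot]
    have := til_unit (ℓ := ℓ) (A + u + w) (-u) (-w) (by simpa [cr] using h) σ
      (by rw [← h0, ← norm_neg]; congr 1; ring) (by rw [norm_neg]; exact h1)
      (by rw [norm_neg]; exact h2)
    convert this using 2 <;> ring
  · rw [tri_rot, tri_rot]
    exact til_unit A u w h σ h0 h1 h2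

/-- joining two parallelograms -/
theorem quad_join (A e f : ℂ) (x y : ℝ) :
    quad A (A + ((x + y : ℝ) : ℂ) * e) (A + ((x + y : ℝ) : ℂ) * e + f) (A + f) =
    quad A (A + (x : ℂ) * e) (A + (x : ℂ) * e + f) (A + f) +
    quad (A + (x : ℂ) * e) (A + (x : ℂ) * e + (y : ℂ) * e) (A + (x : ℂ) * e + (y : ℂ) * e + f)
      (A + (x : ℂ) * e + f) := by
  have e1 : A + ((x + y : ℝ) : ℂ) * e = A + (x : ℂ) * e + (y : ℂ) * e := by push_cast; ring
  rw [e1]
  unfold quad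
  have h1 := seg_add (p := A) (q := A + (x : ℂ) * e) (x := A + (x : ℂ) * e + (y : ℂ) * e) (d := e)
    x y (by ring) (by ring)
  have h2 := seg_add (p := A + (x : ℂ) * e + (y : ℂ) * e + f) (q := A + (x : ℂ) * e + f)
    (x := A + f) (d := e) (-y) (-x) (by push_cast; ring) (by push_cast; ring)
  have h3 := seg_symm (A + (x : ℂ) * e) (A + (x : ℂ) * e + f)
  rw [← h1, ← h2, h3]
  abel

theorem til_row {ℓ : Fin 3 → ℝ} (A u w : ℂ)
    (H : ∀ A : ℂ, quad A (A + u) (A + u + w) (A + w) ∈ Til ℓ) (m : ℕ) :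
    quad A (A + (m : ℂ) * u) (A + (m : ℂ) * u + w) (A + w) ∈ Til ℓ := by
  induction m with
  | zero =>
    simp only [Nat.cast_zero, zero_mul, add_zero]
    unfold quad
    rw [seg_self, seg_self, seg_symm A (A + w)]
    simp
  | succ m ih =>
    have h := quad_join A u w m 1
    have h2 := H (A + (m : ℂ) * u)
    push_cast at h
    push_cast
    rw [one_mul] at h
    rw [h]
    exact add_mem ih h2

theorem til_grid {ℓ : Fin 3 → ℝ} (A u w : ℂ)
    (H : ∀ A : ℂ, quad A (A + u) (A + u + w) (A + w) ∈ Til ℓ) (m n : ℕ) :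
    quad A (A + (m : ℂ) * u) (A + (m : ℂ) * u + (n : ℂ) * w) (A + (n : ℂ) * w) ∈ Til ℓ := by
  have h1 : ∀ A : ℂ, quad A (A + w) (A + w + (-((m : ℂ) * u))) (A + (-((m : ℂ) * u))) ∈ Til ℓ := by
    intro A
    have h2 := til_row (A + (-((m : ℂ) * u))) u w H m
    rw [quad_rot] at h2
    convert h2 using 2 <;> ring
  have h3 := til_row (A + (m : ℂ) * u) w (-((m : ℂ) * u)) h1 n
  rw [quad_rot, quad_rot, quad_rot] at h3
  convert h3 using 2 <;> ring

theorem til_tri {ℓ : Fin 3 → ℝ} (u w : ℂ)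
    (H : ∀ A : ℂ, quad A (A + u) (A + u + w) (A + w) ∈ Til ℓ)
    (H' : ∀ A : ℂ, tri A (A + u) (A + w) ∈ Til ℓ) (m : ℕ) :
    ∀ A : ℂ, tri A (A + (m : ℂ) * u) (A + (m : ℂ) * w) ∈ Til ℓ := by
  induction m with
  | zero =>
    intro A
    simp only [Nat.cast_zero, zero_mul, add_zero]
    unfold tri
    rw [seg_self]
    simp
  | succ m ih =>
    intro A
    have h1 := ih (A + w)
    have h2 := til_row A u w H m
    have h3 := H' (A + (m : ℂ) * u)
    have h4 := add_mem (add_mem h1 h2) h3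
    convert h4 using 1
    unfold tri quad
    have e1 := seg_add (p := A) (q := A + (m : ℂ) * u) (x := A + ((m + 1 : ℕ) : ℂ) * u) (d := u)
      m 1 (by push_cast; ring) (by push_cast; ring)
    have e2 := seg_add (p := A + ((m + 1 : ℕ) : ℂ) * u) (q := A + (m : ℂ) * u + w)
      (x := A + ((m + 1 : ℕ) : ℂ) * w) (d := w - u) 1 m (by push_cast; ring) (by push_cast; ring)
    have e3 := seg_add (p := A + ((m + 1 : ℕ) : ℂ) * w) (q := A + w) (x := A) (d := w)
      (-m) (-1) (by push_cast; ring) (by push_cast; ring)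
    rw [← e1, ← e2, ← e3]
    have e4 : A + (m : ℂ) * u + u = A + ((m + 1 : ℕ) : ℂ) * u := by push_cast; ring
    have e5 : A + w + (m : ℂ) * u = A + (m : ℂ) * u + w := by ring
    have e6 : A + w + (m : ℂ) * w = A + ((m + 1 : ℕ) : ℂ) * w := by push_cast; ring
    rw [e4, e5, e6, seg_symm (A + w) (A + (m : ℂ) * u + w),
      seg_symm (A + (m : ℂ) * u) (A + (m : ℂ) * u + w)]
    abel

end Pool.Agent.TH387
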