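import Mathlib
import Pool.Agent.Helper549.Tri.Defs
import Pool.Agent.TH387.Base
import Pool.Agent.TH387.Seg
import Pool.Agent.TH387.Til
set_option autoImplicit false
noncomputable section
open scoped BigOperators

namespace Pool.Agent.TH387
open Pool.Agent.Helper549.Tri

/-- the tile scaled down by `M` -/
def scl (ℓ : Fin 3 → ℝ) (M : ℕ) : Fin 3 → ℝ := fun k => ℓ k / M

/-- the region can be tiled by the tile scaled down by `M`, for all multiples `M` of some `M0` -/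
def Good (ℓ : Fin 3 → ℝ) (C : Ch) : Prop :=
  ∃ M0 : ℕ, 0 < M0 ∧ ∀ M : ℕ, 0 < M → M0 ∣ M → C ∈ Til (scl ℓ M)

theorem Good.add {ℓ : Fin 3 → ℝ} {C D : Ch} (hC : Good ℓ C) (hD : Good ℓ D) : Good ℓ (C + D) := by
  obtain ⟨m, hm, h1⟩ := hC
  obtain ⟨n, hn, h2⟩ := hD
  exact ⟨m * n, Nat.mul_pos hm hn, fun M hM hd => add_mem
    (h1 M hM (dvd_trans (dvd_mul_right _ _) hd)) (h2 M hM (dvd_trans (dvd_mul_left _ _) hd))⟩

theorem rat_mul_nat (r : ℚ) (hr : 0 < r) (M : ℕ) (hM : 0 < M) (h : r.den ∣ M) :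
    ∃ m : ℕ, 0 < m ∧ (m : ℝ) = (r : ℝ) * M := by
  obtain ⟨q, rfl⟩ := h
  refine ⟨r.num.toNat * q, ?_, ?_⟩
  · have h1 : 0 < r.num.toNat := by
      have := Rat.num_pos.mpr hr
      omega
    have h2 : 0 < q := Nat.pos_of_mul_pos_left hM |> fun h => by
      rcases Nat.eq_zero_or_pos q with h0 | h0
      · subst h0; simp at hM
      · exact h0
    exact Nat.mul_pos h1 h2
  · have h3 : ((r.num.toNat : ℕ) : ℝ) = (r.num : ℝ) := by
      have h0 := Int.toNat_of_nonneg (Rat.num_pos.mpr hr).le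
      exact_mod_cast congrArg (fun z : ℤ => (z : ℝ)) h0
    have h4 : (r : ℝ) * r.den = r.num := by
      exact_mod_cast congrArg (fun z : ℚ => (z : ℝ)) (Rat.mul_den_eq_num r)
    push_cast
    rw [h3, ← h4]; ring

theorem good_sim {ℓ : Fin 3 → ℝ} (v : Fin 3 → ℂ) (hv : 0 < dd v) (r : ℚ) (hr : 0 < r)
    (σ : Equiv.Perm (Fin 3)) (h : ∀ k, len v k = r * ℓ (σ k)) : Good ℓ (bdc v) := by
  refine ⟨r.den, r.den_pos, fun M hM hd => ?_⟩
  obtain ⟨m, hm, hmr⟩ := rat_mul_nat r hr M hM hd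
  have hm0 : (m : ℂ) ≠ 0 := by exact_mod_cast hm.ne'
  have hm1 : (0 : ℝ) < m := by exact_mod_cast hm
  have hM1 : (0 : ℝ) < M := by exact_mod_cast hM
  have hr1 : (0 : ℝ) < r := by exact_mod_cast hr
  set u : ℂ := (v 1 - v 0) / m with hu
  set w : ℂ := (v 2 - v 0) / m with hw
  have e1 : v 0 + (m : ℂ) * u = v 1 := by
    rw [hu, mul_div_cancel₀ _ hm0]; ring
  have e2 : v 0 + (m : ℂ) * w = v 2 := by
    rw [hw, mul_div_cancel₀ _ hm0]; ring
  have nm : ‖(m : ℂ)‖ = m := by simp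
  have key : ∀ x : ℝ, (r : ℝ) * x / m = x / M := by
    intro x; rw [hmr]; field_simp
  have n0 : ‖w - u‖ = scl ℓ M (σ 0) := by
    have : w - u = (v 2 - v 1) / m := by rw [hu, hw]; ring
    rw [this, norm_div, nm]
    have h0 : ‖v 2 - v 1‖ = r * ℓ (σ 0) := h 0
    rw [h0]; exact key _
  have n1 : ‖w‖ = scl ℓ M (σ 1) := by
    rw [hw, norm_div, nm]
    have h0 : ‖v 0 - v 2‖ = r * ℓ (σ 1) := h 1
    rw [← norm_neg, neg_sub, h0]; exact key _
  have n2 : ‖u‖ = scl ℓ M (σ 2) := by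
    rw [hu, norm_div, nm]
    have h0 : ‖v 1 - v 0‖ = r * ℓ (σ 2) := h 2
    rw [h0]; exact key _
  have hcr : 0 < cr u w := by
    have : dd v = (m : ℝ) ^ 2 * cr u w := by
      unfold dd
      have e3 : v 1 - v 0 = (m : ℂ) * u := by rw [← e1]; ring
      have e4 : v 2 - v 0 = (m : ℂ) * w := by rw [← e2]; ring
      rw [e3, e4]
      simp [cr]
      ring
    by_contra hcon
    push Not at hcon
    have : dd v ≤ 0 := by rw [this]; exact mul_nonpos_of_nonneg_of_nonpos (sq_nonneg _) hcon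
    linarith
  have H1 : ∀ A : ℂ, quad A (A + u) (A + u + w) (A + w) ∈ Til (scl ℓ M) :=
    fun A => til_par_unit A u w hcr σ n0 n1 n2
  have H2 : ∀ A : ℂ, tri A (A + u) (A + w) ∈ Til (scl ℓ M) :=
    fun A => til_unit A u w hcr σ n0 n1 n2
  have H3 := til_tri u w H1 H2 m (v 0)
  rw [e1, e2] at H3
  rw [bdc_eq]; exact H3

theorem good_par {ℓ : Fin 3 → ℝ} (hℓ : ∀ k, 0 < ℓ k) (A u w : ℂ) (h : 0 < cr u w) (r1 r2 : ℚ)
    (hr1 : 0 < r1) (hr2 : 0 < r2) (σ : Equiv.Perm (Fin 3)) (h1 : ‖u‖ = r1 * ℓ (σ 2))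
    (h2 : ‖w‖ = r2 * ℓ (σ 1))
    (h3 : 2 * (u.re * w.re + u.im * w.im) =
      r1 * r2 * (ℓ (σ 2) ^ 2 + ℓ (σ 1) ^ 2 - ℓ (σ 0) ^ 2)) :
    Good ℓ (quad A (A + u) (A + u + w) (A + w)) := by
  refine ⟨r1.den * r2.den, Nat.mul_pos r1.den_pos r2.den_pos, fun M hM hd => ?_⟩
  obtain ⟨m, hm, hmr⟩ := rat_mul_nat r1 hr1 M hM (dvd_trans (dvd_mul_right _ _) hd)
  obtain ⟨n, hn, hnr⟩ := rat_mul_nat r2 hr2 M hM (dvd_trans (dvd_mul_left _ _) hd)
  have hm0 : (m : ℂ) ≠ 0 := by exact_mod_cast hm.ne'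
  have hm1 : (0 : ℝ) < m := by exact_mod_cast hm
  have hn0 : (n : ℂ) ≠ 0 := by exact_mod_cast hn.ne'
  have hn1 : (0 : ℝ) < n := by exact_mod_cast hn
  have hM1 : (0 : ℝ) < M := by exact_mod_cast hM
  have hr1' : (0 : ℝ) < r1 := by exact_mod_cast hr1
  have hr2' : (0 : ℝ) < r2 := by exact_mod_cast hr2
  set u' : ℂ := u / m with hu
  set w' : ℂ := w / n with hw
  have e1 : (m : ℂ) * u' = u := by rw [hu, mul_div_cancel₀ _ hm0]
  have e2 : (n : ℂ) * w' = w := by rw [hw, mul_div_cancel₀ _ hn0]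
  have nm : ‖(m : ℂ)‖ = m := by simp
  have nn : ‖(n : ℂ)‖ = n := by simp
  have n1 : ‖w'‖ = scl ℓ M (σ 1) := by
    rw [hw, norm_div, nn, h2, hnr]
    unfold scl; field_simp
  have n2 : ‖u'‖ = scl ℓ M (σ 2) := by
    rw [hu, norm_div, nm, h1, hmr]
    unfold scl; field_simp
  have hcr : 0 < cr u' w' := by
    have : cr u w = (m * n : ℝ) * cr u' w' := by
      rw [← e1, ← e2]
      simp [cr]
      ring
    rw [this] at h
    exact (pos_iff_pos_of_mul_pos h).mp (mul_pos hm1 hn1)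
  have n0 : ‖w' - u'‖ = scl ℓ M (σ 0) := by
    have p0 : 0 < scl ℓ M (σ 0) := div_pos (hℓ _) hM1
    have hre : 2 * (u'.re * w'.re + u'.im * w'.im) * (m * n) =
        2 * (u.re * w.re + u.im * w.im) := by
      rw [← e1, ← e2]
      simp
      ring
    rw [h3, hmr, hnr] at hre
    have hre2 : 2 * (u'.re * w'.re + u'.im * w'.im) * (M : ℝ) ^ 2 =
        (ℓ (σ 2) ^ 2 + ℓ (σ 1) ^ 2 - ℓ (σ 0) ^ 2) := by
      have hne : (r1 : ℝ) * r2 ≠ 0 := (mul_pos hr1' hr2').ne'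
      apply mul_left_cancel₀ hne
      linear_combination hre
    have q1 : ‖w'‖ ^ 2 = w'.re ^ 2 + w'.im ^ 2 := by
      rw [← Complex.normSq_eq_norm_sq, Complex.normSq_apply]; ring
    have q2 : ‖u'‖ ^ 2 = u'.re ^ 2 + u'.im ^ 2 := by
      rw [← Complex.normSq_eq_norm_sq, Complex.normSq_apply]; ring
    have q0 : ‖w' - u'‖ ^ 2 = (w'.re - u'.re) ^ 2 + (w'.im - u'.im) ^ 2 := by
      rw [← Complex.normSq_eq_norm_sq, Complex.normSq_apply, Complex.sub_re, Complex.sub_im]; ring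
    have q3 : ‖w' - u'‖ ^ 2 = (scl ℓ M (σ 0)) ^ 2 := by
      rw [n1] at q1
      rw [n2] at q2
      rw [q0]
      unfold scl at *
      field_simp at q1 q2 ⊢
      linear_combination (-1 : ℝ) * q1 - q2 - hre2
    exact (sq_eq_sq₀ (norm_nonneg _) p0.le).mp q3
  have H1 : ∀ A : ℂ, quad A (A + u') (A + u' + w') (A + w') ∈ Til (scl ℓ M) :=
    fun A => til_par_unit A u' w' hcr σ n0 n1 n2
  have H3 := til_grid A u' w' H1 m n
  rw [e1, e2] at H3
  exact H3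

end Pool.Agent.TH387
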