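import Mathlib
import Pool.Agent.Helper549.Tri.Defs
import Pool.Agent.TH387.Base
import Pool.Agent.TH387.Seg
import Pool.Agent.TH387.Til
import Pool.Agent.TH387.Good
set_option autoImplicit false
noncomputable section
open scoped BigOperators

namespace Pool.Agent.TH387
open Pool.Agent.Helper549.Tri

/-- all triangles with side lengths `x, y, z` (in any order) are good -/
def GoodS (ℓ : Fin 3 → ℝ) (x y z : ℝ) : Prop :=
  ∀ v : Fin 3 → ℂ, 0 < dd v → (∃ σ : Equiv.Perm (Fin 3), ∀ k, len v k = ![x, y, z] (σ k)) →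
    Good ℓ (bdc v)

theorem goodS_of_perm {ℓ : Fin 3 → ℝ} {x y z x' y' z' : ℝ} (h : GoodS ℓ x y z)
    (π : Equiv.Perm (Fin 3)) (hπ : ∀ k, ![x', y', z'] k = ![x, y, z] (π k)) :
    GoodS ℓ x' y' z' := by
  intro v hv ⟨σ, hσ⟩
  exact h v hv ⟨σ.trans π, fun k => by rw [hσ k, hπ]; rfl⟩

theorem GoodS.swap12 {ℓ : Fin 3 → ℝ} {x y z : ℝ} (h : GoodS ℓ x y z) : GoodS ℓ x z y := by
  refine goodS_of_perm h (Equiv.swap 1 2) ?_
  intro k
  fin_cases k
  · change x = ![x, y, z] (Equiv.swap 1 2 0)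
    have : (Equiv.swap (1 : Fin 3) 2) 0 = 0 := by decide
    rw [this]; rfl
  · change z = ![x, y, z] (Equiv.swap 1 2 1)
    have : (Equiv.swap (1 : Fin 3) 2) 1 = 2 := by decide
    rw [this]; rfl
  · change y = ![x, y, z] (Equiv.swap 1 2 2)
    have : (Equiv.swap (1 : Fin 3) 2) 2 = 1 := by decide
    rw [this]; rfl

theorem GoodS.rot {ℓ : Fin 3 → ℝ} {x y z : ℝ} (h : GoodS ℓ x y z) : GoodS ℓ y z x := by
  refine goodS_of_perm h (Equiv.addRight 1) ?_
  intro k
  fin_cases k <;> rfl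

theorem bdc_shift (v : Fin 3 → ℂ) (r : Fin 3) : bdc (fun k => v (k + r)) = bdc v := by
  rw [bdc_eq, bdc_eq]
  fin_cases r
  · rfl
  · change tri (v 1) (v 2) (v 0) = _
    rw [tri_rot, tri_rot]
  · change tri (v 2) (v 0) (v 1) = _
    rw [tri_rot]

theorem dd_shift (v : Fin 3 → ℂ) (r : Fin 3) : dd (fun k => v (k + r)) = dd v := by
  fin_cases r
  · rfl
  · change cr (v 2 - v 1) (v 0 - v 1) = cr (v 1 - v 0) (v 2 - v 0)
    unfold cr
    simp only [Complex.sub_re, Complex.sub_im]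
    ring
  · change cr (v 0 - v 2) (v 1 - v 2) = cr (v 1 - v 0) (v 2 - v 0)
    unfold cr
    simp only [Complex.sub_re, Complex.sub_im]
    ring

theorem len_shift (v : Fin 3 → ℂ) (r k : Fin 3) : len (fun k => v (k + r)) k = len v (k + r) := by
  unfold len sd
  have e1 : k + 2 + r = k + r + 2 := add_right_comm _ _ _
  have e2 : k + 1 + r = k + r + 1 := add_right_comm _ _ _
  simp only [e1, e2]

theorem goodS_of_ordered {ℓ : Fin 3 → ℝ} {x y z : ℝ}
    (H1 : ∀ v : Fin 3 → ℂ, 0 < dd v → len v 0 = x → len v 1 = y → len v 2 = z → Good ℓ (bdc v))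
    (H2 : ∀ v : Fin 3 → ℂ, 0 < dd v → len v 0 = x → len v 1 = z → len v 2 = y → Good ℓ (bdc v)) :
    GoodS ℓ x y z := by
  intro v hv ⟨σ, hσ⟩
  set r : Fin 3 := σ.symm 0 with hr
  have h0 : σ r = 0 := by rw [hr, Equiv.apply_symm_apply]
  rw [← bdc_shift v r]
  have hl0 : len (fun k => v (k + r)) 0 = x := by
    rw [len_shift, zero_add, hσ, h0]; rfl
  have hne1 : σ (1 + r) ≠ 0 := by
    intro h; rw [← h0] at h
    have := σ.injective h
    revert this
    generalize r = s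
    revert s
    decide
  have hne2 : σ (2 + r) ≠ 0 := by
    intro h; rw [← h0] at h
    have := σ.injective h
    revert this
    generalize r = s
    revert s
    decide
  have hne3 : σ (1 + r) ≠ σ (2 + r) := by
    intro h
    have := σ.injective h
    revert this
    generalize r = s
    revert s
    decide
  have hl1 := len_shift v r 1
  have hl2 := len_shift v r 2
  rw [hσ] at hl1 hl2
  have key : ∀ a b : Fin 3, a ≠ 0 → b ≠ 0 → a ≠ b → (a = 1 ∧ b = 2) ∨ (a = 2 ∧ b = 1) := by decide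
  rcases key _ _ hne1 hne2 hne3 with ⟨h1, h2⟩ | ⟨h1, h2⟩
  · exact H1 _ (by rw [dd_shift]; exact hv) hl0 (by rw [hl1, h1]; rfl) (by rw [hl2, h2]; rfl)
  · exact H2 _ (by rw [dd_shift]; exact hv) hl0 (by rw [hl1, h1]; rfl) (by rw [hl2, h2]; rfl)

theorem goodS_sim {ℓ : Fin 3 → ℝ} (r : ℚ) (hr : 0 < r) {x y z : ℝ} (hx : x = r * ℓ 0)
    (hy : y = r * ℓ 1) (hz : z = r * ℓ 2) : GoodS ℓ x y z := by
  intro v hv ⟨σ, hσ⟩
  refine good_sim v hv r hr σ ?_
  intro k
  rw [hσ k]
  generalize σ k = j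
  fin_cases j
  · exact hx
  · exact hy
  · exact hz

theorem nsq (x : ℂ) : ‖x‖ ^ 2 = x.re ^ 2 + x.im ^ 2 := by
  rw [← Complex.normSq_eq_norm_sq, Complex.normSq_apply]; ring

/-- ordered cevian lemma -/
theorem cev_aux {ℓ : Fin 3 → ℝ} {m n b c d : ℝ} (hm : 0 < m) (hn : 0 < n) (hd : 0 ≤ d)
    (h1 : GoodS ℓ m d c) (h2 : GoodS ℓ n b d)
    (hst : (m + n) * (d ^ 2 + m * n) = n * c ^ 2 + m * b ^ 2)
    (v : Fin 3 → ℂ) (hv : 0 < dd v) (l0 : len v 0 = m + n) (l1 : len v 1 = b)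
    (l2 : len v 2 = c) : Good ℓ (bdc v) := by
  have hmn : 0 < m + n := by linarith
  set D : ℂ := v 1 + ((m / (m + n) : ℝ) : ℂ) * (v 2 - v 1) with hD
  have hDre : D.re = (v 1).re + (m / (m + n)) * ((v 2).re - (v 1).re) := by
    rw [hD, Complex.add_re, Complex.re_ofReal_mul, Complex.sub_re]
  have hDim : D.im = (v 1).im + (m / (m + n)) * ((v 2).im - (v 1).im) := by
    rw [hD, Complex.add_im, Complex.im_ofReal_mul, Complex.sub_im]
  have e1 : D - v 1 = ((m / (m + n) : ℝ) : ℂ) * (v 2 - v 1) := by rw [hD]; ring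
  have hs : (m / (m + n) : ℝ) + (n / (m + n)) = 1 := by field_simp
  have e2 : v 2 - D = ((n / (m + n) : ℝ) : ℂ) * (v 2 - v 1) := by
    have hs' : ((n / (m + n) : ℝ) : ℂ) = 1 - ((m / (m + n) : ℝ) : ℂ) := by
      rw [eq_sub_iff_add_eq, ← Complex.ofReal_add, add_comm, hs]; simp
    rw [hD, hs']; ring
  rw [bdc_eq, tri_cevian (m / (m + n)) (n / (m + n)) e1 e2]
  have l0' : ‖v 2 - v 1‖ = m + n := l0
  have l1' : ‖v 0 - v 2‖ = b := l1
  have l2' : ‖v 1 - v 0‖ = c := l2
  have nD1 : ‖D - v 1‖ = m := by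
    rw [e1, norm_mul, l0', Complex.norm_real, Real.norm_eq_abs, abs_of_pos (div_pos hm hmn)]
    field_simp
  have n2D : ‖v 2 - D‖ = n := by
    rw [e2, norm_mul, l0', Complex.norm_real, Real.norm_eq_abs, abs_of_pos (div_pos hn hmn)]
    field_simp
  have nD0 : ‖v 0 - D‖ = d := by
    have q0 := nsq (v 2 - v 1)
    have q1 := nsq (v 0 - v 2)
    have q2 := nsq (v 1 - v 0)
    rw [l0'] at q0
    rw [l1'] at q1
    rw [l2'] at q2
    have q3 := nsq (v 0 - D)
    have hre : (v 0 - D).re = (n / (m + n)) * ((v 0).re - (v 1).re) +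
        (m / (m + n)) * ((v 0).re - (v 2).re) := by
      have : (v 0 - D).re = (v 0).re - ((v 1).re + (m / (m + n)) * ((v 2).re - (v 1).re)) := by
        rw [Complex.sub_re, hDre]
      rw [this]
      linear_combination (-(v 0).re + (v 1).re) * hs
    have him : (v 0 - D).im = (n / (m + n)) * ((v 0).im - (v 1).im) +
        (m / (m + n)) * ((v 0).im - (v 2).im) := by
      have : (v 0 - D).im = (v 0).im - ((v 1).im + (m / (m + n)) * ((v 2).im - (v 1).im)) := by
        rw [Complex.sub_im, hDim]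
      rw [this]
      linear_combination (-(v 0).im + (v 1).im) * hs
    rw [hre, him] at q3
    simp only [Complex.sub_re, Complex.sub_im] at q0 q1 q2
    have q4 : ‖v 0 - D‖ ^ 2 = d ^ 2 := by
      rw [q3]
      field_simp
      linear_combination (-m * (m+n)) * q1 - (n * (m + n)) * q2 + m * n * q0 - (m + n) * hst
    exact (sq_eq_sq₀ (norm_nonneg _) hd).mp q4
  have dd1 : dd ![v 0, v 1, D] = m / (m + n) * dd v := by
    have hre := hDre
    have him := hDim
    change cr (v 1 - v 0) (D - v 0) = m / (m + n) * cr (v 1 - v 0) (v 2 - v 0)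
    unfold cr
    simp only [Complex.sub_re, Complex.sub_im]
    rw [hre, him]
    ring
  have dd2 : dd ![v 0, D, v 2] = n / (m + n) * dd v := by
    have hre := hDre
    have him := hDim
    have hs' : n / (m + n) = 1 - m / (m + n) := by linarith
    change cr (D - v 0) (v 2 - v 0) = n / (m + n) * cr (v 1 - v 0) (v 2 - v 0)
    unfold cr
    simp only [Complex.sub_re, Complex.sub_im]
    rw [hre, him, hs']
    ring
  refine Good.add ?_ ?_
  · have := h1 ![v 0, v 1, D] (by rw [dd1]; exact mul_pos (div_pos hm hmn) hv)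
      ⟨1, fun k => by
        fin_cases k
        · exact nD1
        · exact nD0
        · exact l2'⟩
    rw [bdc_eq] at this
    exact this
  · have := h2 ![v 0, D, v 2] (by rw [dd2]; exact mul_pos (div_pos hn hmn) hv)
      ⟨1, fun k => by
        fin_cases k
        · exact n2D
        · exact l1'
        · change ‖D - v 0‖ = d
          rw [← norm_neg, neg_sub]; exact nD0⟩
    rw [bdc_eq] at this
    exact this

/-- cevian lemma (Stewart's theorem) -/
theorem goodS_cev {ℓ : Fin 3 → ℝ} {m n b c d : ℝ} (hm : 0 < m) (hn : 0 < n) (hd : 0 ≤ d)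
    (h1 : GoodS ℓ m d c) (h2 : GoodS ℓ n b d)
    (hst : (m + n) * (d ^ 2 + m * n) = n * c ^ 2 + m * b ^ 2) : GoodS ℓ (m + n) b c := by
  refine goodS_of_ordered (fun v hv l0 l1 l2 => cev_aux hm hn hd h1 h2 hst v hv l0 l1 l2)
    (fun v hv l0 l1 l2 => ?_)
  refine cev_aux (m := n) (n := m) (b := c) (c := b) hn hm hd h2.swap12 h1.swap12
    ?_ v hv (by rw [l0]; ring) l1 l2
  linear_combination hst

end Pool.Agent.TH387
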