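import Mathlib
import Pool.Agent.Helper549.Tri.Defs
import Pool.Agent.TH387.Base
import Pool.Agent.TH387.Seg
import Pool.Agent.TH387.Til
import Pool.Agent.TH387.Good
set_option autoImplicit false
noncomputable section
open scoped BigOperators

namespace Pool.Agent.TH387
open Pool.Agent.Helper549.Tri

/-- trapezoid with top `q`, leg `l`, base `q + l κ`, base direction `e`, left leg direction `f` -/
def trap (A e f : ℂ) (κ q l : ℝ) : Ch :=
  quad A (A + ((q + l * κ : ℝ) : ℂ) * e) (A + (l : ℂ) * f + (q : ℂ) * e) (A + (l : ℂ) * f)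

theorem trap_stack (A e f : ℂ) (κ q l1 l2 : ℝ) :
    trap A e f κ q (l1 + l2) =
      trap A e f κ (q + l2 * κ) l1 + trap (A + (l1 : ℂ) * f) e f κ q l2 := by
  unfold trap quad
  set B : ℂ := A + ((q + (l1 + l2) * κ : ℝ) : ℂ) * e with hB
  set C1 : ℂ := A + (l1 : ℂ) * f + ((q + l2 * κ : ℝ) : ℂ) * e with hC1
  set D1 : ℂ := A + (l1 : ℂ) * f with hD1
  have eB : A + ((q + l2 * κ + l1 * κ : ℝ) : ℂ) * e = B := by rw [hB]; push_cast; ring
  have eC : A + ((l1 + l2 : ℝ) : ℂ) * f + (q : ℂ) * e = D1 + (l2 : ℂ) * f + (q : ℂ) * e := by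
    rw [hD1]; push_cast; ring
  have eD : A + ((l1 + l2 : ℝ) : ℂ) * f = D1 + (l2 : ℂ) * f := by
    rw [hD1]; push_cast; ring
  rw [eB, eC, eD]
  have h1 := seg_add (p := B) (q := C1) (x := D1 + (l2 : ℂ) * f + (q : ℂ) * e)
    (d := f - (κ : ℂ) * e) l1 l2 (by rw [hB, hC1]; push_cast; ring)
    (by rw [hC1, hD1]; push_cast; ring)
  have h2 := seg_add (p := D1 + (l2 : ℂ) * f) (q := D1) (x := A) (d := f) (-l2) (-l1)
    (by push_cast; ring) (by rw [hD1]; push_cast; ring)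
  rw [← h1, ← h2, seg_symm D1 C1]
  abel

theorem trap_par (A e f : ℂ) (κ q1 q2 l : ℝ) :
    trap A e f κ (q1 + q2) l =
      quad A (A + (q1 : ℂ) * e) (A + (q1 : ℂ) * e + (l : ℂ) * f) (A + (l : ℂ) * f) +
      trap (A + (q1 : ℂ) * e) e f κ q2 l := by
  unfold trap quad
  set A2 : ℂ := A + (q1 : ℂ) * e with hA2
  set D2 : ℂ := A2 + (l : ℂ) * f with hD2
  have eB : A + ((q1 + q2 + l * κ : ℝ) : ℂ) * e = A2 + ((q2 + l * κ : ℝ) : ℂ) * e := by
    rw [hA2]; push_cast; ring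
  have eC : A + (l : ℂ) * f + ((q1 + q2 : ℝ) : ℂ) * e = D2 + (q2 : ℂ) * e := by
    rw [hD2, hA2]; push_cast; ring
  rw [eB, eC]
  have h1 := seg_add (p := A) (q := A2) (x := A2 + ((q2 + l * κ : ℝ) : ℂ) * e)
    (d := e) q1 (q2 + l * κ) (by rw [hA2]; ring) (by ring)
  have h2 := seg_add (p := D2 + (q2 : ℂ) * e) (q := D2) (x := A + (l : ℂ) * f)
    (d := e) (-q2) (-q1) (by push_cast; ring) (by rw [hD2, hA2]; push_cast; ring)
  rw [← h1, ← h2, seg_symm A2 D2]
  abel

/-- trapezoids of all positive rational sizes from basic trapezoids and parallelograms -/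
theorem good_trap {ℓ : Fin 3 → ℝ} (e f : ℂ) (κ Q : ℚ) (hκ : 0 ≤ κ)
    (hbase : ∀ (l : ℚ), 0 < l → ∀ A : ℂ, Good ℓ (trap A e f κ ((Q * l : ℚ) : ℝ) l))
    (hpar : ∀ (x l : ℚ), 0 < x → 0 < l → ∀ A : ℂ,
      Good ℓ (quad A (A + ((x : ℝ) : ℂ) * e) (A + ((x : ℝ) : ℂ) * e + ((l : ℝ) : ℂ) * f)
        (A + ((l : ℝ) : ℂ) * f)))
    (q l : ℚ) (hq : 0 < q) (hl : 0 < l) (A : ℂ) : Good ℓ (trap A e f κ q l) := by
  -- case of a large top
  have big : ∀ (q l : ℚ), 0 < l → Q * l ≤ q → ∀ A : ℂ, Good ℓ (trap A e f κ q l) := by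
    intro q l hl hql A
    rcases eq_or_lt_of_le hql with h | h
    · rw [← h]; exact hbase l hl A
    · have h1 := trap_par A e f κ ((q - Q * l : ℚ) : ℝ) ((Q * l : ℚ) : ℝ) l
      have h2 : ((q - Q * l : ℚ) : ℝ) + ((Q * l : ℚ) : ℝ) = (q : ℝ) := by push_cast; ring
      rw [h2] at h1
      rw [h1]
      exact (hpar _ _ (by linarith) hl A).add (hbase l hl _)
  have main : ∀ n : ℕ, ∀ (q l : ℚ), 0 < q → 0 < l → Q * l ≤ q * (n + 1) → ∀ A : ℂ,
      Good ℓ (trap A e f κ q l) := by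
    intro n
    induction n with
    | zero =>
      intro q l hq hl h A
      exact big q l hl (by simpa using h) A
    | succ n ih =>
      intro q l hq hl h A
      have hn : (0 : ℚ) < (n : ℚ) + 1 + 1 := by positivity
      set l2 : ℚ := l / ((n : ℚ) + 1 + 1) with hl2
      have hl2p : 0 < l2 := div_pos hl hn
      have hll : l = l2 * ((n : ℚ) + 1 + 1) := by rw [hl2]; field_simp
      have hl1p : 0 < l - l2 := by rw [hll]; nlinarith
      have h1 := trap_stack A e f κ q ((l - l2 : ℚ) : ℝ) l2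
      have h2 : ((l - l2 : ℚ) : ℝ) + (l2 : ℝ) = (l : ℝ) := by push_cast; ring
      rw [h2] at h1
      rw [h1]
      push_cast at h
      have h3 : Q * l2 ≤ q := by
        have : Q * l2 * ((n : ℚ) + 1 + 1) ≤ q * ((n : ℚ) + 1 + 1) := by
          rw [mul_assoc, ← hll]; exact h
        exact le_of_mul_le_mul_right this hn
      have h5 : 0 ≤ l2 * κ := mul_nonneg hl2p.le hκ
      refine Good.add ?_ (big q l2 hl2p h3 _)
      have h4 := ih (q + l2 * κ) (l - l2) (by linarith) hl1p (by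
        have e1 : Q * (l - l2) = Q * l2 * ((n : ℚ) + 1) := by rw [hll]; ring
        rw [e1]
        have : (0 : ℚ) ≤ (n : ℚ) + 1 := by positivity
        nlinarith) A
      have e2 : ((q + l2 * κ : ℚ) : ℝ) = (q : ℝ) + (l2 : ℝ) * (κ : ℝ) := by push_cast; ring
      rw [e2] at h4
      exact h4
  obtain ⟨n, hn⟩ := exists_nat_ge (Q * l / q)
  refine main n q l hq hl ?_ A
  rw [div_le_iff₀ hq] at hn
  nlinarith

/-- placement of a model triangle -/
def pl (A e : ℂ) (z : Fin 3 → ℂ) : Fin 3 → ℂ := fun k => A + e * z k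

theorem dd_pl (A e : ℂ) (he : ‖e‖ = 1) (z : Fin 3 → ℂ) : dd (pl A e z) = dd z := by
  have h : e.re * e.re + e.im * e.im = 1 := by
    rw [← Complex.normSq_apply, Complex.normSq_eq_norm_sq, he]; norm_num
  unfold dd pl cr
  simp only [Complex.sub_re, Complex.sub_im, Complex.add_re, Complex.add_im, Complex.mul_re,
    Complex.mul_im]
  linear_combination (((z 1).re - (z 0).re) * ((z 2).im - (z 0).im) -
    ((z 1).im - (z 0).im) * ((z 2).re - (z 0).re)) * h

theorem len_pl (A e : ℂ) (he : ‖e‖ = 1) (z : Fin 3 → ℂ) (k : Fin 3) : len (pl A e z) k = len z k := by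
  unfold len sd pl
  have : A + e * z (k + 2) - (A + e * z (k + 1)) = e * (z (k + 2) - z (k + 1)) := by ring
  rw [this, norm_mul, he, one_mul]

/-- two positively oriented triangles with the same side lengths -/
theorem sss (v z : Fin 3 → ℂ) (hv : 0 < dd v) (hz : 0 < dd z) (h : ∀ k, len v k = len z k) :
    ∃ A e : ℂ, ‖e‖ = 1 ∧ v = pl A e z := by
  have sq : ∀ x : ℂ, ‖x‖ ^ 2 = x.re ^ 2 + x.im ^ 2 := fun x => by
    rw [← Complex.normSq_eq_norm_sq, Complex.normSq_apply]; ring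
  have h0 : ‖v 2 - v 1‖ ^ 2 = ‖z 2 - z 1‖ ^ 2 := by
    have : ‖v 2 - v 1‖ = ‖z 2 - z 1‖ := h 0
    rw [this]
  have h1 : ‖v 0 - v 2‖ ^ 2 = ‖z 0 - z 2‖ ^ 2 := by
    have : ‖v 0 - v 2‖ = ‖z 0 - z 2‖ := h 1
    rw [this]
  have h2' : ‖v 1 - v 0‖ = ‖z 1 - z 0‖ := h 2
  have h2 : ‖v 1 - v 0‖ ^ 2 = ‖z 1 - z 0‖ ^ 2 := by rw [h2']
  rw [sq, sq] at h0 h1 h2
  simp only [Complex.sub_re, Complex.sub_im] at h0 h1 h2
  -- inner products agree
  have hin : ((v 1).re - (v 0).re) * ((v 2).re - (v 0).re) +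
      ((v 1).im - (v 0).im) * ((v 2).im - (v 0).im) =
      ((z 1).re - (z 0).re) * ((z 2).re - (z 0).re) +
      ((z 1).im - (z 0).im) * ((z 2).im - (z 0).im) := by
    linear_combination (-1/2 : ℝ) * h0 + (1/2 : ℝ) * h1 + (1/2 : ℝ) * h2
  have hdsq : dd v ^ 2 = dd z ^ 2 := by
    have e1 : dd v ^ 2 = (((v 1).re - (v 0).re) ^ 2 + ((v 1).im - (v 0).im) ^ 2) *
        (((v 0).re - (v 2).re) ^ 2 + ((v 0).im - (v 2).im) ^ 2) -
        (((v 1).re - (v 0).re) * ((v 2).re - (v 0).re) +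
          ((v 1).im - (v 0).im) * ((v 2).im - (v 0).im)) ^ 2 := by
      unfold dd cr
      simp only [Complex.sub_re, Complex.sub_im]
      ring
    have e2 : dd z ^ 2 = (((z 1).re - (z 0).re) ^ 2 + ((z 1).im - (z 0).im) ^ 2) *
        (((z 0).re - (z 2).re) ^ 2 + ((z 0).im - (z 2).im) ^ 2) -
        (((z 1).re - (z 0).re) * ((z 2).re - (z 0).re) +
          ((z 1).im - (z 0).im) * ((z 2).im - (z 0).im)) ^ 2 := by
      unfold dd cr
      simp only [Complex.sub_re, Complex.sub_im]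
      ring
    rw [e1, e2, h1, h2, hin]
  have hdd : dd v = dd z := (sq_eq_sq₀ hv.le hz.le).mp hdsq
  have hz1 : z 1 - z 0 ≠ 0 := by
    intro h0
    unfold dd at hz
    rw [h0] at hz
    simp [cr] at hz
  have hv1 : v 1 - v 0 ≠ 0 := by
    intro h0
    unfold dd at hv
    rw [h0] at hv
    simp [cr] at hv
  have hconj : (starRingEnd ℂ) (v 1 - v 0) * (v 2 - v 0) =
      (starRingEnd ℂ) (z 1 - z 0) * (z 2 - z 0) := by
    apply Complex.ext
    · simp only [Complex.mul_re, Complex.conj_re, Complex.conj_im, Complex.sub_re, Complex.sub_im]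
      linear_combination hin
    · simp only [Complex.mul_im, Complex.conj_re, Complex.conj_im, Complex.sub_re, Complex.sub_im]
      have := hdd
      unfold dd cr at this
      simp only [Complex.sub_re, Complex.sub_im] at this
      linear_combination this
  have hns : (starRingEnd ℂ) (v 1 - v 0) * (v 1 - v 0) =
      (starRingEnd ℂ) (z 1 - z 0) * (z 1 - z 0) := by
    rw [← Complex.normSq_eq_conj_mul_self, ← Complex.normSq_eq_conj_mul_self,
      Complex.normSq_eq_norm_sq, Complex.normSq_eq_norm_sq, h2']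
  set e : ℂ := (v 1 - v 0) / (z 1 - z 0) with he
  have ee : e * (z 1 - z 0) = v 1 - v 0 := by rw [he]; field_simp
  have hne : ‖e‖ = 1 := by
    rw [he, norm_div, h2']
    exact div_self (norm_ne_zero_iff.mpr hz1)
  refine ⟨v 0 - e * z 0, e, hne, ?_⟩
  have hcv : (starRingEnd ℂ) (v 1 - v 0) ≠ 0 := (map_ne_zero _).mpr hv1
  have e2 : e * (z 2 - z 0) = v 2 - v 0 := by
    apply mul_left_cancel₀ hcv
    rw [hconj]
    have : (starRingEnd ℂ) (v 1 - v 0) * e = (starRingEnd ℂ) (z 1 - z 0) := by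
      apply mul_right_cancel₀ hz1
      rw [mul_assoc, ee, hns]
    rw [← mul_assoc, this]
  funext k
  fin_cases k
  · change v 0 = v 0 - e * z 0 + e * z 0
    ring
  · change v 1 = v 0 - e * z 0 + e * z 1
    linear_combination -ee
  · change v 2 = v 0 - e * z 0 + e * z 2
    linear_combination -e2

end Pool.Agent.TH387
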