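import Mathlib
import Pool.Agent.Helper549.Tri.SqDefs
import Pool.Agent.Helper549.Tri.Defs
import Pool.Agent.Helper549.Tri.Setup
import Pool.Agent.TH387.Base
import Pool.Agent.TH387.Seg
import Pool.Agent.TH387.Til
import Pool.Agent.TH387.Good
import Pool.Agent.TH387.Trap
import Pool.Agent.TH387.Cev
import Pool.Agent.TH609.J39
set_option autoImplicit false
noncomputable section
open scoped BigOperators

namespace Pool.Agent.TH387
open Pool.Agent.Helper549.Tri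

/-- sixteen times the squared area, as a function of the side lengths -/
def Hr (f : Fin 3 → ℝ) : ℝ := (∑ k, f k ^ 2) ^ 2 - 2 * ∑ k, f k ^ 4

theorem Hr_perm (f : Fin 3 → ℝ) (σ : Equiv.Perm (Fin 3)) : Hr (fun k => f (σ k)) = Hr f := by
  unfold Hr
  rw [Equiv.sum_comp σ (fun k => f k ^ 2), Equiv.sum_comp σ (fun k => f k ^ 4)]

theorem Hr_smul (f : Fin 3 → ℝ) (r : ℝ) : Hr (fun k => r * f k) = r ^ 4 * Hr f := by
  unfold Hr
  simp only [mul_pow]
  rw [← Finset.mul_sum, ← Finset.mul_sum]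
  ring

theorem dd_heron (v : Fin 3 → ℂ) : 4 * dd v ^ 2 = Hr (len v) := by
  have q0 := nsq (v 2 - v 1)
  have q1 := nsq (v 0 - v 2)
  have q2 := nsq (v 1 - v 0)
  have l0 : len v 0 = ‖v 2 - v 1‖ := rfl
  have l1 : len v 1 = ‖v 0 - v 2‖ := rfl
  have l2 : len v 2 = ‖v 1 - v 0‖ := rfl
  unfold Hr
  rw [Fin.sum_univ_three, Fin.sum_univ_three, l0, l1, l2]
  have e0 : ‖v 2 - v 1‖ ^ 4 = (‖v 2 - v 1‖ ^ 2) ^ 2 := by ring
  have e1 : ‖v 0 - v 2‖ ^ 4 = (‖v 0 - v 2‖ ^ 2) ^ 2 := by ring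
  have e2 : ‖v 1 - v 0‖ ^ 4 = (‖v 1 - v 0‖ ^ 2) ^ 2 := by ring
  rw [e0, e1, e2, q0, q1, q2]
  unfold dd cr
  simp only [Complex.sub_re, Complex.sub_im]
  ring

theorem mapDomain_sub' (f : ℂ × ℂ → ℂ × ℂ) (a b : Ch) :
    Finsupp.mapDomain f (a - b) = Finsupp.mapDomain f a - Finsupp.mapDomain f b :=
  (Finsupp.mapDomain.addMonoidHom (M := ℤ) f).map_sub a b

theorem seg_scale (r : ℝ) (hr : r ≠ 0) (p q : ℂ) : seg ((r : ℂ) * p) ((r : ℂ) * q) =
    Finsupp.mapDomain (fun x : ℂ × ℂ => (x.1, (r : ℂ) * x.2)) (seg p q) := by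
  unfold seg
  rw [mapDomain_sub', Finsupp.mapDomain_single, Finsupp.mapDomain_single]
  have : (r : ℂ) * q - (r : ℂ) * p = (r : ℂ) * (q - p) := by ring
  rw [this, cl_smul r hr]

/-- scaling of formal boundaries -/
theorem bdc_scale (r : ℝ) (hr : r ≠ 0) (v : Fin 3 → ℂ) :
    bdc (fun k => (r : ℂ) * v k) = Finsupp.mapDomain (fun x : ℂ × ℂ => (x.1, (r : ℂ) * x.2)) (bdc v) := by
  unfold bdc
  rw [Finsupp.mapDomain_finsetSum]
  refine Finset.sum_congr rfl fun k _ => ?_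
  exact seg_scale r hr _ _

theorem dd_scale (r : ℝ) (v : Fin 3 → ℂ) : dd (fun k => (r : ℂ) * v k) = r ^ 2 * dd v := by
  unfold dd cr
  simp only [Complex.sub_re, Complex.sub_im, Complex.re_ofReal_mul, Complex.im_ofReal_mul]
  ring

theorem len_scale (r : ℝ) (hr : 0 < r) (v : Fin 3 → ℂ) (k : Fin 3) :
    len (fun k => (r : ℂ) * v k) k = r * len v k := by
  unfold len sd
  rw [← mul_sub, norm_mul, Complex.norm_real, Real.norm_eq_abs, abs_of_pos hr]

/-- statement of the transport back to `CanCut` (job 41) -/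
def BackH : Prop := ∀ {N : ℕ} (A : Fin 3 → EuclideanSpace ℝ (Fin 2)) (T : Fin 3 → ℂ)
    (t : Fin N → Fin 3 → ℂ) (_ : Dis N T t) (ℓ : Fin 3 → ℝ)
    (_ : ∀ i, ∃ σ : Equiv.Perm (Fin 3), ∀ k, len (t i) k = ℓ (σ k))
    (_ : ∃ σ : Equiv.Perm (Fin 3), ∀ k, len T k = side A (σ k)), CanCut A N

theorem exist_core (hB : BackH) (A : Fin 3 → EuclideanSpace ℝ (Fin 2))
    (hA : AffineIndependent ℝ A) (x y z : ℝ) (hL : Like (side A) x y z) (ℓ : Fin 3 → ℝ)
    (hG : GoodS ℓ x y z) (R : ℝ) (hR : 0 < R) (hH : Hr ![x, y, z] = R ^ 2 * Hr ℓ)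
    (hHp : 0 < Hr ℓ) :
    ∃ N M : ℕ, 0 < M ∧ 1 ≤ N ∧ CanCut A N ∧ (N : ℝ) = M ^ 2 * R := by
  obtain ⟨ρ, hρ⟩ := Setup.orient A hA
  obtain ⟨σ, r, hr, h0, h1, h2⟩ := hL
  set T : Fin 3 → ℂ := fun k => Setup.eC (A (ρ k)) with hT
  have lenT : ∀ k, len T k = side A (ρ k) := by
    intro k
    change ‖Setup.eC (A (ρ (k + 2))) - Setup.eC (A (ρ (k + 1)))‖ =
      dist (A (ρ k + 1)) (A (ρ k + 2))
    rw [← dist_eq_norm, Setup.eC.dist_map]
    rcases Setup.perm3 ρ k with ⟨h1, h2⟩ | ⟨h1, h2⟩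
    · rw [h1, h2, dist_comm]
    · rw [h1, h2]
  have hside : ∀ j, side A (σ j) = r * ![x, y, z] j := by
    intro j
    fin_cases j
    · exact h0
    · exact h1
    · exact h2
  have lenT2 : ∀ k, len T k = r * ![x, y, z] (σ.symm (ρ k)) := by
    intro k
    rw [lenT, ← hside, Equiv.apply_symm_apply]
  have hri : (0 : ℝ) < r⁻¹ := inv_pos.mpr hr
  set T' : Fin 3 → ℂ := fun k => ((r⁻¹ : ℝ) : ℂ) * T k with hT'
  have hdT' : 0 < dd T' := by
    rw [hT', dd_scale]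
    exact mul_pos (by positivity) hρ
  have lenT' : ∀ k, len T' k = ![x, y, z] ((ρ.trans σ.symm) k) := by
    intro k
    rw [hT', len_scale _ hri, lenT2]
    change r⁻¹ * (r * ![x, y, z] (σ.symm (ρ k))) = ![x, y, z] (σ.symm (ρ k))
    field_simp
  obtain ⟨M, hM, hgood⟩ := hG T' hdT' ⟨ρ.trans σ.symm, lenT'⟩
  obtain ⟨N, t, ht, hsum⟩ := til_fin (hgood M hM dvd_rfl)
  have hM' : (0 : ℝ) < M := by exact_mod_cast hM
  -- areas
  have harea : ∑ i, dd (t i) = dd T' := by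
    have h3 := congrArg (Finsupp.linearCombination ℤ Pool.Agent.TH609.J39.FA) hsum
    rw [map_sum, Pool.Agent.TH609.J39.area] at h3
    rw [← h3]
    exact Finset.sum_congr rfl fun i _ => (Pool.Agent.TH609.J39.area (t i)).symm
  have hHr : ∀ i, 4 * dd (t i) ^ 2 = Hr ℓ / M ^ 4 := by
    intro i
    obtain ⟨_, π, hπ⟩ := ht i
    rw [dd_heron]
    have : len (t i) = fun k => scl ℓ M (π k) := funext hπ
    rw [this, Hr_perm]
    have : scl ℓ M = fun k => (M : ℝ)⁻¹ * ℓ k := by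
      funext k; unfold scl; field_simp
    rw [this, Hr_smul]
    field_simp
  have hHT : 4 * dd T' ^ 2 = R ^ 2 * Hr ℓ := by
    rw [dd_heron]
    have : len T' = fun k => ![x, y, z] ((ρ.trans σ.symm) k) := funext lenT'
    rw [this, Hr_perm, hH]
  set d : ℝ := Real.sqrt (Hr ℓ / 4) / M ^ 2 with hd
  have hdpos : 0 < d := by positivity
  have hdt : ∀ i, dd (t i) = d := by
    intro i
    have e1 : dd (t i) ^ 2 = d ^ 2 := by
      rw [hd, div_pow, Real.sq_sqrt (by positivity)]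
      have := hHr i
      field_simp at this ⊢
      linarith
    exact (sq_eq_sq₀ (ht i).1.le hdpos.le).mp e1
  have hdT : dd T' = R * Real.sqrt (Hr ℓ / 4) := by
    have e1 : dd T' ^ 2 = (R * Real.sqrt (Hr ℓ / 4)) ^ 2 := by
      rw [mul_pow, Real.sq_sqrt (by positivity)]
      linarith
    exact (sq_eq_sq₀ hdT'.le (by positivity)).mp e1
  have hN : (N : ℝ) = M ^ 2 * R := by
    rw [Finset.sum_congr rfl fun i _ => hdt i, Finset.sum_const, Finset.card_univ,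
      Fintype.card_fin, nsmul_eq_mul, hdT, hd] at harea
    have hs : 0 < Real.sqrt (Hr ℓ / 4) := by positivity
    field_simp at harea
    exact harea
  have hN1 : 0 < N := by
    have : (0 : ℝ) < N := by rw [hN]; positivity
    exact_mod_cast this
  refine ⟨N, M, hM, hN1, ?_, hN⟩
  -- back to the original scale
  have hTT' : T = fun k => (r : ℂ) * T' k := by
    funext k
    change T k = (r : ℂ) * (((r⁻¹ : ℝ) : ℂ) * T k)
    rw [← mul_assoc, ← Complex.ofReal_mul, mul_inv_cancel₀ hr.ne', Complex.ofReal_one, one_mul]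
  have hsum2 : ∑ i, bdc (fun k => (r : ℂ) * t i k) = bdc T := by
    rw [hTT', bdc_scale r hr.ne', ← hsum, Finsupp.mapDomain_finsetSum]
    exact Finset.sum_congr rfl fun i _ => bdc_scale r hr.ne' (t i)
  have hdis := chain_dis hN1 T (fun i k => (r : ℂ) * t i k)
    (fun i => by rw [dd_scale]; exact mul_pos (by positivity) (ht i).1) hsum2
  refine hB A T _ hdis (fun k => r * scl ℓ M k) (fun i => ?_) ⟨ρ, lenT⟩
  obtain ⟨_, π, hπ⟩ := ht i
  exact ⟨π, fun k => by rw [len_scale r hr, hπ]⟩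

end Pool.Agent.TH387
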