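import Mathlib
import Pool.Agent.Helper549.Tri.Defs
import Pool.Agent.TH387.Base
import Pool.Agent.TH387.Seg
import Pool.Agent.TH387.Til
import Pool.Agent.TH387.Good
import Pool.Agent.TH387.Trap
import Pool.Agent.TH387.Cev
set_option autoImplicit false
noncomputable section
open scoped BigOperators

namespace Pool.Agent.TH387
open Pool.Agent.Helper549.Tri

/-- a placed triangle whose sides are `r` times the tile sides -/
theorem good_pl {ℓ : Fin 3 → ℝ} (hℓ : ∀ k, 0 < ℓ k) (A e : ℂ) (he : ‖e‖ = 1) (z : Fin 3 → ℂ)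
    (hz : 0 < dd z) (r : ℚ) (hr : 0 < r) (σ : Equiv.Perm (Fin 3))
    (h : ∀ k, ((z (k + 2)).re - (z (k + 1)).re) ^ 2 + ((z (k + 2)).im - (z (k + 1)).im) ^ 2 =
      (r * ℓ (σ k)) ^ 2) : Good ℓ (tri (A + e * z 0) (A + e * z 1) (A + e * z 2)) := by
  have h1 := good_sim (ℓ := ℓ) (pl A e z) (by rw [dd_pl A e he]; exact hz) r hr σ (fun k => by
    rw [len_pl A e he]
    have hr' : (0 : ℝ) < r := by exact_mod_cast hr
    have h2 : ‖z (k + 2) - z (k + 1)‖ ^ 2 = (r * ℓ (σ k)) ^ 2 := by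
      rw [nsq, Complex.sub_re, Complex.sub_im]; exact h k
    exact (sq_eq_sq₀ (norm_nonneg _) (mul_pos hr' (hℓ _)).le).mp h2)
  rw [bdc_eq] at h1
  exact h1

theorem cr_e (e : ℂ) (he : ‖e‖ = 1) (C S : ℝ) : cr e (e * ⟨C, S⟩) = S := by
  have h : e.re * e.re + e.im * e.im = 1 := by
    rw [← Complex.normSq_apply, Complex.normSq_eq_norm_sq, he]; norm_num
  unfold cr
  simp only [Complex.mul_re, Complex.mul_im]
  linear_combination S * h

theorem re_e (e : ℂ) (he : ‖e‖ = 1) (C S : ℝ) :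
    e.re * (e * (⟨C, S⟩ : ℂ)).re + e.im * (e * (⟨C, S⟩ : ℂ)).im = C := by
  have h : e.re * e.re + e.im * e.im = 1 := by
    rw [← Complex.normSq_apply, Complex.normSq_eq_norm_sq, he]; norm_num
  simp only [Complex.mul_re, Complex.mul_im]
  linear_combination C * h

/-- trapezoids with base angle the angle of the tile opposite to the side `a` -/
theorem good_trapA (a b c : ℚ) (ha : 0 < a) (hb : 0 < b) (hc : 0 < c) (κ : ℚ)
    (hκ : κ * (b * c) = b ^ 2 + c ^ 2 - a ^ 2) (hκ0 : 0 ≤ κ) (S : ℝ) (hS : 0 < S)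
    (hS2 : S ^ 2 = 1 - ((κ : ℝ) / 2) ^ 2) (e : ℂ) (he : ‖e‖ = 1) (q l : ℚ) (hq : 0 < q)
    (hl : 0 < l) (A : ℂ) :
    Good ![(a : ℝ), b, c] (trap A e (e * ⟨(κ : ℝ) / 2, S⟩) κ q l) := by
  have ha' : (0 : ℝ) < a := by exact_mod_cast ha
  have hb' : (0 : ℝ) < b := by exact_mod_cast hb
  have hc' : (0 : ℝ) < c := by exact_mod_cast hc
  have hℓ : ∀ k, 0 < (![(a : ℝ), b, c] : Fin 3 → ℝ) k := by
    intro k; fin_cases k
    · exact ha'
    · exact hb'
    · exact hc'
  have hκ' : (κ : ℝ) * (b * c) = b ^ 2 + c ^ 2 - a ^ 2 := by exact_mod_cast hκ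
  have hk : (κ : ℝ) = (b ^ 2 + c ^ 2 - a ^ 2) / (b * c) := by rw [← hκ']; field_simp
  refine good_trap e _ κ (a ^ 2 / (b * c)) hκ0 ?_ ?_ q l hq hl A
  · intro l hl A
    have hl' : (0 : ℝ) < l := by exact_mod_cast hl
    unfold trap
    set E : ℂ := A + ((c / b * l : ℝ) : ℂ) * e with hE
    set B : ℂ := A + ((((a ^ 2 / (b * c) * l : ℚ) : ℝ) + l * κ : ℝ) : ℂ) * e with hB
    set D : ℂ := A + ((l : ℝ) : ℂ) * (e * ⟨(κ : ℝ) / 2, S⟩) with hD
    set C : ℂ := D + (((a ^ 2 / (b * c) * l : ℚ) : ℝ) : ℂ) * e with hC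
    have hBx : ((a ^ 2 / (b * c) * l : ℚ) : ℝ) + l * κ = c / b * l + b / c * l := by
      push_cast
      rw [hk]
      field_simp
      ring
    have hsplit : quad A B C D = tri A E D + tri E B C + tri E C D := by
      have h1 := seg_add (p := A) (q := E) (x := B) (d := e) (c / b * l) (b / c * l)
        (by rw [hE]; ring) (by rw [hE, hB, hBx]; push_cast; ring)
      unfold quad tri
      rw [← h1, seg_symm E C, seg_symm E D]
      abel
    rw [hsplit]
    refine Good.add (Good.add ?_ ?_) ?_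
    · have := good_pl hℓ A e he ![⟨0, 0⟩, ⟨c / b * l, 0⟩, ⟨l * (κ / 2), l * S⟩] (by
        change 0 < cr (⟨c / b * l, 0⟩ - ⟨0, 0⟩) ((⟨l * (κ / 2), l * S⟩ : ℂ) - ⟨0, 0⟩)
        unfold cr
        simp only [Complex.sub_re, Complex.sub_im]
        have : 0 < (c : ℝ) / b * l * (l * S) := by positivity
        linarith) (l / b) (div_pos hl hb) 1 (by
        intro k
        fin_cases k
        · change (l * ((κ : ℝ) / 2) - c / b * l) ^ 2 + (l * S - 0) ^ 2 = (((l / b : ℚ) : ℝ) * a) ^ 2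
          push_cast
          linear_combination (norm := (rw [hk]; field_simp; ring)) (l : ℝ) ^ 2 * hS2
        · change (0 - l * ((κ : ℝ) / 2)) ^ 2 + (0 - l * S) ^ 2 = (((l / b : ℚ) : ℝ) * b) ^ 2
          push_cast
          linear_combination (norm := (rw [hk]; field_simp; ring)) (l : ℝ) ^ 2 * hS2
        · change ((c : ℝ) / b * l - 0) ^ 2 + (0 - 0) ^ 2 = (((l / b : ℚ) : ℝ) * c) ^ 2
          push_cast
          field_simp
          ring)
      convert this using 2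
      · change A = A + e * (⟨0, 0⟩ : ℂ)
        have : (⟨0, 0⟩ : ℂ) = 0 := rfl
        rw [this]; ring
      · change E = A + e * (⟨c / b * l, 0⟩ : ℂ)
        have : (⟨c / b * l, 0⟩ : ℂ) = ((c / b * l : ℝ) : ℂ) := rfl
        rw [this, hE]; ring
      · change D = A + e * (⟨l * (κ / 2), l * S⟩ : ℂ)
        have : (⟨l * (κ / 2), l * S⟩ : ℂ) = ((l : ℝ) : ℂ) * ⟨(κ : ℝ) / 2, S⟩ := by
          apply Complex.ext <;> simp
        rw [this, hD]; ring
    · -- right tile E B C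
      have := good_pl hℓ A e he ![⟨c / b * l, 0⟩, ⟨c / b * l + b / c * l, 0⟩,
          ⟨l * (κ / 2) + a ^ 2 / (b * c) * l, l * S⟩] (by
        change 0 < cr (⟨c / b * l + b / c * l, 0⟩ - ⟨c / b * l, 0⟩)
          ((⟨l * (κ / 2) + a ^ 2 / (b * c) * l, l * S⟩ : ℂ) - ⟨c / b * l, 0⟩)
        unfold cr
        simp only [Complex.sub_re, Complex.sub_im]
        have : 0 < (b : ℝ) / c * l * (l * S) := by positivity
        linarith) (l / c) (div_pos hl hc) (Equiv.addRight 2) (by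
        intro k
        fin_cases k
        · change (l * ((κ : ℝ) / 2) + a ^ 2 / (b * c) * l - (c / b * l + b / c * l)) ^ 2 +
            (l * S - 0) ^ 2 = (((l / c : ℚ) : ℝ) * c) ^ 2
          push_cast
          linear_combination (norm := (rw [hk]; field_simp; ring)) (l : ℝ) ^ 2 * hS2
        · change (c / b * l - (l * ((κ : ℝ) / 2) + a ^ 2 / (b * c) * l)) ^ 2 +
            (0 - l * S) ^ 2 = (((l / c : ℚ) : ℝ) * a) ^ 2
          push_cast
          linear_combination (norm := (rw [hk]; field_simp; ring)) (l : ℝ) ^ 2 * hS2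
        · change ((c : ℝ) / b * l + b / c * l - c / b * l) ^ 2 + (0 - 0) ^ 2 =
            (((l / c : ℚ) : ℝ) * b) ^ 2
          push_cast
          field_simp
          ring)
      convert this using 2
      · change E = A + e * (⟨c / b * l, 0⟩ : ℂ)
        have : (⟨c / b * l, 0⟩ : ℂ) = ((c / b * l : ℝ) : ℂ) := rfl
        rw [this, hE]; ring
      · change B = A + e * (⟨c / b * l + b / c * l, 0⟩ : ℂ)
        have : (⟨c / b * l + b / c * l, 0⟩ : ℂ) = ((c / b * l + b / c * l : ℝ) : ℂ) := rfl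
        rw [this, hB, hBx]; ring
      · change C = A + e * (⟨l * (κ / 2) + a ^ 2 / (b * c) * l, l * S⟩ : ℂ)
        have : (⟨l * (κ / 2) + a ^ 2 / (b * c) * l, l * S⟩ : ℂ) =
            ((l : ℝ) : ℂ) * ⟨(κ : ℝ) / 2, S⟩ + ((a ^ 2 / (b * c) * l : ℝ) : ℂ) := by
          apply Complex.ext
          · rw [Complex.add_re, Complex.re_ofReal_mul, Complex.ofReal_re]
          · rw [Complex.add_im, Complex.im_ofReal_mul, Complex.ofReal_im, add_zero]
        rw [this, hC, hD]; push_cast; ring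
    · -- middle tile E C D
      have := good_pl hℓ A e he ![⟨c / b * l, 0⟩, ⟨l * (κ / 2) + a ^ 2 / (b * c) * l, l * S⟩,
          ⟨l * (κ / 2), l * S⟩] (by
        change 0 < cr ((⟨l * (κ / 2) + a ^ 2 / (b * c) * l, l * S⟩ : ℂ) - ⟨c / b * l, 0⟩)
          ((⟨l * (κ / 2), l * S⟩ : ℂ) - ⟨c / b * l, 0⟩)
        unfold cr
        simp only [Complex.sub_re, Complex.sub_im]
        have : 0 < (a : ℝ) ^ 2 / (b * c) * l * (l * S) := by positivity
        linarith) (l * a / (b * c)) (by positivity) (Equiv.subLeft 0) (by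
        intro k
        fin_cases k
        · change (l * ((κ : ℝ) / 2) - (l * ((κ : ℝ) / 2) + a ^ 2 / (b * c) * l)) ^ 2 +
            (l * S - l * S) ^ 2 = (((l * a / (b * c) : ℚ) : ℝ) * a) ^ 2
          push_cast
          field_simp
          ring
        · change (c / b * l - l * ((κ : ℝ) / 2)) ^ 2 +
            (0 - l * S) ^ 2 = (((l * a / (b * c) : ℚ) : ℝ) * c) ^ 2
          push_cast
          linear_combination (norm := (rw [hk]; field_simp; ring)) (l : ℝ) ^ 2 * hS2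
        · change (l * ((κ : ℝ) / 2) + a ^ 2 / (b * c) * l - c / b * l) ^ 2 + (l * S - 0) ^ 2 =
            (((l * a / (b * c) : ℚ) : ℝ) * b) ^ 2
          push_cast
          linear_combination (norm := (rw [hk]; field_simp; ring)) (l : ℝ) ^ 2 * hS2)
      convert this using 2
      · change E = A + e * (⟨c / b * l, 0⟩ : ℂ)
        have : (⟨c / b * l, 0⟩ : ℂ) = ((c / b * l : ℝ) : ℂ) := rfl
        rw [this, hE]; ring
      · change C = A + e * (⟨l * (κ / 2) + a ^ 2 / (b * c) * l, l * S⟩ : ℂ)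
        have : (⟨l * (κ / 2) + a ^ 2 / (b * c) * l, l * S⟩ : ℂ) =
            ((l : ℝ) : ℂ) * ⟨(κ : ℝ) / 2, S⟩ + ((a ^ 2 / (b * c) * l : ℝ) : ℂ) := by
          apply Complex.ext
          · rw [Complex.add_re, Complex.re_ofReal_mul, Complex.ofReal_re]
          · rw [Complex.add_im, Complex.im_ofReal_mul, Complex.ofReal_im, add_zero]
        rw [this, hC, hD]; push_cast; ring
      · change D = A + e * (⟨l * (κ / 2), l * S⟩ : ℂ)
        have : (⟨l * (κ / 2), l * S⟩ : ℂ) = ((l : ℝ) : ℂ) * ⟨(κ : ℝ) / 2, S⟩ := by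
          apply Complex.ext <;> simp
        rw [this, hD]; ring
  · intro x l hx hl A
    have hx' : (0 : ℝ) < x := by exact_mod_cast hx
    have hl' : (0 : ℝ) < l := by exact_mod_cast hl
    refine good_par hℓ A _ _ ?_ (x / c) (l / b) (div_pos hx hc) (div_pos hl hb) 1 ?_ ?_ ?_
    · have := cr_e e he ((κ : ℝ) / 2) S
      unfold cr at this ⊢
      rw [Complex.re_ofReal_mul, Complex.im_ofReal_mul, Complex.re_ofReal_mul,
        Complex.im_ofReal_mul]
      have h2 : 0 < (x : ℝ) * l * S := by positivity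
      have h3 : (x : ℝ) * e.re * ((l : ℝ) * (e * (⟨(κ : ℝ) / 2, S⟩ : ℂ)).im) -
          (x : ℝ) * e.im * ((l : ℝ) * (e * (⟨(κ : ℝ) / 2, S⟩ : ℂ)).re) = (x : ℝ) * l * S := by
        linear_combination ((x : ℝ) * l) * this
      rw [h3]; exact h2
    · change ‖((x : ℝ) : ℂ) * e‖ = ((x / c : ℚ) : ℝ) * c
      rw [norm_mul, he, Complex.norm_real, Real.norm_eq_abs, abs_of_pos hx']
      push_cast
      field_simp
    · change ‖((l : ℝ) : ℂ) * (e * ⟨(κ : ℝ) / 2, S⟩)‖ = ((l / b : ℚ) : ℝ) * b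
      have h1 : ‖(⟨(κ : ℝ) / 2, S⟩ : ℂ)‖ = 1 := by
        have : ‖(⟨(κ : ℝ) / 2, S⟩ : ℂ)‖ ^ 2 = 1 ^ 2 := by
          rw [nsq]; simp only; linear_combination hS2
        exact (sq_eq_sq₀ (norm_nonneg _) zero_le_one).mp this
      rw [norm_mul, norm_mul, he, h1, Complex.norm_real, Real.norm_eq_abs, abs_of_pos hl']
      push_cast
      field_simp
    · have := re_e e he ((κ : ℝ) / 2) S
      rw [Complex.re_ofReal_mul, Complex.im_ofReal_mul, Complex.re_ofReal_mul,
        Complex.im_ofReal_mul]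
      change 2 * ((x : ℝ) * e.re * ((l : ℝ) * (e * (⟨(κ : ℝ) / 2, S⟩ : ℂ)).re) +
        (x : ℝ) * e.im * ((l : ℝ) * (e * (⟨(κ : ℝ) / 2, S⟩ : ℂ)).im)) =
        ((x / c : ℚ) : ℝ) * ((l / b : ℚ) : ℝ) * ((c : ℝ) ^ 2 + b ^ 2 - a ^ 2)
      push_cast
      field_simp
      linear_combination (2 * b * c : ℝ) * this + hκ'

end Pool.Agent.TH387
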