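import Mathlib
import Pool.Agent.Helper549.Tri.Defs
import Pool.Agent.TH387.Base
import Pool.Agent.TH387.Seg
import Pool.Agent.TH387.Til
import Pool.Agent.TH387.Good
import Pool.Agent.TH387.Trap
import Pool.Agent.TH387.Cev
import Pool.Agent.TH387.TrapA
set_option autoImplicit false
noncomputable section
open scoped BigOperators

namespace Pool.Agent.TH387
open Pool.Agent.Helper549.Tri

/-- trapezoids with base angle 60 degrees for a tile with a 120-degree angle -/
theorem good_trapF (a b c : ℚ) (ha : 0 < a) (hb : 0 < b) (hc : 0 < c)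
    (h : c ^ 2 = a ^ 2 + a * b + b ^ 2) (S : ℝ) (hS : 0 < S)
    (hS2 : S ^ 2 = 3 / 4) (e : ℂ) (he : ‖e‖ = 1) (q l : ℚ) (hq : 0 < q)
    (hl : 0 < l) (A : ℂ) :
    Good ![(a : ℝ), b, c] (trap A e (e * ⟨1 / 2, S⟩) ((1 : ℚ) : ℝ) q l) := by
  have ha' : (0 : ℝ) < a := by exact_mod_cast ha
  have hb' : (0 : ℝ) < b := by exact_mod_cast hb
  have hc' : (0 : ℝ) < c := by exact_mod_cast hc
  have hℓ : ∀ k, 0 < (![(a : ℝ), b, c] : Fin 3 → ℝ) k := by
    intro k; fin_cases k
    · exact ha'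
    · exact hb'
    · exact hc'
  have h' : (c : ℝ) ^ 2 = a ^ 2 + a * b + b ^ 2 := by exact_mod_cast h
  refine good_trap e _ 1 ((a ^ 2 + b ^ 2) / (a * b)) zero_le_one ?_ ?_ q l hq hl A
  · intro l hl A
    have hl' : (0 : ℝ) < l := by exact_mod_cast hl
    unfold trap
    set Q : ℝ := (((a ^ 2 + b ^ 2) / (a * b) * l : ℚ) : ℝ) with hQ
    have hQ' : Q = (a ^ 2 + b ^ 2) / (a * b) * l := by rw [hQ]; push_cast; ring
    set B : ℂ := A + ((Q + l * ((1 : ℚ) : ℝ) : ℝ) : ℂ) * e with hB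
    set D : ℂ := A + ((l : ℝ) : ℂ) * (e * ⟨1 / 2, S⟩) with hD
    set C : ℂ := D + ((Q : ℝ) : ℂ) * e with hC
    set F : ℂ := D + ((b / a * l : ℝ) : ℂ) * e with hF
    have hBx : Q + l * ((1 : ℚ) : ℝ) = c ^ 2 / (a * b) * l := by
      rw [hQ', h']
      push_cast
      field_simp
      ring
    have hQ2 : Q = b / a * l + a / b * l := by rw [hQ']; field_simp; ring
    have hsplit : quad A B C D = tri A B F + tri B C F + tri A F D := by
      have h1 := seg_add (p := C) (q := F) (x := D) (d := e) (-(a / b * l)) (-(b / a * l))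
        (by rw [hF, hC, hQ2]; push_cast; ring) (by rw [hF]; push_cast; ring)
      unfold quad tri
      rw [← h1, seg_symm B F, seg_symm A F]
      abel
    have zA : A = A + e * (⟨0, 0⟩ : ℂ) := by
      have : (⟨0, 0⟩ : ℂ) = 0 := rfl
      rw [this]; ring
    have zB : B = A + e * (⟨c ^ 2 / (a * b) * l, 0⟩ : ℂ) := by
      have : (⟨c ^ 2 / (a * b) * l, 0⟩ : ℂ) = ((c ^ 2 / (a * b) * l : ℝ) : ℂ) := rfl
      rw [this, hB, hBx]; ring
    have zD : D = A + e * (⟨l * (1 / 2), l * S⟩ : ℂ) := by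
      have : (⟨l * (1 / 2), l * S⟩ : ℂ) = ((l : ℝ) : ℂ) * ⟨1 / 2, S⟩ := by
        apply Complex.ext <;> simp
      rw [this, hD]; ring
    have zC : C = A + e * (⟨l * (1 / 2) + Q, l * S⟩ : ℂ) := by
      have : (⟨l * (1 / 2) + Q, l * S⟩ : ℂ) = ((l : ℝ) : ℂ) * ⟨1 / 2, S⟩ + ((Q : ℝ) : ℂ) := by
        apply Complex.ext
        · rw [Complex.add_re, Complex.re_ofReal_mul, Complex.ofReal_re]
        · rw [Complex.add_im, Complex.im_ofReal_mul, Complex.ofReal_im, add_zero]
      rw [this, hC, hD]; ring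
    have zF : F = A + e * (⟨l * (1 / 2) + b / a * l, l * S⟩ : ℂ) := by
      have : (⟨l * (1 / 2) + b / a * l, l * S⟩ : ℂ) =
          ((l : ℝ) : ℂ) * ⟨1 / 2, S⟩ + ((b / a * l : ℝ) : ℂ) := by
        apply Complex.ext
        · rw [Complex.add_re, Complex.re_ofReal_mul, Complex.ofReal_re]
        · rw [Complex.add_im, Complex.im_ofReal_mul, Complex.ofReal_im, add_zero]
      rw [this, hF, hD]; ring
    rw [hsplit]
    refine Good.add (Good.add ?_ ?_) ?_
    · have := good_pl hℓ A e he ![⟨0, 0⟩, ⟨c ^ 2 / (a * b) * l, 0⟩,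
          ⟨l * (1 / 2) + b / a * l, l * S⟩] (by
        change 0 < cr (⟨c ^ 2 / (a * b) * l, 0⟩ - ⟨0, 0⟩)
          ((⟨l * (1 / 2) + b / a * l, l * S⟩ : ℂ) - ⟨0, 0⟩)
        unfold cr
        simp only [Complex.sub_re, Complex.sub_im]
        have : 0 < (c : ℝ) ^ 2 / (a * b) * l * (l * S) := by positivity
        linarith) (l * c / (a * b)) (by positivity) 1 (by
        intro k
        fin_cases k
        · change (l * (1 / 2) + b / a * l - c ^ 2 / (a * b) * l) ^ 2 + (l * S - 0) ^ 2 =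
            (((l * c / (a * b) : ℚ) : ℝ) * a) ^ 2
          push_cast
          linear_combination (norm := (rw [show ((l : ℝ) * c / (a * b) * a) ^ 2 =
            l ^ 2 * (c : ℝ) ^ 2 / b ^ 2 by field_simp, h']; field_simp; ring)) (l : ℝ) ^ 2 * hS2
        · change (0 - (l * (1 / 2) + b / a * l)) ^ 2 + (0 - l * S) ^ 2 =
            (((l * c / (a * b) : ℚ) : ℝ) * b) ^ 2
          push_cast
          linear_combination (norm := (rw [show ((l : ℝ) * c / (a * b) * b) ^ 2 =
            l ^ 2 * (c : ℝ) ^ 2 / a ^ 2 by field_simp, h']; field_simp; ring)) (l : ℝ) ^ 2 * hS2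
        · change ((c : ℝ) ^ 2 / (a * b) * l - 0) ^ 2 + (0 - 0) ^ 2 =
            (((l * c / (a * b) : ℚ) : ℝ) * c) ^ 2
          push_cast
          field_simp
          ring)
      rw [zB, zF]
      nth_rewrite 1 [zA]
      exact this
    · have := good_pl hℓ A e he ![⟨c ^ 2 / (a * b) * l, 0⟩, ⟨l * (1 / 2) + Q, l * S⟩,
          ⟨l * (1 / 2) + b / a * l, l * S⟩] (by
        change 0 < cr ((⟨l * (1 / 2) + Q, l * S⟩ : ℂ) - ⟨c ^ 2 / (a * b) * l, 0⟩)
          ((⟨l * (1 / 2) + b / a * l, l * S⟩ : ℂ) - ⟨c ^ 2 / (a * b) * l, 0⟩)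
        unfold cr
        simp only [Complex.sub_re, Complex.sub_im]
        rw [hQ2]
        have : 0 < (a : ℝ) / b * l * (l * S) := by positivity
        linarith) (l / b) (div_pos hl hb) (Equiv.subLeft 0) (by
        intro k
        fin_cases k
        · change (l * (1 / 2) + b / a * l - (l * (1 / 2) + Q)) ^ 2 + (l * S - l * S) ^ 2 =
            (((l / b : ℚ) : ℝ) * a) ^ 2
          rw [hQ2]
          push_cast
          field_simp
          ring
        · change (c ^ 2 / (a * b) * l - (l * (1 / 2) + b / a * l)) ^ 2 + (0 - l * S) ^ 2 =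
            (((l / b : ℚ) : ℝ) * c) ^ 2
          push_cast
          linear_combination (norm := (rw [show ((l : ℝ) / b * c) ^ 2 =
            l ^ 2 * (c : ℝ) ^ 2 / b ^ 2 by field_simp, h']; field_simp; ring)) (l : ℝ) ^ 2 * hS2
        · change (l * (1 / 2) + Q - c ^ 2 / (a * b) * l) ^ 2 + (l * S - 0) ^ 2 =
            (((l / b : ℚ) : ℝ) * b) ^ 2
          rw [hQ2]
          push_cast
          linear_combination (norm := (rw [h']; field_simp; ring)) (l : ℝ) ^ 2 * hS2)
      rw [zB, zF, zC]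
      exact this
    · have := good_pl hℓ A e he ![⟨0, 0⟩, ⟨l * (1 / 2) + b / a * l, l * S⟩,
          ⟨l * (1 / 2), l * S⟩] (by
        change 0 < cr ((⟨l * (1 / 2) + b / a * l, l * S⟩ : ℂ) - ⟨0, 0⟩)
          ((⟨l * (1 / 2), l * S⟩ : ℂ) - ⟨0, 0⟩)
        unfold cr
        simp only [Complex.sub_re, Complex.sub_im]
        have : 0 < (b : ℝ) / a * l * (l * S) := by positivity
        linarith) (l / a) (div_pos hl ha) (Equiv.subLeft 1) (by
        intro k
        fin_cases k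
        · change (l * (1 / 2) - (l * (1 / 2) + b / a * l)) ^ 2 + (l * S - l * S) ^ 2 =
            (((l / a : ℚ) : ℝ) * b) ^ 2
          push_cast
          field_simp
          ring
        · change (0 - l * (1 / 2)) ^ 2 + (0 - l * S) ^ 2 = (((l / a : ℚ) : ℝ) * a) ^ 2
          push_cast
          linear_combination (norm := (field_simp; ring)) (l : ℝ) ^ 2 * hS2
        · change (l * (1 / 2) + b / a * l - 0) ^ 2 + (l * S - 0) ^ 2 =
            (((l / a : ℚ) : ℝ) * c) ^ 2
          push_cast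
          linear_combination (norm := (rw [show ((l : ℝ) / a * c) ^ 2 =
            l ^ 2 * (c : ℝ) ^ 2 / a ^ 2 by field_simp, h']; field_simp; ring)) (l : ℝ) ^ 2 * hS2)
      rw [zD, zF]
      nth_rewrite 1 [zA]
      exact this
  · intro x l hx hl A
    have hx' : (0 : ℝ) < x := by exact_mod_cast hx
    have hl' : (0 : ℝ) < l := by exact_mod_cast hl
    rw [quad_rot]
    have := good_par hℓ (A + ((x : ℝ) : ℂ) * e) (((l : ℝ) : ℂ) * (e * ⟨1 / 2, S⟩))
      (-(((x : ℝ) : ℂ) * e)) ?_ (l / a) (x / b) (div_pos hl ha) (div_pos hx hb)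
      (Equiv.subLeft 2) ?_ ?_ ?_
    · convert this using 2
      · ring
      · ring
    · have := cr_e e he (1 / 2) S
      unfold cr at this ⊢
      rw [Complex.neg_re, Complex.neg_im, Complex.re_ofReal_mul, Complex.im_ofReal_mul,
        Complex.re_ofReal_mul, Complex.im_ofReal_mul]
      have h2 : 0 < (x : ℝ) * l * S := by positivity
      have h3 : (l : ℝ) * (e * (⟨1 / 2, S⟩ : ℂ)).re * -((x : ℝ) * e.im) -
          (l : ℝ) * (e * (⟨1 / 2, S⟩ : ℂ)).im * -((x : ℝ) * e.re) = (x : ℝ) * l * S := by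
        linear_combination ((x : ℝ) * l) * this
      rw [h3]; exact h2
    · change ‖((l : ℝ) : ℂ) * (e * ⟨1 / 2, S⟩)‖ = ((l / a : ℚ) : ℝ) * a
      have h1 : ‖(⟨1 / 2, S⟩ : ℂ)‖ = 1 := by
        have : ‖(⟨1 / 2, S⟩ : ℂ)‖ ^ 2 = 1 ^ 2 := by
          rw [nsq]; simp only; linear_combination hS2
        exact (sq_eq_sq₀ (norm_nonneg _) zero_le_one).mp this
      rw [norm_mul, norm_mul, he, h1, Complex.norm_real, Real.norm_eq_abs, abs_of_pos hl']
      push_cast
      field_simp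
    · change ‖-(((x : ℝ) : ℂ) * e)‖ = ((x / b : ℚ) : ℝ) * b
      rw [norm_neg, norm_mul, he, Complex.norm_real, Real.norm_eq_abs, abs_of_pos hx']
      push_cast
      field_simp
    · have := re_e e he (1 / 2) S
      rw [Complex.neg_re, Complex.neg_im, Complex.re_ofReal_mul, Complex.im_ofReal_mul,
        Complex.re_ofReal_mul, Complex.im_ofReal_mul]
      change 2 * ((l : ℝ) * (e * (⟨1 / 2, S⟩ : ℂ)).re * -((x : ℝ) * e.re) +
        (l : ℝ) * (e * (⟨1 / 2, S⟩ : ℂ)).im * -((x : ℝ) * e.im)) =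
        ((l / a : ℚ) : ℝ) * ((x / b : ℚ) : ℝ) * ((a : ℝ) ^ 2 + b ^ 2 - c ^ 2)
      push_cast
      rw [h']
      field_simp
      linear_combination (-2 * a * b : ℝ) * this

end Pool.Agent.TH387
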