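import Mathlib
import Pool.Agent.Helper549.Tri.Defs
import Pool.Agent.TH387.Base
import Pool.Agent.TH387.Seg
import Pool.Agent.TH387.Til
import Pool.Agent.TH387.Good
import Pool.Agent.TH387.Trap
import Pool.Agent.TH387.Cev
import Pool.Agent.TH387.TrapA
import Pool.Agent.TH387.TrapF
set_option autoImplicit false
noncomputable section
open scoped BigOperators

namespace Pool.Agent.TH387
open Pool.Agent.Helper549.Tri

/-- equilateral triangles from a tile with a 120-degree angle -/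
theorem goodS_equi (a b c : ℚ) (ha : 0 < a) (hb : 0 < b) (hc : 0 < c)
    (h : c ^ 2 = a ^ 2 + a * b + b ^ 2) (x : ℚ) (hx : 0 < x) :
    GoodS ![(a : ℝ), b, c] x x x := by
  have hx' : (0 : ℝ) < x := by exact_mod_cast hx
  have main : ∀ v : Fin 3 → ℂ, 0 < dd v → len v 0 = x → len v 1 = x → len v 2 = x →
      Good ![(a : ℝ), b, c] (bdc v) := by
    intro v hv l0 l1 l2
    set S : ℝ := Real.sqrt (3 / 4) with hSdef
    have hS2 : S ^ 2 = 3 / 4 := Real.sq_sqrt (by norm_num)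
    have hS : 0 < S := Real.sqrt_pos.mpr (by norm_num)
    set l : ℚ := x / 3 with hl
    have hlp : 0 < l := by positivity
    have hlx : (x : ℝ) = 3 * l := by rw [hl]; push_cast; ring
    set z : Fin 3 → ℂ := ![⟨0, 0⟩, ⟨x, 0⟩, ⟨x * (1 / 2), x * S⟩] with hz
    have hzd : 0 < dd z := by
      change 0 < cr ((⟨x, 0⟩ : ℂ) - ⟨0, 0⟩) ((⟨x * (1 / 2), x * S⟩ : ℂ) - ⟨0, 0⟩)
      unfold cr
      simp only [Complex.sub_re, Complex.sub_im]
      have : 0 < (x : ℝ) * (x * S) := by positivity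
      linarith
    have n0 : ‖z 2 - z 1‖ = x := by
      have : ‖z 2 - z 1‖ ^ 2 = (x : ℝ) ^ 2 := by
        rw [nsq, Complex.sub_re, Complex.sub_im]
        change ((x : ℝ) * (1 / 2) - x) ^ 2 + (x * S - 0) ^ 2 = _
        linear_combination (x : ℝ) ^ 2 * hS2
      exact (sq_eq_sq₀ (norm_nonneg _) hx'.le).mp this
    have n1 : ‖z 0 - z 2‖ = x := by
      have : ‖z 0 - z 2‖ ^ 2 = (x : ℝ) ^ 2 := by
        rw [nsq, Complex.sub_re, Complex.sub_im]
        change (0 - (x : ℝ) * (1 / 2)) ^ 2 + (0 - x * S) ^ 2 = _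
        linear_combination (x : ℝ) ^ 2 * hS2
      exact (sq_eq_sq₀ (norm_nonneg _) hx'.le).mp this
    have n2 : ‖z 1 - z 0‖ = x := by
      have : ‖z 1 - z 0‖ ^ 2 = (x : ℝ) ^ 2 := by
        rw [nsq, Complex.sub_re, Complex.sub_im]
        change ((x : ℝ) - 0) ^ 2 + (0 - 0 : ℝ) ^ 2 = _
        ring
      exact (sq_eq_sq₀ (norm_nonneg _) hx'.le).mp this
    obtain ⟨A, e, he, hve⟩ := sss v z hv hzd (by
      intro k
      fin_cases k
      · change len v 0 = ‖z 2 - z 1‖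
        rw [l0, n0]
      · change len v 1 = ‖z 0 - z 2‖
        rw [l1, n1]
      · change len v 2 = ‖z 1 - z 0‖
        rw [l2, n2])
    set f : ℂ := e * ⟨1 / 2, S⟩ with hf
    set w : ℂ := ⟨1 / 2, S⟩ with hw
    have hww : w * w = w - 1 := by
      rw [hw]
      apply Complex.ext
      · simp only [Complex.mul_re, Complex.sub_re, Complex.one_re]
        linear_combination -hS2
      · simp only [Complex.mul_im, Complex.sub_im, Complex.one_im]
        ring
    have hnw : ‖w‖ = 1 := by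
      have : ‖w‖ ^ 2 = 1 ^ 2 := by
        rw [nsq, hw]; simp only; linear_combination hS2
      exact (sq_eq_sq₀ (norm_nonneg _) zero_le_one).mp this
    have v0 : v 0 = A := by
      rw [hve]
      change A + e * (⟨0, 0⟩ : ℂ) = A
      have : (⟨0, 0⟩ : ℂ) = 0 := rfl
      rw [this]; ring
    have v1 : v 1 = A + ((3 * l : ℝ) : ℂ) * e := by
      rw [hve]
      change A + e * (⟨x, 0⟩ : ℂ) = _
      have : (⟨x, 0⟩ : ℂ) = ((x : ℝ) : ℂ) := rfl
      rw [this, hlx]; ring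
    have v2 : v 2 = A + ((3 * l : ℝ) : ℂ) * f := by
      rw [hve]
      change A + e * (⟨x * (1 / 2), x * S⟩ : ℂ) = _
      have : (⟨x * (1 / 2), x * S⟩ : ℂ) = ((x : ℝ) : ℂ) * w := by
        rw [hw]
        apply Complex.ext
        · rw [Complex.re_ofReal_mul]
        · rw [Complex.im_ofReal_mul]
      rw [this, hlx, hf]; ring
    -- the three trapezoids
    have t0 := good_trapF a b c ha hb hc h S hS hS2 e he l l hlp hlp A
    have t1 := good_trapF a b c ha hb hc h S hS hS2 (e * (w * w))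
      (by rw [norm_mul, norm_mul, he, hnw]; norm_num) l l hlp hlp (v 1)
    have t2 := good_trapF a b c ha hb hc h S hS hS2 (e * (w * w * (w * w)))
      (by rw [norm_mul, norm_mul, norm_mul, he, hnw]; norm_num) l l hlp hlp (v 2)
    rw [← hw] at t0 t1 t2
    have hwww : w * w * w = -1 := by rw [hww, sub_mul, one_mul, hww]; ring
    have h1 : e * (w * w) = f - e := by rw [hww, hf]; ring
    have h2 : e * (w * w) * w = -e := by
      rw [mul_assoc, hwww]; ring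
    have h3 : e * (w * w * (w * w)) = -f := by
      have : w * w * (w * w) = -w := by
        rw [← mul_assoc, hwww]; ring
      rw [this, hf]; ring
    have h4 : e * (w * w * (w * w)) * w = e - f := by
      have : w * w * (w * w) * w = 1 - w := by
        have : w * w * (w * w) * w = (w * w * w) * (w * w) := by ring
        rw [this, hwww, hww]; ring
      rw [mul_assoc, this, hf]; ring
    rw [h2, h1] at t1
    rw [h4, h3] at t2
    rw [← hf] at t0
    convert (t0.add t1).add t2 using 1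
    rw [bdc_eq]
    unfold trap quad tri
    set P0 : ℂ := v 0 with hP0
    set P1 : ℂ := v 1 with hP1
    set P2 : ℂ := v 2 with hP2
    set O : ℂ := A + ((l : ℝ) : ℂ) * f + ((l : ℝ) : ℂ) * e with hO
    set B0 : ℂ := A + (((l : ℝ) + l * ((1 : ℚ) : ℝ) : ℝ) : ℂ) * e with hB0
    set B1 : ℂ := P1 + (((l : ℝ) + l * ((1 : ℚ) : ℝ) : ℝ) : ℂ) * (f - e) with hB1
    set B2 : ℂ := P2 + (((l : ℝ) + l * ((1 : ℚ) : ℝ) : ℝ) : ℂ) * (-f) with hB2
    have o1 : P1 + ((l : ℝ) : ℂ) * (-e) + ((l : ℝ) : ℂ) * (f - e) = O := by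
      rw [hO, v1]; push_cast; ring
    have o2 : P2 + ((l : ℝ) : ℂ) * (e - f) + ((l : ℝ) : ℂ) * (-f) = O := by
      rw [hO, v2]; push_cast; ring
    have d0 : A + ((l : ℝ) : ℂ) * f = B2 := by rw [hB2, v2]; push_cast; ring
    have d1 : P1 + ((l : ℝ) : ℂ) * (-e) = B0 := by rw [hB0, v1]; push_cast; ring
    have d2 : P2 + ((l : ℝ) : ℂ) * (e - f) = B1 := by rw [hB1, v2, v1]; push_cast; ring
    rw [o1, o2, d0, d1, d2, ← v0]
    have s0 := seg_add (p := P0) (q := B0) (x := P1) (d := e) ((l : ℝ) + l * ((1 : ℚ) : ℝ)) l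
      (by rw [hB0, v0]; ring) (by rw [hB0, v1]; push_cast; ring)
    have s1 := seg_add (p := P1) (q := B1) (x := P2) (d := f - e) ((l : ℝ) + l * ((1 : ℚ) : ℝ)) l
      (by rw [hB1]; ring) (by rw [hB1, v1, v2]; push_cast; ring)
    have s2 := seg_add (p := P2) (q := B2) (x := P0) (d := -f) ((l : ℝ) + l * ((1 : ℚ) : ℝ)) l
      (by rw [hB2]; ring) (by rw [hB2, v0, v2]; push_cast; ring)
    rw [← s0, ← s1, ← s2, seg_symm B0 O, seg_symm B1 O, seg_symm B2 O]
    abel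
  exact goodS_of_ordered main main

/-- isosceles triangle with apex angle the small angle of the tile `(s, 1 - s², 1)` -/
theorem goodS_iso (s : ℚ) (hs : 0 < s) (hs1 : s < 1) (L : ℚ) (hL : 0 < L) :
    GoodS ![(s : ℝ), ((1 - s ^ 2 : ℚ) : ℝ), ((1 : ℚ) : ℝ)] ((L * s : ℚ) : ℝ) L L := by
  have hL' : (0 : ℝ) < L := by exact_mod_cast hL
  have hs' : (0 : ℝ) < s := by exact_mod_cast hs
  have hs1' : (s : ℝ) < 1 := by exact_mod_cast hs1
  have hb : 0 < 1 - s ^ 2 := by nlinarith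
  have hb' : (0 : ℝ) < 1 - (s : ℝ) ^ 2 := by nlinarith
  have main : ∀ v : Fin 3 → ℂ, 0 < dd v → len v 0 = ((L * s : ℚ) : ℝ) → len v 1 = L →
      len v 2 = L → Good ![(s : ℝ), ((1 - s ^ 2 : ℚ) : ℝ), ((1 : ℚ) : ℝ)] (bdc v) := by
    intro v hv l0 l1 l2
    set κ : ℚ := 2 - s ^ 2 with hκ
    have hκr : (κ : ℝ) = 2 - (s : ℝ) ^ 2 := by rw [hκ]; push_cast; ring
    have hpos : (0 : ℝ) < 1 - ((κ : ℝ) / 2) ^ 2 := by rw [hκr]; nlinarith
    set S : ℝ := Real.sqrt (1 - ((κ : ℝ) / 2) ^ 2) with hSdef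
    have hS2 : S ^ 2 = 1 - ((κ : ℝ) / 2) ^ 2 := Real.sq_sqrt hpos.le
    have hS : 0 < S := Real.sqrt_pos.mpr hpos
    set z : Fin 3 → ℂ := ![⟨0, 0⟩, ⟨L, 0⟩, ⟨L * (κ / 2), L * S⟩] with hz
    have hzd : 0 < dd z := by
      change 0 < cr ((⟨L, 0⟩ : ℂ) - ⟨0, 0⟩) ((⟨L * (κ / 2), L * S⟩ : ℂ) - ⟨0, 0⟩)
      unfold cr
      simp only [Complex.sub_re, Complex.sub_im]
      have : 0 < (L : ℝ) * (L * S) := by positivity
      linarith
    have n0 : ‖z 2 - z 1‖ = ((L * s : ℚ) : ℝ) := by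
      have : ‖z 2 - z 1‖ ^ 2 = (((L * s : ℚ) : ℝ)) ^ 2 := by
        rw [nsq, Complex.sub_re, Complex.sub_im]
        change ((L : ℝ) * (κ / 2) - L) ^ 2 + (L * S - 0) ^ 2 = _
        push_cast
        linear_combination (norm := (rw [hκr]; ring)) (L : ℝ) ^ 2 * hS2
      exact (sq_eq_sq₀ (norm_nonneg _) (by push_cast; positivity)).mp this
    have n1 : ‖z 0 - z 2‖ = L := by
      have : ‖z 0 - z 2‖ ^ 2 = (L : ℝ) ^ 2 := by
        rw [nsq, Complex.sub_re, Complex.sub_im]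
        change (0 - (L : ℝ) * (κ / 2)) ^ 2 + (0 - L * S) ^ 2 = _
        linear_combination (L : ℝ) ^ 2 * hS2
      exact (sq_eq_sq₀ (norm_nonneg _) hL'.le).mp this
    have n2 : ‖z 1 - z 0‖ = L := by
      have : ‖z 1 - z 0‖ ^ 2 = (L : ℝ) ^ 2 := by
        rw [nsq, Complex.sub_re, Complex.sub_im]
        change ((L : ℝ) - 0) ^ 2 + (0 - 0 : ℝ) ^ 2 = _
        ring
      exact (sq_eq_sq₀ (norm_nonneg _) hL'.le).mp this
    obtain ⟨A, e, he, hve⟩ := sss v z hv hzd (by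
      intro k
      fin_cases k
      · change len v 0 = ‖z 2 - z 1‖
        rw [l0, n0]
      · change len v 1 = ‖z 0 - z 2‖
        rw [l1, n1]
      · change len v 2 = ‖z 1 - z 0‖
        rw [l2, n2])
    have hℓ : ∀ k, 0 < (![(s : ℝ), ((1 - s ^ 2 : ℚ) : ℝ), ((1 : ℚ) : ℝ)] : Fin 3 → ℝ) k := by
      intro k; fin_cases k
      · exact hs'
      · change (0 : ℝ) < ((1 - s ^ 2 : ℚ) : ℝ)
        push_cast; exact hb'
      · change (0 : ℝ) < ((1 : ℚ) : ℝ)
        norm_num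
    set w : ℂ := ⟨(κ : ℝ) / 2, S⟩ with hw
    set f : ℂ := e * w with hf
    set q : ℚ := L * (1 - s ^ 2) ^ 2 with hq
    set l : ℚ := L * s ^ 2 with hl
    have hqr : (q : ℝ) = L * (1 - (s : ℝ) ^ 2) ^ 2 := by rw [hq]; push_cast; ring
    have hlr : (l : ℝ) = L * (s : ℝ) ^ 2 := by rw [hl]; push_cast; ring
    have t0 := good_trapA s (1 - s ^ 2) 1 hs hb one_pos κ (by rw [hκ]; ring)
      (by rw [hκ]; nlinarith) S hS hS2 e he q l (by positivity) (by positivity) A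
    -- points
    have vA : v 0 = A := by
      rw [hve]
      change A + e * (⟨0, 0⟩ : ℂ) = A
      have : (⟨0, 0⟩ : ℂ) = 0 := rfl
      rw [this]; ring
    have vC : v 1 = A + e * (⟨L, 0⟩ : ℂ) := by rw [hve]; rfl
    have vD : v 2 = A + e * (⟨L * (κ / 2), L * S⟩ : ℂ) := by rw [hve]; rfl
    have vD' : v 2 = A + ((L : ℝ) : ℂ) * f := by
      rw [vD, hf]
      have : (⟨L * (κ / 2), L * S⟩ : ℂ) = ((L : ℝ) : ℂ) * w := by
        rw [hw]
        apply Complex.ext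
        · rw [Complex.re_ofReal_mul]
        · rw [Complex.im_ofReal_mul]
      rw [this]; ring
    have vC' : v 1 = A + ((L : ℝ) : ℂ) * e := by
      rw [vC]
      have : (⟨L, 0⟩ : ℂ) = ((L : ℝ) : ℂ) := rfl
      rw [this]; ring
    set X : ℂ := A + ((l : ℝ) : ℂ) * f with hX
    set W : ℂ := X + ((q : ℝ) : ℂ) * e with hW
    have zX : X = A + e * (⟨l * (κ / 2), l * S⟩ : ℂ) := by
      rw [hX, hf]
      have : (⟨l * (κ / 2), l * S⟩ : ℂ) = ((l : ℝ) : ℂ) * w := by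
        rw [hw]
        apply Complex.ext
        · rw [Complex.re_ofReal_mul]
        · rw [Complex.im_ofReal_mul]
      rw [this]; ring
    have zW : W = A + e * (⟨l * (κ / 2) + q, l * S⟩ : ℂ) := by
      rw [hW, hX, hf]
      have : (⟨l * (κ / 2) + q, l * S⟩ : ℂ) = ((l : ℝ) : ℂ) * w + ((q : ℝ) : ℂ) := by
        rw [hw]
        apply Complex.ext
        · rw [Complex.add_re, Complex.re_ofReal_mul, Complex.ofReal_re]
        · rw [Complex.add_im, Complex.im_ofReal_mul, Complex.ofReal_im, add_zero]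
      rw [this]; ring
    have hbase : A + ((((q : ℝ) + l * κ) : ℝ) : ℂ) * e = v 1 := by
      rw [vC', hqr, hlr, hκr]
      congr 3
      ring
    have t0' : trap A e f κ q l = quad (v 0) (v 1) W X := by
      unfold trap
      rw [hbase, vA]
    have t1 := good_pl hℓ A e he ![⟨L, 0⟩, ⟨L * (κ / 2), L * S⟩, ⟨l * (κ / 2) + q, l * S⟩] (by
      change 0 < cr ((⟨L * (κ / 2), L * S⟩ : ℂ) - ⟨L, 0⟩)
        ((⟨l * (κ / 2) + q, l * S⟩ : ℂ) - ⟨L, 0⟩)
      unfold cr
      simp only [Complex.sub_re, Complex.sub_im]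
      rw [hqr, hlr]
      have : 0 < (L : ℝ) ^ 2 * S * (s : ℝ) ^ 2 * (1 - (s : ℝ) ^ 2) := by positivity
      linarith) (L * s) (by positivity) (Equiv.subLeft 1) (by
      intro k
      fin_cases k
      · change (l * (κ / 2) + q - L * (κ / 2)) ^ 2 + (l * S - L * S) ^ 2 =
          (((L * s : ℚ) : ℝ) * ((1 - s ^ 2 : ℚ) : ℝ)) ^ 2
        rw [hqr, hlr]
        push_cast
        linear_combination (norm := (rw [hκr]; ring))
          (L : ℝ) ^ 2 * ((s : ℝ) ^ 2 - 1) ^ 2 * hS2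
      · change ((L : ℝ) - (l * (κ / 2) + q)) ^ 2 + (0 - l * S) ^ 2 =
          (((L * s : ℚ) : ℝ) * (s : ℝ)) ^ 2
        rw [hqr, hlr]
        push_cast
        linear_combination (norm := (rw [hκr]; ring)) (L : ℝ) ^ 2 * (s : ℝ) ^ 4 * hS2
      · change (L * ((κ : ℝ) / 2) - L) ^ 2 + (L * S - 0) ^ 2 =
          (((L * s : ℚ) : ℝ) * ((1 : ℚ) : ℝ)) ^ 2
        push_cast
        linear_combination (norm := (rw [hκr]; ring)) (L : ℝ) ^ 2 * hS2)
    have t2 := good_pl hℓ A e he ![⟨L * (κ / 2), L * S⟩, ⟨l * (κ / 2), l * S⟩,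
        ⟨l * (κ / 2) + q, l * S⟩] (by
      change 0 < cr ((⟨l * (κ / 2), l * S⟩ : ℂ) - ⟨L * (κ / 2), L * S⟩)
        ((⟨l * (κ / 2) + q, l * S⟩ : ℂ) - ⟨L * (κ / 2), L * S⟩)
      unfold cr
      simp only [Complex.sub_re, Complex.sub_im]
      rw [hqr, hlr]
      have : 0 < (L : ℝ) ^ 2 * S * (1 - (s : ℝ) ^ 2) ^ 3 := by positivity
      linarith) (L * (1 - s ^ 2)) (by positivity) (Equiv.subLeft 1) (by
      intro k
      fin_cases k
      · change (l * ((κ : ℝ) / 2) + q - l * (κ / 2)) ^ 2 + (l * S - l * S) ^ 2 =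
          (((L * (1 - s ^ 2) : ℚ) : ℝ) * ((1 - s ^ 2 : ℚ) : ℝ)) ^ 2
        rw [hqr, hlr]
        push_cast
        ring
      · change (L * ((κ : ℝ) / 2) - (l * (κ / 2) + q)) ^ 2 + (L * S - l * S) ^ 2 =
          (((L * (1 - s ^ 2) : ℚ) : ℝ) * (s : ℝ)) ^ 2
        rw [hqr, hlr]
        push_cast
        linear_combination (norm := (rw [hκr]; ring))
          (L : ℝ) ^ 2 * ((s : ℝ) ^ 2 - 1) ^ 2 * hS2
      · change (l * ((κ : ℝ) / 2) - L * (κ / 2)) ^ 2 + (l * S - L * S) ^ 2 =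
          (((L * (1 - s ^ 2) : ℚ) : ℝ) * ((1 : ℚ) : ℝ)) ^ 2
        rw [hlr]
        push_cast
        linear_combination (L : ℝ) ^ 2 * ((s : ℝ) ^ 2 - 1) ^ 2 * hS2)
    have t1' : Good ![(s : ℝ), ((1 - s ^ 2 : ℚ) : ℝ), ((1 : ℚ) : ℝ)] (tri (v 1) (v 2) W) := by
      rw [vC, vD, zW]; exact t1
    have t2' : Good ![(s : ℝ), ((1 - s ^ 2 : ℚ) : ℝ), ((1 : ℚ) : ℝ)] (tri (v 2) X W) := by
      rw [vD, zX, zW]; exact t2
    rw [t0'] at t0
    convert (t0.add t1').add t2' using 1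
    rw [bdc_eq]
    unfold quad tri
    have s1 := seg_add (p := v 2) (q := X) (x := v 0) (d := f) (l - L) (-l)
      (by rw [hX, vD']; push_cast; ring) (by rw [hX, vA]; push_cast; ring)
    rw [← s1, seg_symm (v 1) W, seg_symm (v 2) W, seg_symm X W]
    abel
  exact goodS_of_ordered main main

end Pool.Agent.TH387
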