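import Mathlib
import Pool.Agent.Helper549.Tri.Defs
import Pool.Agent.TH387.Base
import Pool.Agent.TH387.Seg
import Pool.Agent.TH387.Til
import Pool.Agent.TH387.Good
import Pool.Agent.TH387.Trap
import Pool.Agent.TH387.Cev
import Pool.Agent.TH387.Shapes1
set_option autoImplicit false
noncomputable section
open scoped BigOperators

namespace Pool.Agent.TH387
open Pool.Agent.Helper549.Tri

theorem GoodS.yzx {ℓ : Fin 3 → ℝ} {x y z : ℝ} (h : GoodS ℓ x y z) : GoodS ℓ y z x := h.rot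

theorem GoodS.zxy {ℓ : Fin 3 → ℝ} {x y z : ℝ} (h : GoodS ℓ x y z) : GoodS ℓ z x y := h.rot.rot

theorem GoodS.yxz {ℓ : Fin 3 → ℝ} {x y z : ℝ} (h : GoodS ℓ x y z) : GoodS ℓ y x z :=
  h.swap12.rot.rot

theorem GoodS.zyx {ℓ : Fin 3 → ℝ} {x y z : ℝ} (h : GoodS ℓ x y z) : GoodS ℓ z y x :=
  h.swap12.rot

theorem GoodS.xzy {ℓ : Fin 3 → ℝ} {x y z : ℝ} (h : GoodS ℓ x y z) : GoodS ℓ x z y := h.swap12

theorem GoodS.congr {ℓ : Fin 3 → ℝ} {x y z x' y' z' : ℝ} (h : GoodS ℓ x y z) (hx : x' = x)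
    (hy : y' = y) (hz : z' = z) : GoodS ℓ x' y' z' := by
  subst hx hy hz; exact h

section sfam
variable (s : ℚ) (hs : 0 < s) (hs1 : s < 1)
include hs hs1

theorem goodS_c : GoodS ![(s : ℝ), ((1 - s ^ 2 : ℚ) : ℝ), ((1 : ℚ) : ℝ)]
    ((s : ℝ) * (2 - (s : ℝ) ^ 2)) 1 (1 - (s : ℝ) ^ 2) := by
  have hb : 0 < 1 - s ^ 2 := by nlinarith
  have hs' : (0 : ℝ) < s := by exact_mod_cast hs
  have hb' : (0 : ℝ) < 1 - (s : ℝ) ^ 2 := by exact_mod_cast hb
  have h1 : GoodS ![(s : ℝ), ((1 - s ^ 2 : ℚ) : ℝ), ((1 : ℚ) : ℝ)] (s : ℝ) (1 - (s : ℝ) ^ 2) 1 :=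
    goodS_sim 1 one_pos (by change (s : ℝ) = ((1 : ℚ) : ℝ) * s; push_cast; ring)
      (by change (1 - (s : ℝ) ^ 2) = ((1 : ℚ) : ℝ) * ((1 - s ^ 2 : ℚ) : ℝ); push_cast; ring)
      (by change (1 : ℝ) = ((1 : ℚ) : ℝ) * ((1 : ℚ) : ℝ); push_cast; ring)
  have h2 := goodS_iso s hs hs1 (1 - s ^ 2) hb
  have h3 := goodS_cev (m := s) (n := (1 - (s : ℝ) ^ 2) * s) (b := 1 - (s : ℝ) ^ 2) (c := 1)
    (d := 1 - (s : ℝ) ^ 2) hs' (by positivity) hb'.le h1
    (h2.congr (by push_cast; ring) (by push_cast; ring) (by push_cast; ring)) (by ring)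
  exact h3.swap12.congr (by ring) rfl rfl

theorem goodS_d : GoodS ![(s : ℝ), ((1 - s ^ 2 : ℚ) : ℝ), ((1 : ℚ) : ℝ)]
    (2 - (s : ℝ) ^ 2) 1 ((1 - (s : ℝ) ^ 2) * (3 - (s : ℝ) ^ 2)) := by
  have hb : 0 < 1 - s ^ 2 := by nlinarith
  have hs' : (0 : ℝ) < s := by exact_mod_cast hs
  have hb' : (0 : ℝ) < 1 - (s : ℝ) ^ 2 := by exact_mod_cast hb
  have hc : 0 < 2 - s ^ 2 := by nlinarith
  have hc' : (0 : ℝ) < 2 - (s : ℝ) ^ 2 := by exact_mod_cast hc
  have h1 : GoodS ![(s : ℝ), ((1 - s ^ 2 : ℚ) : ℝ), ((1 : ℚ) : ℝ)]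
      ((2 - (s : ℝ) ^ 2) * s) ((2 - (s : ℝ) ^ 2) * (1 - (s : ℝ) ^ 2)) (2 - (s : ℝ) ^ 2) :=
    goodS_sim (2 - s ^ 2) hc
      (by change _ = ((2 - s ^ 2 : ℚ) : ℝ) * (s : ℝ); push_cast; ring)
      (by change _ = ((2 - s ^ 2 : ℚ) : ℝ) * ((1 - s ^ 2 : ℚ) : ℝ); push_cast; ring)
      (by change _ = ((2 - s ^ 2 : ℚ) : ℝ) * ((1 : ℚ) : ℝ); push_cast; ring)
  have h2 := goodS_c s hs hs1
  have h3 := goodS_cev (m := (2 - (s : ℝ) ^ 2) * (1 - (s : ℝ) ^ 2)) (n := 1 - (s : ℝ) ^ 2)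
    (b := 1) (c := 2 - (s : ℝ) ^ 2) (d := (2 - (s : ℝ) ^ 2) * s) (by positivity) hb'
    (by positivity) h1.yxz
    (h2.zyx.congr rfl rfl (by ring)) (by ring)
  exact h3.zyx.congr rfl rfl (by ring)

end sfam

theorem goodS_t (a b c : ℚ) (_ : 0 < a) (_ : 0 < b) (_ : 0 < c)
    (_ : c ^ 2 = a ^ 2 + a * b + b ^ 2) (r : ℚ) (hr : 0 < r) : GoodS ![(a : ℝ), b, c] (r * a) (r * b) (r * c) :=
  goodS_sim r hr rfl rfl rfl

section ufam
variable (a b c : ℚ) (ha : 0 < a) (hb : 0 < b) (hc : 0 < c) (h : c ^ 2 = a ^ 2 + a * b + b ^ 2)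
include ha hb hc h

theorem goodS_u3 (k : ℚ) (hk : 0 < k) :
    GoodS ![(a : ℝ), b, c] (k * (a + b)) (k * b) (k * c) := by
  have ha' : (0 : ℝ) < a := by exact_mod_cast ha
  have hb' : (0 : ℝ) < b := by exact_mod_cast hb
  have hk' : (0 : ℝ) < k := by exact_mod_cast hk
  have h' : (c : ℝ) ^ 2 = a ^ 2 + a * b + b ^ 2 := by exact_mod_cast h
  have h1 := goodS_t a b c ha hb hc h k hk
  have h2 := goodS_equi a b c ha hb hc h (k * b) (by positivity)
  have h3 := goodS_cev (m := (k : ℝ) * a) (n := (k : ℝ) * b) (b := (k : ℝ) * b)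
    (c := (k : ℝ) * c) (d := (k : ℝ) * b) (by positivity) (by positivity) (by positivity) h1
    (h2.congr (by push_cast; ring) (by push_cast; ring) (by push_cast; ring))
    (by linear_combination (-(k : ℝ) ^ 3 * b) * h')
  exact h3.congr (by ring) rfl rfl

theorem goodS_u3' (k : ℚ) (hk : 0 < k) :
    GoodS ![(a : ℝ), b, c] (k * (a + b)) (k * a) (k * c) := by
  have ha' : (0 : ℝ) < a := by exact_mod_cast ha
  have hb' : (0 : ℝ) < b := by exact_mod_cast hb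
  have hk' : (0 : ℝ) < k := by exact_mod_cast hk
  have h' : (c : ℝ) ^ 2 = a ^ 2 + a * b + b ^ 2 := by exact_mod_cast h
  have h1 := goodS_t a b c ha hb hc h k hk
  have h2 := goodS_equi a b c ha hb hc h (k * a) (by positivity)
  have h3 := goodS_cev (m := (k : ℝ) * b) (n := (k : ℝ) * a) (b := (k : ℝ) * a)
    (c := (k : ℝ) * c) (d := (k : ℝ) * a) (by positivity) (by positivity) (by positivity)
    h1.rot.swap12
    (h2.congr (by push_cast; ring) (by push_cast; ring) (by push_cast; ring))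
    (by linear_combination (-(k : ℝ) ^ 3 * a) * h')
  exact h3.congr (by ring) rfl rfl

theorem goodS_u2 (k : ℚ) (hk : 0 < k) :
    GoodS ![(a : ℝ), b, c] (k * ((a + b) * c)) (k * (a * c)) (k * (b * (2 * a + b))) := by
  have ha' : (0 : ℝ) < a := by exact_mod_cast ha
  have hb' : (0 : ℝ) < b := by exact_mod_cast hb
  have hc' : (0 : ℝ) < c := by exact_mod_cast hc
  have hk' : (0 : ℝ) < k := by exact_mod_cast hk
  have h' : (c : ℝ) ^ 2 = a ^ 2 + a * b + b ^ 2 := by exact_mod_cast h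
  have h1 := goodS_t a b c ha hb hc h (k * (a + b)) (by positivity)
  have h2 := goodS_u3 a b c ha hb hc h (k * a) (by positivity)
  have h3 := goodS_cev (m := ((k * (a + b) : ℚ) : ℝ) * b) (n := ((k * a : ℚ) : ℝ) * b)
    (b := ((k * a : ℚ) : ℝ) * c) (c := ((k * (a + b) : ℚ) : ℝ) * c)
    (d := ((k * (a + b) : ℚ) : ℝ) * a) (by push_cast; positivity) (by push_cast; positivity)
    (by push_cast; positivity) h1.yxz
    (h2.yzx.congr rfl rfl (by push_cast; ring))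
    (by
      push_cast
      linear_combination (-(k : ℝ) ^ 3 * a * b * (a + b) * (2 * a + b)) * h')
  exact h3.zyx.congr (by push_cast; ring) (by push_cast; ring) (by push_cast; ring)

theorem goodS_u4 (K : ℚ) (hK : 0 < K) :
    GoodS ![(a : ℝ), b, c] (K * (a * (a + 2 * b))) (K * (c : ℝ) ^ 2) (K * (b * (2 * a + b))) := by
  have ha' : (0 : ℝ) < a := by exact_mod_cast ha
  have hb' : (0 : ℝ) < b := by exact_mod_cast hb
  have hc' : (0 : ℝ) < c := by exact_mod_cast hc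
  have hK' : (0 : ℝ) < K := by exact_mod_cast hK
  have h' : (c : ℝ) ^ 2 = a ^ 2 + a * b + b ^ 2 := by exact_mod_cast h
  set k : ℚ := K * b * (2 * a + b) / (a + b) with hk
  have hkp : 0 < k := by positivity
  set k2 : ℚ := K * c / (a + b) with hk2
  have hk2p : 0 < k2 := by positivity
  have kr : (k : ℝ) = K * b * (2 * a + b) / (a + b) := by rw [hk]; push_cast; ring
  have k2r : (k2 : ℝ) = K * c / (a + b) := by rw [hk2]; push_cast; ring
  have h1 := goodS_u3' a b c ha hb hc h k hkp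
  have h2 := goodS_u2 a b c ha hb hc h k2 hk2p
  have h3 := goodS_cev (m := (k : ℝ) * a) (n := (k2 : ℝ) * (a * c))
    (b := (k2 : ℝ) * ((a + b) * c)) (c := (k : ℝ) * (a + b))
    (d := (k : ℝ) * c) (by positivity) (by positivity)
    (by positivity) h1.yzx
    (h2.yxz.congr rfl rfl (by rw [kr, k2r]; field_simp))
    (by
      rw [kr, k2r]
      field_simp
      ring)
  refine h3.congr ?_ ?_ ?_
  · rw [kr, k2r]
    field_simp
    linear_combination (-1 : ℝ) * h'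
  · rw [k2r]
    field_simp
  · rw [kr]
    field_simp

theorem goodS_u1 (K : ℚ) (hK : 0 < K) :
    GoodS ![(a : ℝ), b, c] (K * (3 * a * (a + b))) (K * (c : ℝ) ^ 2) (K * ((2 * a + b) * c)) := by
  have ha' : (0 : ℝ) < a := by exact_mod_cast ha
  have hb' : (0 : ℝ) < b := by exact_mod_cast hb
  have hc' : (0 : ℝ) < c := by exact_mod_cast hc
  have hK' : (0 : ℝ) < K := by exact_mod_cast hK
  have h' : (c : ℝ) ^ 2 = a ^ 2 + a * b + b ^ 2 := by exact_mod_cast h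
  have h1 := goodS_t a b c ha hb hc h (K * (2 * a + b)) (by positivity)
  have h2 := goodS_u4 a b c ha hb hc h K hK
  have h3 := goodS_cev (m := ((K * (2 * a + b) : ℚ) : ℝ) * a)
    (n := (K : ℝ) * (a * (a + 2 * b)))
    (b := (K : ℝ) * (c : ℝ) ^ 2) (c := ((K * (2 * a + b) : ℚ) : ℝ) * c)
    (d := ((K * (2 * a + b) : ℚ) : ℝ) * b) (by push_cast; positivity) (by positivity)
    (by push_cast; positivity) h1
    (h2.congr rfl rfl (by push_cast; ring))
    (by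
      push_cast
      linear_combination (-(K : ℝ) ^ 3 * a * (2 * a + b) * ((a + 2 * b) * (2 * a + b) +
        (a ^ 2 + a * b + b ^ 2) + (c : ℝ) ^ 2)) * h')
  exact h3.congr (by push_cast; ring) rfl (by push_cast; ring)

end ufam

/-- isosceles triangle from its half -/
theorem goodS_isosceles (m d c : ℝ) (hm : 0 < m) (hd : 0 < d) (h : c ^ 2 = m ^ 2 + d ^ 2) :
    GoodS ![m, d, c] (m + m) c c := by
  have h1 : GoodS ![m, d, c] m d c :=
    goodS_sim 1 one_pos (by change m = ((1 : ℚ) : ℝ) * m; push_cast; ring)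
      (by change d = ((1 : ℚ) : ℝ) * d; push_cast; ring)
      (by change c = ((1 : ℚ) : ℝ) * c; push_cast; ring)
  exact goodS_cev hm hm hd.le h1 h1.xzy (by linear_combination (-2 * m) * h)

/-- right triangle with legs `p, q` (natural numbers), scaled by the hypotenuse -/
theorem goodS_right (p q : ℕ) (hp : 0 < p) (hq : 0 < q) (c : ℝ)
    (h : c ^ 2 = (p : ℝ) ^ 2 + (q : ℝ) ^ 2) :
    GoodS ![(p : ℝ), q, c] ((p : ℝ) ^ 2 + (q : ℝ) ^ 2) (q * c) (p * c) := by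
  have hp' : (0 : ℝ) < p := by exact_mod_cast hp
  have hq' : (0 : ℝ) < q := by exact_mod_cast hq
  have h1 : GoodS ![(p : ℝ), q, c] (p * p) (p * q) (p * c) :=
    goodS_sim p (by exact_mod_cast hp) (by change _ = ((p : ℚ) : ℝ) * (p : ℝ); push_cast; ring)
      (by change _ = ((p : ℚ) : ℝ) * (q : ℝ); push_cast; ring)
      (by change _ = ((p : ℚ) : ℝ) * c; push_cast; ring)
  have h2 : GoodS ![(p : ℝ), q, c] (q * p) (q * q) (q * c) :=
    goodS_sim q (by exact_mod_cast hq) (by change _ = ((q : ℚ) : ℝ) * (p : ℝ); push_cast; ring)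
      (by change _ = ((q : ℚ) : ℝ) * (q : ℝ); push_cast; ring)
      (by change _ = ((q : ℚ) : ℝ) * c; push_cast; ring)
  have h3 := goodS_cev (m := (p : ℝ) * p) (n := (q : ℝ) * q) (b := (q : ℝ) * c)
    (c := (p : ℝ) * c) (d := (p : ℝ) * q) (by positivity) (by positivity) (by positivity) h1
    (h2.yzx.congr rfl rfl (by ring))
    (by linear_combination (-2 * (p : ℝ) ^ 2 * (q : ℝ) ^ 2) * h)
  exact h3.congr (by ring) rfl rfl

/-- the 30-60-90 triangle from three copies of itself -/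
theorem goodS_369 (r : ℝ) (hr : 0 < r) (h : r ^ 2 = 3) :
    GoodS ![1, r, 2] r 3 (2 * r) := by
  have h1 : GoodS ![1, r, 2] 1 r 2 :=
    goodS_sim 1 one_pos (by change (1 : ℝ) = ((1 : ℚ) : ℝ) * 1; push_cast; ring)
      (by change r = ((1 : ℚ) : ℝ) * r; push_cast; ring)
      (by change (2 : ℝ) = ((1 : ℚ) : ℝ) * 2; push_cast; ring)
  -- isosceles triangle with sides 2, 2, 2r
  have h2 : GoodS ![1, r, 2] (r + r) 2 2 :=
    goodS_cev (m := r) (n := r) (b := 2) (c := 2) (d := 1) hr hr zero_le_one h1.yxz h1.yzx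
      (by linear_combination (2 * r) * h)
  have h3 := goodS_cev (m := 1) (n := 2) (b := r + r) (c := r) (d := 2) one_pos two_pos
    two_pos.le h1.xzy h2.yxz (by linear_combination (-6 : ℝ) * h)
  exact h3.zxy.congr rfl (by norm_num) (by ring)

end Pool.Agent.TH387
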