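import Mathlib
import Pool.Agent.Helper549.Tri.SqDefs
import Pool.Agent.Helper549.Tri.Defs
import Pool.Agent.Helper549.Tri.Setup
import Pool.Agent.TH387.Base
import Pool.Agent.TH387.Cev
import Pool.Agent.TH387.Shapes2
import Pool.Agent.TH387.Exist
set_option autoImplicit false
noncomputable section
open scoped BigOperators

namespace Pool.Agent.TH387
open Pool.Agent.Helper549.Tri

theorem sqQ (N M : ℕ) (q : ℚ) (hM : 0 < M) (h : (N : ℝ) = (M : ℝ) ^ 2 * q) (hN : IsSquare N) :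
    IsSquare q := by
  obtain ⟨n, hn⟩ := hN
  refine ⟨(n : ℚ) / M, ?_⟩
  have hM' : (M : ℚ) ≠ 0 := by exact_mod_cast hM.ne'
  have h2 : (N : ℚ) = (M : ℚ) ^ 2 * q := by exact_mod_cast h
  rw [hn] at h2
  push_cast at h2
  field_simp
  linear_combination -h2

theorem sqN (N M k : ℕ) (hM : 0 < M) (h : (N : ℝ) = (M : ℝ) ^ 2 * k) (hN : IsSquare N) :
    IsSquare k := by
  have := sqQ N M k hM (by rw [h]; norm_cast) hN
  exact Rat.isSquare_natCast_iff.mp this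

theorem Hr3 (x y z : ℝ) : Hr ![x, y, z] = (x ^ 2 + y ^ 2 + z ^ 2) ^ 2 - 2 * (x ^ 4 + y ^ 4 + z ^ 4) := by
  unfold Hr
  rw [Fin.sum_univ_three, Fin.sum_univ_three]
  rfl

theorem Hr_side_pos (A : Fin 3 → EuclideanSpace ℝ (Fin 2)) (hA : AffineIndependent ℝ A) :
    0 < Hr (side A) := by
  obtain ⟨ρ, hρ⟩ := Setup.orient A hA
  have lenT : ∀ k, len (fun k => Setup.eC (A (ρ k))) k = side A (ρ k) := by
    intro k
    change ‖Setup.eC (A (ρ (k + 2))) - Setup.eC (A (ρ (k + 1)))‖ =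
      dist (A (ρ k + 1)) (A (ρ k + 2))
    rw [← dist_eq_norm, Setup.eC.dist_map]
    rcases Setup.perm3 ρ k with ⟨h1, h2⟩ | ⟨h1, h2⟩
    · rw [h1, h2, dist_comm]
    · rw [h1, h2]
  have h1 := dd_heron (fun k => Setup.eC (A (ρ k)))
  have h2 : len (fun k => Setup.eC (A (ρ k))) = fun k => side A (ρ k) := funext lenT
  rw [h2, Hr_perm] at h1
  rw [← h1]
  positivity

theorem side_pos (A : Fin 3 → EuclideanSpace ℝ (Fin 2)) (hA : AffineIndependent ℝ A) (k : Fin 3) :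
    0 < side A k := by
  unfold side
  rw [dist_pos]
  intro h
  have := hA.injective h
  have key : ∀ k : Fin 3, k + 1 ≠ k + 2 := by decide
  exact key k this

theorem Like.perm {S : Fin 3 → ℝ} {x y z : ℝ} (h : Like S x y z) : Like S y z x := by
  obtain ⟨σ, r, hr, h0, h1, h2⟩ := h
  refine ⟨(Equiv.addRight 1).trans σ, r, hr, ?_, ?_, ?_⟩
  · exact h1
  · exact h2
  · exact h0

theorem Like.swap {S : Fin 3 → ℝ} {x y z : ℝ} (h : Like S x y z) : Like S x z y := by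
  obtain ⟨σ, r, hr, h0, h1, h2⟩ := h
  refine ⟨(Equiv.subLeft 0).trans σ, r, hr, ?_, ?_, ?_⟩
  · exact h0
  · exact h2
  · exact h1

theorem Like.scale {S : Fin 3 → ℝ} {x y z : ℝ} (h : Like S x y z) (t : ℝ) (ht : 0 < t) :
    Like S (t * x) (t * y) (t * z) := by
  obtain ⟨σ, r, hr, h0, h1, h2⟩ := h
  refine ⟨σ, r / t, div_pos hr ht, ?_, ?_, ?_⟩
  · rw [h0]; field_simp
  · rw [h1]; field_simp
  · rw [h2]; field_simp

theorem not_sq_two (N M : ℕ) (hM : 0 < M) (h : (N : ℝ) = (M : ℝ) ^ 2 * 2) : ¬ IsSquare N := by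
  intro hN
  have h2 := sqN N M 2 hM (by rw [h]; norm_num) hN
  obtain ⟨r, hr⟩ := h2
  have : r < 2 := by nlinarith
  interval_cases r <;> omega

theorem not_sq_three (N M : ℕ) (hM : 0 < M) (h : (N : ℝ) = (M : ℝ) ^ 2 * 3) : ¬ IsSquare N := by
  intro hN
  have h2 := sqN N M 3 hM (by rw [h]; norm_num) hN
  obtain ⟨r, hr⟩ := h2
  have : r < 2 := by nlinarith
  interval_cases r <;> omega

theorem iso_case (hB : BackH) (A : Fin 3 → EuclideanSpace ℝ (Fin 2)) (hA : AffineIndependent ℝ A)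
    (i j : Fin 3) (hij : i ≠ j) (h : side A i = side A j) : ¬ SquareOnly A := by
  obtain ⟨k, hk⟩ : ∃ k : Fin 3, k ≠ i ∧ k ≠ j := by
    have key : ∀ i j : Fin 3, ∃ k : Fin 3, k ≠ i ∧ k ≠ j := by decide
    exact key i j
  have hpos := Hr_side_pos A hA
  have hsp := side_pos A hA
  obtain ⟨σ, hσ⟩ : ∃ σ : Equiv.Perm (Fin 3), σ 0 = k ∧ σ 1 = i ∧ σ 2 = j := by
    refine ⟨Equiv.ofBijective ![k, i, j] ?_, rfl, rfl, rfl⟩
    rw [Fintype.bijective_iff_injective_and_card]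
    refine ⟨?_, rfl⟩
    have key : ∀ i j k : Fin 3, i ≠ j → k ≠ i → k ≠ j → Function.Injective ![k, i, j] := by
      decide
    exact key i j k hij hk.1 hk.2
  set u := side A i with hu
  set t := side A k with ht
  have hH : Hr (side A) = (t ^ 2 + u ^ 2 + u ^ 2) ^ 2 - 2 * (t ^ 4 + u ^ 4 + u ^ 4) := by
    rw [← Hr_perm (side A) σ]
    unfold Hr
    simp only [Fin.sum_univ_three, hσ.1, hσ.2.1, hσ.2.2, ← ht, ← h, ← hu]
  rw [hH] at hpos
  have hupos : 0 < u := hsp i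
  have htpos : 0 < t := hsp k
  have h4 : 0 < 4 * u ^ 2 - t ^ 2 := by
    by_contra hcon
    push Not at hcon
    have : (t ^ 2 + u ^ 2 + u ^ 2) ^ 2 - 2 * (t ^ 4 + u ^ 4 + u ^ 4) =
      t ^ 2 * (4 * u ^ 2 - t ^ 2) := by ring
    rw [this] at hpos
    have h5 : 0 < t ^ 2 := by positivity
    have : t ^ 2 * (4 * u ^ 2 - t ^ 2) ≤ 0 := mul_nonpos_of_nonneg_of_nonpos h5.le hcon
    linarith
  set d := Real.sqrt (u ^ 2 - (t / 2) ^ 2) with hd
  have hdd : 0 < u ^ 2 - (t / 2) ^ 2 := by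
    have : u ^ 2 - (t / 2) ^ 2 = (4 * u ^ 2 - t ^ 2) / 4 := by ring
    rw [this]; positivity
  have hdpos : 0 < d := Real.sqrt_pos.mpr hdd
  have hd2 : d ^ 2 = u ^ 2 - (t / 2) ^ 2 := Real.sq_sqrt hdd.le
  have hd4 : d ^ 4 = (u ^ 2 - (t / 2) ^ 2) ^ 2 := by rw [← hd2]; ring
  have hG := goodS_isosceles (t / 2) d u (by positivity) hdpos (by rw [hd2]; ring)
  have hL : Like (side A) (t / 2 + t / 2) u u :=
    ⟨σ, 1, one_pos, by rw [hσ.1]; ring, by rw [hσ.2.1]; ring, by rw [hσ.2.2, ← h]; ring⟩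
  obtain ⟨N, M, hM, hN1, hcut, hNM⟩ := exist_core hB A hA _ _ _ hL _ hG 2 two_pos
    (by
      rw [Hr3, Hr3, hd4, hd2]
      ring)
    (by
      rw [Hr3, hd4, hd2]
      have : ((t / 2) ^ 2 + (u ^ 2 - (t / 2) ^ 2) + u ^ 2) ^ 2 -
        2 * ((t / 2) ^ 4 + (u ^ 2 - (t / 2) ^ 2) ^ 2 + u ^ 4) = t ^ 2 * (4 * u ^ 2 - t ^ 2) / 4 := by
        ring
      rw [this]
      positivity)
  intro hS
  exact not_sq_two N M hM hNM (hS N hN1 hcut)

theorem core2 (hB : BackH) (A : Fin 3 → EuclideanSpace ℝ (Fin 2)) (hA : AffineIndependent ℝ A)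
    {x y z : ℝ} (hL : Like (side A) x y z) {ℓ : Fin 3 → ℝ} (hG : GoodS ℓ x y z) (R : ℚ)
    (hR : 0 < R) (hH : Hr ![x, y, z] = (R : ℝ) ^ 2 * Hr ℓ) (hHp : 0 < Hr ℓ)
    (hns : ¬ IsSquare R) : ¬ SquareOnly A := by
  obtain ⟨N, M, hM, hN1, hcut, hNM⟩ := exist_core hB A hA _ _ _ hL _ hG R (by exact_mod_cast hR)
    hH hHp
  intro hS
  exact hns (sqQ N M R hM hNM (hS N hN1 hcut))

theorem right_case (hB : BackH) (A : Fin 3 → EuclideanSpace ℝ (Fin 2)) (hA : AffineIndependent ℝ A)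
    (p q : ℕ) (hp : 0 < p) (hq : 0 < q) (hns : ¬ IsSquare (p ^ 2 + q ^ 2))
    (hL : Like (side A) p q (Real.sqrt ((p : ℝ) ^ 2 + (q : ℝ) ^ 2))) : ¬ SquareOnly A := by
  have hp' : (0 : ℝ) < p := by exact_mod_cast hp
  have hq' : (0 : ℝ) < q := by exact_mod_cast hq
  set c := Real.sqrt ((p : ℝ) ^ 2 + (q : ℝ) ^ 2) with hc
  have hcp : 0 < c := Real.sqrt_pos.mpr (by positivity)
  have hc2 : c ^ 2 = (p : ℝ) ^ 2 + (q : ℝ) ^ 2 := Real.sq_sqrt (by positivity)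
  have hc4 : c ^ 4 = ((p : ℝ) ^ 2 + (q : ℝ) ^ 2) ^ 2 := by rw [← hc2]; ring
  have hG := goodS_right p q hp hq c hc2
  have hL2 : Like (side A) ((p : ℝ) ^ 2 + (q : ℝ) ^ 2) (q * c) (p * c) := by
    have h1 := (hL.scale c hcp).perm.perm.swap
    have e1 : c * c = (p : ℝ) ^ 2 + (q : ℝ) ^ 2 := by rw [← hc2]; ring
    rw [e1, mul_comm c (q : ℝ), mul_comm c (p : ℝ)] at h1
    exact h1
  refine core2 hB A hA hL2 hG ((p ^ 2 + q ^ 2 : ℕ) : ℚ) (by positivity) ?_ ?_ ?_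
  · rw [Hr3, Hr3]
    push_cast
    have e1 : ((q : ℝ) * c) ^ 2 = q ^ 2 * c ^ 2 := by ring
    have e2 : ((p : ℝ) * c) ^ 2 = p ^ 2 * c ^ 2 := by ring
    have e3 : ((q : ℝ) * c) ^ 4 = q ^ 4 * c ^ 4 := by ring
    have e4 : ((p : ℝ) * c) ^ 4 = p ^ 4 * c ^ 4 := by ring
    rw [e1, e2, e3, e4, hc4, hc2]
    ring
  · rw [Hr3, hc4, hc2]
    have : ((p : ℝ) ^ 2 + q ^ 2 + (p ^ 2 + q ^ 2)) ^ 2 -
      2 * ((p : ℝ) ^ 4 + q ^ 4 + (p ^ 2 + q ^ 2) ^ 2) = 4 * p ^ 2 * q ^ 2 := by ring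
    rw [this]
    positivity
  · intro h
    exact hns (Rat.isSquare_natCast_iff.mp h)

theorem case369 (hB : BackH) (A : Fin 3 → EuclideanSpace ℝ (Fin 2)) (hA : AffineIndependent ℝ A)
    (hL : Like (side A) 1 (Real.sqrt 3) 2) : ¬ SquareOnly A := by
  set r := Real.sqrt 3 with hr
  have hrp : 0 < r := Real.sqrt_pos.mpr (by norm_num)
  have hr2 : r ^ 2 = 3 := Real.sq_sqrt (by norm_num)
  have hr4 : r ^ 4 = 9 := by
    have : r ^ 4 = (r ^ 2) ^ 2 := by ring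
    rw [this, hr2]; norm_num
  have hG := goodS_369 r hrp hr2
  have hL2 : Like (side A) r 3 (2 * r) := by
    have h1 := hL.scale r hrp
    have e1 : r * r = 3 := by rw [← hr2]; ring
    rw [e1, mul_one, mul_comm r 2] at h1
    exact h1
  refine core2 hB A hA hL2 hG 3 (by norm_num) ?_ ?_ ?_
  · rw [Hr3, Hr3]
    have e1 : (2 * r) ^ 2 = 12 := by
      have : (2 * r) ^ 2 = 4 * r ^ 2 := by ring
      rw [this, hr2]; norm_num
    have e2 : (2 * r) ^ 4 = 144 := by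
      have : (2 * r) ^ 4 = 16 * r ^ 4 := by ring
      rw [this, hr4]; norm_num
    rw [e1, e2, hr4, hr2]
    norm_num
  · rw [Hr3, hr4, hr2]
    norm_num
  · intro h
    have h2 : IsSquare ((3 : ℕ) : ℚ) := by exact_mod_cast h
    obtain ⟨r, hr⟩ := Rat.isSquare_natCast_iff.mp h2
    have : r < 2 := by nlinarith
    interval_cases r <;> omega

theorem s_case (hB : BackH) (A : Fin 3 → EuclideanSpace ℝ (Fin 2)) (hA : AffineIndependent ℝ A)
    (s : ℚ) (hs : 0 < s) (hs1 : s < 1) :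
    (¬ IsSquare (2 - s ^ 2) ∧
      Like (side A) ((s : ℝ) * (2 - (s : ℝ) ^ 2)) 1 (1 - (s : ℝ) ^ 2) → ¬ SquareOnly A) ∧
    (¬ IsSquare ((2 - s ^ 2) * (3 - s ^ 2)) ∧
      Like (side A) (2 - (s : ℝ) ^ 2) 1 ((1 - (s : ℝ) ^ 2) * (3 - (s : ℝ) ^ 2)) →
      ¬ SquareOnly A) := by
  have hs' : (0 : ℝ) < s := by exact_mod_cast hs
  have hb : 0 < 1 - s ^ 2 := by nlinarith
  have hb' : (0 : ℝ) < 1 - (s : ℝ) ^ 2 := by exact_mod_cast hb
  have hHp : 0 < Hr ![(s : ℝ), ((1 - s ^ 2 : ℚ) : ℝ), ((1 : ℚ) : ℝ)] := by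
    rw [Hr3]
    push_cast
    have : ((s : ℝ) ^ 2 + (1 - (s : ℝ) ^ 2) ^ 2 + 1 ^ 2) ^ 2 -
        2 * ((s : ℝ) ^ 4 + (1 - (s : ℝ) ^ 2) ^ 4 + 1 ^ 4) =
        (s : ℝ) ^ 2 * (1 - (s : ℝ) ^ 2) ^ 2 * (4 - (s : ℝ) ^ 2) := by ring
    rw [this]
    have h4 : (0 : ℝ) < 4 - (s : ℝ) ^ 2 := by linarith
    positivity
  constructor
  · rintro ⟨hns, hL⟩
    refine core2 hB A hA hL (goodS_c s hs hs1) (2 - s ^ 2) (by linarith) ?_ hHp hns
    rw [Hr3, Hr3]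
    push_cast
    ring
  · rintro ⟨hns, hL⟩
    refine core2 hB A hA hL (goodS_d s hs hs1) ((2 - s ^ 2) * (3 - s ^ 2))
      (mul_pos (by linarith) (by linarith)) ?_ hHp hns
    rw [Hr3, Hr3]
    push_cast
    ring

theorem u_case (hB : BackH) (A : Fin 3 → EuclideanSpace ℝ (Fin 2)) (hA : AffineIndependent ℝ A)
    (a b c : ℕ) (ha : 0 < a) (hb : 0 < b) (h : c ^ 2 = a ^ 2 + a * b + b ^ 2)
    (hcase : (¬ IsSquare (a * (a + b)) ∧ Like (side A) (a + b) c b) ∨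
     (¬ IsSquare ((a + b) * (2 * a + b)) ∧
        Like (side A) ((a + b) * c) (a * c) (b * (2 * a + b))) ∨
     (¬ IsSquare ((2 * a + b) * (a + 2 * b)) ∧
        Like (side A) (a * (a + 2 * b)) ((c : ℝ) ^ 2) (b * (2 * a + b))) ∨
     (¬ IsSquare (3 * (a + b) * (2 * a + b)) ∧
        Like (side A) (3 * a * (a + b)) ((c : ℝ) ^ 2) ((2 * a + b) * c))) : ¬ SquareOnly A := by
  have hc : 0 < c := by
    rcases Nat.eq_zero_or_pos c with h0 | h0
    · subst h0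
      have : 0 < a ^ 2 := by positivity
      nlinarith [Nat.zero_le (a * b), Nat.zero_le (b ^ 2)]
    · exact h0
  have haq : (0 : ℚ) < a := by exact_mod_cast ha
  have hbq : (0 : ℚ) < b := by exact_mod_cast hb
  have hcq : (0 : ℚ) < c := by exact_mod_cast hc
  have hq : (c : ℚ) ^ 2 = (a : ℚ) ^ 2 + a * b + (b : ℚ) ^ 2 := by exact_mod_cast h
  have har : (0 : ℝ) < a := by exact_mod_cast ha
  have hbr : (0 : ℝ) < b := by exact_mod_cast hb
  have hr : (c : ℝ) ^ 2 = (a : ℝ) ^ 2 + a * b + (b : ℝ) ^ 2 := by exact_mod_cast h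
  have hr4 : (c : ℝ) ^ 4 = ((a : ℝ) ^ 2 + a * b + (b : ℝ) ^ 2) ^ 2 := by rw [← hr]; ring
  have hr8 : (c : ℝ) ^ 8 = ((a : ℝ) ^ 2 + a * b + (b : ℝ) ^ 2) ^ 4 := by rw [← hr]; ring
  have hHp : 0 < Hr ![((a : ℚ) : ℝ), ((b : ℚ) : ℝ), ((c : ℚ) : ℝ)] := by
    rw [Hr3]
    push_cast
    rw [hr4, hr]
    have : ((a : ℝ) ^ 2 + b ^ 2 + (a ^ 2 + a * b + b ^ 2)) ^ 2 -
        2 * ((a : ℝ) ^ 4 + b ^ 4 + (a ^ 2 + a * b + b ^ 2) ^ 2) = 3 * a ^ 2 * b ^ 2 := by ring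
    rw [this]
    positivity
  rcases hcase with ⟨hns, hL⟩ | ⟨hns, hL⟩ | ⟨hns, hL⟩ | ⟨hns, hL⟩
  · have hG := goodS_u3 a b c haq hbq hcq hq 1 one_pos
    refine core2 hB A hA (x := a + b) (y := b) (z := c) hL.swap
      (hG.congr (by push_cast; ring) (by push_cast; ring) (by push_cast; ring))
      (((a : ℚ) + b) / a) (by positivity) ?_ hHp ?_
    · rw [Hr3, Hr3]
      push_cast
      rw [hr4, hr]
      field_simp
      ring
    · intro hsq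
      apply hns
      have h2 : IsSquare (((a * (a + b) : ℕ) : ℚ)) := by
        have : ((a * (a + b) : ℕ) : ℚ) = (a : ℚ) * a * (((a : ℚ) + b) / a) := by
          push_cast
          field_simp
        rw [this]
        exact IsSquare.mul ⟨(a : ℚ), rfl⟩ hsq
      exact Rat.isSquare_natCast_iff.mp h2
  · have hG := goodS_u2 a b c haq hbq hcq hq 1 one_pos
    refine core2 hB A hA hL
      (hG.congr (by push_cast; ring) (by push_cast; ring) (by push_cast; ring))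
      (((a + b) * (2 * a + b) : ℕ) : ℚ) (by positivity) ?_ hHp
      (fun hsq => hns (Rat.isSquare_natCast_iff.mp hsq))
    rw [Hr3, Hr3]
    push_cast
    have e1 : (((a : ℝ) + b) * c) ^ 2 = (a + b) ^ 2 * c ^ 2 := by ring
    have e2 : ((a : ℝ) * c) ^ 2 = a ^ 2 * c ^ 2 := by ring
    have e3 : (((a : ℝ) + b) * c) ^ 4 = (a + b) ^ 4 * c ^ 4 := by ring
    have e4 : ((a : ℝ) * c) ^ 4 = a ^ 4 * c ^ 4 := by ring
    rw [e1, e2, e3, e4, hr4, hr]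
    ring
  · have hG := goodS_u4 a b c haq hbq hcq hq 1 one_pos
    refine core2 hB A hA hL
      (hG.congr (by push_cast; ring) (by push_cast; ring) (by push_cast; ring))
      (((2 * a + b) * (a + 2 * b) : ℕ) : ℚ) (by positivity) ?_ hHp
      (fun hsq => hns (Rat.isSquare_natCast_iff.mp hsq))
    rw [Hr3, Hr3]
    push_cast
    have e1 : ((c : ℝ) ^ 2) ^ 4 = (c : ℝ) ^ 8 := by ring
    rw [e1, hr8, hr4, hr]
    ring
  · have hG := goodS_u1 a b c haq hbq hcq hq 1 one_pos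
    refine core2 hB A hA hL
      (hG.congr (by push_cast; ring) (by push_cast; ring) (by push_cast; ring))
      ((3 * (a + b) * (2 * a + b) : ℕ) : ℚ) (by positivity) ?_ hHp
      (fun hsq => hns (Rat.isSquare_natCast_iff.mp hsq))
    rw [Hr3, Hr3]
    push_cast
    have e1 : ((c : ℝ) ^ 2) ^ 4 = (c : ℝ) ^ 8 := by ring
    have e2 : ((2 * (a : ℝ) + b) * c) ^ 2 = (2 * a + b) ^ 2 * c ^ 2 := by ring
    have e3 : ((2 * (a : ℝ) + b) * c) ^ 4 = (2 * a + b) ^ 4 * c ^ 4 := by ring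
    rw [e1, e2, e3, hr8, hr4, hr]
    ring

/-- the triangles of the list are not square-only -/
theorem exc_not_squareOnly (hB : BackH) (A : Fin 3 → EuclideanSpace ℝ (Fin 2))
    (hA : AffineIndependent ℝ A) (h : Exc (side A)) : ¬ SquareOnly A := by
  rcases h with ⟨i, j, hij, h⟩ | ⟨p, q, hp, hq, hns, hL⟩ | hL | ⟨s, hs, hs1, hns, hL⟩ |
    ⟨s, hs, hs1, hns, hL⟩ | ⟨a, b, c, ha, hb, h, hc⟩
  · exact iso_case hB A hA i j hij h
  · exact right_case hB A hA p q hp hq hns hL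
  · exact case369 hB A hA hL
  · exact (s_case hB A hA s hs hs1).1 ⟨hns, hL⟩
  · exact (s_case hB A hA s hs hs1).2 ⟨hns, hL⟩
  · exact u_case hB A hA a b c ha hb h hc

end Pool.Agent.TH387
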