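import Mathlib
set_option autoImplicit false
noncomputable section

namespace Pool.Agent.TH387

theorem exists_g_gen (F : Type) [Field F] [Algebra F ℂ] (ζ ζ' ν : ℂ) (hν : ν ≠ 0)
    (hint : IsIntegral F ζ) (hroot : Polynomial.aeval ζ' (minpoly F ζ) = 0) :
    ∃ g : ℂ →+ ℂ, ∀ a : ℤ, g (ν * ζ ^ a) = ζ' ^ a := by
  set pb := IntermediateField.adjoin.powerBasis hint with hpb
  have hmin : minpoly F pb.gen = minpoly F ζ := IntermediateField.minpoly_gen F ζ
  rw [← hmin] at hroot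
  set σ := pb.lift ζ' hroot with hσ
  have hσg : σ pb.gen = ζ' := pb.lift_gen _ hroot
  obtain ⟨p, hp⟩ := LinearMap.exists_leftInverse_of_injective
    ((IntermediateField.adjoin F {ζ}).val.toLinearMap)
    (LinearMap.ker_eq_bot.mpr (fun x y h => Subtype.ext h))
  refine ⟨{ toFun := fun z => σ (p (z / ν)), map_zero' := ?_, map_add' := ?_ }, ?_⟩
  · simp
  · intro x y
    rw [add_div, map_add, map_add]
  · intro a
    change σ (p (ν * ζ ^ a / ν)) = _
    have h1 : ν * ζ ^ a / ν = ((pb.gen ^ a : IntermediateField.adjoin F {ζ}) : ℂ) := by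
      rw [mul_div_cancel_left₀ _ hν]
      rfl
    rw [h1]
    have h2 : p ((pb.gen ^ a : IntermediateField.adjoin F {ζ}) : ℂ) = pb.gen ^ a :=
      LinearMap.congr_fun hp (pb.gen ^ a)
    rw [h2, map_zpow₀, hσg]

/-- an additive map of `ℂ` that raises the roots of unity of order `n` (times a constant `ν`) to
the power `m` -/
theorem exists_g (n m : ℕ) (hn : 0 < n) (hm : m.Coprime n) (ν : ℂ) (hν : ν ≠ 0) (ζ : ℂ)
    (hζ : IsPrimitiveRoot ζ n) :
    ∃ g : ℂ →+ ℂ, ∀ a : ℤ, g (ν * ζ ^ a) = (ζ ^ m) ^ a := by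
  have hint : IsIntegral ℚ ζ := (hζ.isIntegral hn).tower_top
  have hprim : IsPrimitiveRoot (ζ ^ m) n := hζ.pow_of_coprime m hm
  refine exists_g_gen ℚ ζ (ζ ^ m) ν hν hint ?_
  rw [← Polynomial.cyclotomic_eq_minpoly_rat hζ hn, Polynomial.aeval_def,
    ← Polynomial.eval_map, Polynomial.map_cyclotomic]
  exact hprim.isRoot_cyclotomic hn

end Pool.Agent.TH387
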