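import Mathlib
import Pool.Agent.Helper549.Tri.Defs
import Pool.Agent.Helper549.Tri.Basic
import Pool.Agent.Helper549.Tri.Angles
import Pool.Agent.Helper549.Tri.Odd
import Pool.Agent.Helper549.Tri.Corner
import Pool.Agent.Helper549.Tri.Vertex
import Pool.Agent.Helper549.Tri.RealChar
import Pool.Agent.TH387.Base
import Pool.Agent.TH387.Seg
import Pool.Agent.TH387.ExG
import Pool.Agent.TH609.J39
import Pool.Agent.TH609.J40
set_option autoImplicit false
noncomputable section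
open scoped BigOperators

namespace Pool.Agent.TH387
open Pool.Agent.Helper549.Tri Pool.Agent.Helper549.Tri.Basic Pool.Agent.Helper549.Tri.Angles
  Pool.Agent.Helper549.Tri.Corner Pool.Agent.Helper549.Tri.Odd

theorem cl_unit (W : ℂ) (hW : ‖W‖ = 1) : cl W = W ^ 2 := by
  have h1 : (starRingEnd ℂ) W * W = 1 := by
    rw [← Complex.normSq_eq_conj_mul_self, Complex.normSq_eq_norm_sq, hW]; norm_num
  have h2 : (starRingEnd ℂ) W ≠ 0 := left_ne_zero_of_mul_eq_one h1
  unfold cl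
  rw [div_eq_iff h2]
  linear_combination (-W) * h1

/-- transport of a segment -/
theorem seg_map (δ : ℂ → ℂ) (g : ℂ → ℂ) (p q W : ℂ) (R : ℝ) (hW : ‖W‖ = 1)
    (h : g q - g p = (R : ℂ) * W) (hδ : δ (cl (q - p)) = W ^ 2) :
    Finsupp.mapDomain (fun x : ℂ × ℂ => (δ x.1, g x.2)) (seg p q) = seg (g p) (g q) := by
  rw [seg_eq R h, cl_unit W hW]
  unfold seg sg
  have h1 := (Finsupp.mapDomain.addMonoidHom (M := ℤ) (fun x : ℂ × ℂ => (δ x.1, g x.2))).map_sub
    (Finsupp.single (cl (q - p), q) 1) (Finsupp.single (cl (q - p), p) 1)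
  refine h1.trans ?_
  change Finsupp.mapDomain _ _ - Finsupp.mapDomain _ _ = _
  rw [Finsupp.mapDomain_single, Finsupp.mapDomain_single, hδ]

/-- transport of a triangle -/
theorem bdc_map (δ : ℂ → ℂ) (g : ℂ →+ ℂ) (v : Fin 3 → ℂ)
    (h : ∀ k, ∃ (R : ℝ) (W : ℂ), ‖W‖ = 1 ∧ g (sd v k) = (R : ℂ) * W ∧ δ (cl (sd v k)) = W ^ 2) :
    Finsupp.mapDomain (fun x : ℂ × ℂ => (δ x.1, g x.2)) (bdc v) = bdc (fun k => g (v k)) := by
  unfold bdc
  rw [Finsupp.mapDomain_finsetSum]
  refine Finset.sum_congr rfl fun k _ => ?_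
  obtain ⟨R, W, hW, h1, h2⟩ := h k
  refine seg_map δ g _ _ W R hW ?_ h2
  rw [← map_sub]; exact h1

theorem cr_rot (W : ℂ) (hW : ‖W‖ = 1) (x : ℝ) :
    cr W (-Complex.exp (-(x : ℂ) * Complex.I) * W) = Real.sin x := by
  have h : W.re * W.re + W.im * W.im = 1 := by
    rw [← Complex.normSq_apply, Complex.normSq_eq_norm_sq, hW]; norm_num
  have h1 : (Complex.exp (-(x : ℂ) * Complex.I)).re = Real.cos x := by
    rw [← Complex.ofReal_neg, Complex.exp_ofReal_mul_I_re, Real.cos_neg]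
  have h2 : (Complex.exp (-(x : ℂ) * Complex.I)).im = - Real.sin x := by
    rw [← Complex.ofReal_neg, Complex.exp_ofReal_mul_I_im, Real.sin_neg]
  unfold cr
  simp only [Complex.mul_re, Complex.mul_im, Complex.neg_re, Complex.neg_im, h1, h2]
  linear_combination Real.sin x * h

section
variable {N : ℕ} {T : Fin 3 → ℂ} {t : Fin N → Fin 3 → ℂ} (h : Dis N T t)
  (τ : Fin N → Equiv.Perm (Fin 3)) (ℓ θ : Fin 3 → ℝ) (hlen : ∀ i m, len (t i) m = ℓ (τ i m))
  (hang : ∀ i m, ang (t i) m = θ (τ i m)) (L : ℕ) (hL : 0 < L) (c : Fin 3 → ℕ)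
  (hθ : ∀ k, θ k = Real.pi * c k / L)

include h hang hL hθ in
theorem dir_root (ζ : ℂ) (hζ : ζ = Complex.exp (2 * Real.pi * Complex.I / ((4 * L : ℕ) : ℂ)))
    (i : Fin N) (l : Fin 3) : ∃ e : ℤ, dir (t i) l = dir T 0 * ζ ^ (2 * e) := by
  obtain ⟨m, x, hx⟩ := RealChar.dir_coset h τ θ hang i l 0
  have hL' : (L : ℂ) ≠ 0 := by exact_mod_cast hL.ne'
  refine ⟨L * m + ∑ k, x k * c k, ?_⟩
  rw [hx, mul_assoc]
  congr 1
  have h1 : ((-1 : ℂ)) ^ m = Complex.exp (m * (Real.pi * Complex.I)) := by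
    rw [Complex.exp_int_mul, Complex.exp_pi_mul_I]
  rw [h1, ← Complex.exp_add, hζ, ← Complex.exp_int_mul]
  congr 1
  push_cast
  have h2 : ∑ k, (x k : ℂ) * (θ k : ℂ) = Real.pi * (∑ k, (x k : ℂ) * (c k : ℂ)) / L := by
    rw [Finset.mul_sum, Finset.sum_div]
    refine Finset.sum_congr rfl fun k _ => ?_
    rw [hθ k]; push_cast; ring
  rw [h2]
  field_simp
  ring

theorem sin_shift (m c L : ℕ) (hL : 0 < L) :
    Real.sin (m * (Real.pi * c / L)) =
      (-1) ^ (m * c / L) * Real.sin (Real.pi * ((m * c % L : ℕ) : ℝ) / L) := by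
  have hL' : (L : ℝ) ≠ 0 := by exact_mod_cast hL.ne'
  have h1 : (m : ℝ) * (Real.pi * c / L) = Real.pi * ((m * c % L : ℕ) : ℝ) / L +
      ((m * c / L : ℕ) : ℝ) * Real.pi := by
    have h2 : ((m * c : ℕ) : ℝ) = L * ((m * c / L : ℕ) : ℝ) + ((m * c % L : ℕ) : ℝ) := by
      exact_mod_cast (Nat.div_add_mod (m * c) L).symm
    push_cast at h2
    field_simp
    linear_combination h2
  rw [h1, Real.sin_add_nat_mul_pi]

include h hlen hang hL hθ in
theorem rat_conj (hc : ∀ k, c k < L) (hc0 : ∀ k, 0 < c k) (hsum : ∑ k, c k = L) (m : ℕ)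
    (hm : m.Coprime (4 * L)) (hs : ∑ k, (m * c k) % L = L) :
    ∃ g : ℂ →+ ℂ, Dis N (fun k => g (T k)) (fun i k => g (t i k)) ∧
      ∀ i k, ang (fun k => g (t i k)) k = Real.pi * ((m * c (τ i k) % L : ℕ) : ℝ) / L := by
  classical
  have hN : 0 < N := by
    by_contra hcon
    have : N = 0 := by omega
    subst this
    have h1 := h.cover
    rw [Set.iUnion_of_empty] at h1
    obtain ⟨p, hp⟩ := Pool.Agent.Helper549.Tri.Class.sc_int_ne T h.ccwT
    have := interior_subset hp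
    rw [← h1] at this
    exact this
  have hL' : (L : ℝ) ≠ 0 := by exact_mod_cast hL.ne'
  have hLpos : (0 : ℝ) < L := by exact_mod_cast hL
  have hLc : (L : ℂ) ≠ 0 := by exact_mod_cast hL.ne'
  set i0 : Fin N := ⟨0, hN⟩ with hi0
  set ζ : ℂ := Complex.exp (2 * Real.pi * Complex.I / ((4 * L : ℕ) : ℂ)) with hζdef
  have hζ : IsPrimitiveRoot ζ (4 * L) := Complex.isPrimitiveRoot_exp (4 * L) (by omega)
  have hζ0 : ζ ≠ 0 := Complex.exp_ne_zero _
  have hmodd : Odd m := by
    have : m.Coprime 4 := Nat.Coprime.coprime_mul_right_right hm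
    rcases Nat.even_or_odd m with he | ho
    · exfalso
      obtain ⟨r, hr⟩ := he
      have h2 : 2 ∣ Nat.gcd m 4 := Nat.dvd_gcd ⟨r, by omega⟩ (by norm_num)
      rw [this] at h2
      omega
    · exact ho
  -- directions
  have hu0 : ‖dir T 0‖ = 1 := norm_dir T h.ccwT 0
  have hu0' : dir T 0 ≠ 0 := by
    intro h0; rw [h0, norm_zero] at hu0; exact zero_ne_one hu0
  have hdir : ∀ i l, ∃ e : ℤ, dir (t i) l = dir T 0 * ζ ^ (2 * e) :=
    fun i l => dir_root h τ θ hang L hL c hθ ζ rfl i l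
  have hsinpos : ∀ k, 0 < Real.sin (θ k) := by
    intro k
    rw [hθ k]
    have hck : (0 : ℝ) < c k := by exact_mod_cast hc0 k
    have hckL : (c k : ℝ) < L := by exact_mod_cast hc k
    apply Real.sin_pos_of_pos_of_lt_pi
    · positivity
    · rw [div_lt_iff₀ hLpos]
      exact mul_lt_mul_of_pos_left hckL Real.pi_pos
  -- scale
  have hlaw : ∀ j k, ℓ j * Real.sin (θ k) = ℓ k * Real.sin (θ j) := by
    intro j k
    obtain ⟨a, ha⟩ := (τ i0).surjective j
    obtain ⟨b, hb⟩ := (τ i0).surjective k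
    rw [← ha, ← hb, ← hlen, ← hlen, ← hang, ← hang]
    exact sine_law _ (h.ccwt i0) a b
  have hℓpos : ∀ k, 0 < ℓ k := by
    intro k
    obtain ⟨a, ha⟩ := (τ i0).surjective k
    rw [← ha, ← hlen]
    exact len_pos _ (h.ccwt i0) a
  set lam0 : ℝ := ℓ 0 / (2 * Real.sin (θ 0)) with hlam0
  have hlam0p : 0 < lam0 := div_pos (hℓpos 0) (mul_pos two_pos (hsinpos 0))
  have hℓ : ∀ k, ℓ k = lam0 * (2 * Real.sin (θ k)) := by
    intro k
    have h1 := hlaw k 0
    have h2 := (hsinpos 0).ne'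
    rw [hlam0]
    field_simp
    linear_combination h1
  set ν : ℂ := (lam0 : ℂ) * dir T 0 with hν
  have hν0 : ν ≠ 0 := mul_ne_zero (by exact_mod_cast hlam0p.ne') hu0'
  obtain ⟨g, hg⟩ := exists_g (4 * L) m (by omega) hm ν hν0 ζ hζ
  set ξ : ℂ := ζ ^ m with hξ
  have hξ0 : ξ ≠ 0 := pow_ne_zero _ hζ0
  -- powers of ζ
  have hζexp : ∀ a : ℤ, ζ ^ a = Complex.exp (2 * Real.pi * Complex.I * a / (4 * L)) := by
    intro a
    rw [hζdef, ← Complex.exp_int_mul]
    congr 1
    push_cast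
    ring
  have hξexp : ∀ a : ℤ, ξ ^ a = Complex.exp (2 * Real.pi * Complex.I * (m * a) / (4 * L)) := by
    intro a
    rw [hξ, ← zpow_natCast, ← zpow_mul, hζexp]
    congr 1
    push_cast
    ring
  have hζI : ζ ^ (L : ℤ) = Complex.I := by
    rw [hζexp]
    have : 2 * (Real.pi : ℂ) * Complex.I * ((L : ℤ) : ℂ) / (4 * L) = Real.pi / 2 * Complex.I := by
      push_cast
      field_simp
      ring
    rw [this, Complex.exp_pi_div_two_mul_I]
  have hξI : ξ ^ (L : ℤ) = Complex.I ^ m := by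
    rw [hξ, ← zpow_natCast, ← zpow_mul, mul_comm, zpow_mul, hζI, zpow_natCast]
  have hIm : ∃ s : ℝ, (s = 1 ∨ s = -1) ∧ Complex.I ^ m * Complex.I = -(s : ℂ) := by
    obtain ⟨r, hr⟩ := hmodd
    have h2 : Complex.I ^ m * Complex.I = (-1) ^ (r + 1) := by
      have h3 : (-1 : ℂ) = Complex.I ^ 2 := by rw [Complex.I_sq]
      rw [h3, ← pow_mul, ← pow_succ]
      congr 1
      omega
    rw [h2]
    rcases Nat.even_or_odd r with he | ho
    · refine ⟨1, Or.inl rfl, ?_⟩
      have : Odd (r + 1) := he.add_one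
      rw [this.neg_one_pow]; simp
    · refine ⟨-1, Or.inr rfl, ?_⟩
      have : Even (r + 1) := ho.add_one
      rw [this.neg_one_pow]; simp
  obtain ⟨s, hs1, hsI⟩ := hIm
  have hs2 : s * s = 1 := by rcases hs1 with h1 | h1 <;> rw [h1] <;> norm_num
  have hsI' : Complex.I ^ m = s * Complex.I := by
    linear_combination (-Complex.I) * hsI + (Complex.I ^ m) * Complex.I_mul_I
  have hζsin : ∀ k : Fin 3, (2 * Real.sin (θ k) : ℂ) =
      -(ζ ^ ((L : ℤ) + 2 * c k)) + ζ ^ ((L : ℤ) - 2 * c k) := by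
    intro k
    have h1 : ζ ^ (2 * (c k : ℤ)) = Complex.exp ((θ k : ℂ) * Complex.I) := by
      rw [hζexp, hθ k]
      congr 1
      push_cast
      field_simp
      ring
    have h2 : ζ ^ (-(2 * (c k : ℤ))) = Complex.exp (-((θ k : ℂ) * Complex.I)) := by
      rw [zpow_neg, h1, Complex.exp_neg]
    rw [sub_eq_add_neg, zpow_add₀ hζ0, zpow_add₀ hζ0, h1, h2, hζI, Complex.ofReal_sin,
      Complex.sin]
    have : -(θ k : ℂ) * Complex.I = -((θ k : ℂ) * Complex.I) := by ring
    rw [this]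
    ring
  have hξsin : ∀ k : Fin 3, ((s * (2 * Real.sin (m * θ k)) : ℝ) : ℂ) =
      -(ξ ^ ((L : ℤ) + 2 * c k)) + ξ ^ ((L : ℤ) - 2 * c k) := by
    intro k
    have h1 : ξ ^ (2 * (c k : ℤ)) = Complex.exp ((m * θ k : ℝ) * Complex.I) := by
      rw [hξexp, hθ k]
      congr 1
      push_cast
      field_simp
      ring
    have h2 : ξ ^ (-(2 * (c k : ℤ))) = Complex.exp (-((m * θ k : ℝ) * Complex.I)) := by
      rw [zpow_neg, h1, Complex.exp_neg]
    rw [sub_eq_add_neg, zpow_add₀ hξ0, zpow_add₀ hξ0, h1, h2, hξI]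
    push_cast
    rw [Complex.sin]
    have : -(m * θ k : ℂ) * Complex.I = -((m * θ k : ℂ) * Complex.I) := by ring
    rw [this, hsI']
    ring
  -- images of the tile sides
  have hside : ∀ i k, ∃ (W : ℂ), ‖W‖ = 1 ∧ W = (dir (t i) k / dir T 0) ^ m ∧
      g (sd (t i) k) = ((s * (2 * Real.sin (m * θ (τ i k))) : ℝ) : ℂ) * W := by
    intro i k
    obtain ⟨e, he⟩ := hdir i k
    have hw : dir (t i) k / dir T 0 = ζ ^ (2 * e) := by
      rw [he]; field_simp
    refine ⟨ξ ^ (2 * e), ?_, ?_, ?_⟩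
    · have : ‖ξ‖ = 1 := by
        rw [hξ, norm_pow]
        have : ‖ζ‖ = 1 := hζ.norm'_eq_one (by omega)
        rw [this, one_pow]
      rw [norm_zpow, this, one_zpow]
    · rw [hw, hξ, ← zpow_natCast, ← zpow_natCast, ← zpow_mul, ← zpow_mul, mul_comm]
    · have h1 : sd (t i) k = -(ν * ζ ^ ((L : ℤ) + 2 * c (τ i k) + 2 * e)) +
          ν * ζ ^ ((L : ℤ) - 2 * c (τ i k) + 2 * e) := by
        rw [sd_eq (t i) (h.ccwt i) k, hlen, he, hℓ, hν, zpow_add₀ hζ0 ((L : ℤ) + 2 * c (τ i k)),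
          zpow_add₀ hζ0 ((L : ℤ) - 2 * c (τ i k))]
        have h2 := hζsin (τ i k)
        rw [Complex.ofReal_mul, Complex.ofReal_mul, Complex.ofReal_ofNat, h2]
        ring
      rw [h1, map_add, map_neg, hg, hg, hξsin, zpow_add₀ hξ0 ((L : ℤ) + 2 * c (τ i k)),
        zpow_add₀ hξ0 ((L : ℤ) - 2 * c (τ i k))]
      ring
  -- images of the sides of `T`
  have hsideT : ∀ j, ∃ (R : ℝ) (W : ℂ), ‖W‖ = 1 ∧ W = (dir T j / dir T 0) ^ m ∧
      g (sd T j) = (R : ℂ) * W := by
    intro j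
    have hb := bd_len h j
    have h1 : sd T j = ∑ i, ∑ l, if onBd T (t i) l j then sd (t i) l else 0 := by
      rw [sd_eq T h.ccwT j, ← hb]
      push_cast
      rw [Finset.sum_mul]
      refine Finset.sum_congr rfl fun i _ => ?_
      rw [Finset.sum_mul]
      refine Finset.sum_congr rfl fun l _ => ?_
      by_cases ho : onBd T (t i) l j
      · rw [if_pos ho, if_pos ho, sd_eq (t i) (h.ccwt i) l, ho.1]
      · rw [if_neg ho, if_neg ho]; simp
    obtain ⟨i', m', l', -, -, hb'⟩ := corner_side h (j + 1) j (by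
      have key : ∀ j : Fin 3, j + 1 ≠ j := by decide
      exact key j)
    obtain ⟨W, hW1, hW2, -⟩ := hside i' l'
    rw [hb'.1] at hW2
    refine ⟨∑ i, ∑ l, if onBd T (t i) l j then (s * (2 * Real.sin (m * θ (τ i l)))) else 0,
      W, hW1, hW2, ?_⟩
    rw [h1, map_sum]
    push_cast
    rw [Finset.sum_mul]
    refine Finset.sum_congr rfl fun i _ => ?_
    rw [map_sum, Finset.sum_mul]
    refine Finset.sum_congr rfl fun l _ => ?_
    by_cases ho : onBd T (t i) l j
    · rw [if_pos ho, if_pos ho]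
      obtain ⟨W', hW1', hW2', hW3'⟩ := hside i l
      rw [hW3', hW2', hW2, ho.1]
    · rw [if_neg ho, if_neg ho]; simp
  -- the map on classes
  set δ : ℂ → ℂ := fun x => (x / (dir T 0) ^ 2) ^ m with hδ
  have hcl : ∀ v : Fin 3 → ℂ, 0 < dd v → ∀ k, cl (sd v k) = (dir v k) ^ 2 := by
    intro v hv k
    rw [sd_eq v hv k, cl_smul _ (len_pos v hv k).ne', cl_unit _ (norm_dir v hv k)]
  have hδ' : ∀ z : ℂ, δ (z ^ 2) = ((z / dir T 0) ^ m) ^ 2 := by
    intro z
    rw [hδ]
    simp only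
    rw [← div_pow, ← pow_mul, ← pow_mul, mul_comm]
  have hchain : ∑ i, bdc (fun k => g (t i k)) = bdc (fun k => g (T k)) := by
    have h1 := dis_chain h
    have h2 := bdc_map δ g T (fun k => by
      obtain ⟨R, W, hW1, hW2, hW3⟩ := hsideT k
      exact ⟨R, W, hW1, hW3, by rw [hcl T h.ccwT, hδ', hW2]⟩)
    rw [← h2, ← h1, Finsupp.mapDomain_finsetSum]
    refine Finset.sum_congr rfl fun i _ => ?_
    refine (bdc_map δ g (t i) (fun k => ?_)).symm
    obtain ⟨W, hW1, hW2, hW3⟩ := hside i k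
    exact ⟨_, W, hW1, hW3, by rw [hcl (t i) (h.ccwt i), hδ', hW2]⟩
  -- numbers r k
  have hr0 : ∀ k, 0 < m * c k % L := by
    intro k
    rcases Nat.eq_zero_or_pos (m * c k % L) with h0 | h0
    · exfalso
      have h1 : L ∣ m * c k := Nat.dvd_of_mod_eq_zero h0
      have h2 : Nat.Coprime L m := (Nat.Coprime.coprime_mul_left_right hm).symm
      have h3 : L ∣ c k := h2.dvd_of_dvd_mul_left h1
      exact absurd (Nat.le_of_dvd (hc0 k) h3) (not_le.mpr (hc k))
    · exact h0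
  have hrL : ∀ k, m * c k % L < L := fun k => Nat.mod_lt _ hL
  set φ : Fin 3 → ℝ := fun k => Real.pi * ((m * c k % L : ℕ) : ℝ) / L with hφ
  have hφpos : ∀ k, 0 < φ k := by
    intro k
    have : (0 : ℝ) < ((m * c k % L : ℕ) : ℝ) := by exact_mod_cast hr0 k
    rw [hφ]; positivity
  have hφlt : ∀ k, φ k < Real.pi := by
    intro k
    have : ((m * c k % L : ℕ) : ℝ) < L := by exact_mod_cast hrL k
    rw [hφ]
    simp only
    rw [div_lt_iff₀ hLpos]
    exact mul_lt_mul_of_pos_left this Real.pi_pos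
  have hφsum : φ 0 + φ 1 + φ 2 = Real.pi := by
    have h1 : ((m * c 0 % L : ℕ) : ℝ) + ((m * c 1 % L : ℕ) : ℝ) + ((m * c 2 % L : ℕ) : ℝ) = L := by
      rw [Fin.sum_univ_three] at hs
      exact_mod_cast hs
    rw [hφ]
    simp only
    rw [← add_div, ← add_div, ← mul_add, ← mul_add, h1]
    field_simp
  have hsφ : ∀ k, Real.sin (m * θ k) = (-1) ^ (m * c k / L) * Real.sin (φ k) := by
    intro k
    rw [hθ k]
    exact sin_shift m (c k) L hL
  have hsφpos : ∀ k, 0 < Real.sin (φ k) :=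
    fun k => Real.sin_pos_of_pos_of_lt_pi (hφpos k) (hφlt k)
  have hQ : Even (∑ k, m * c k / L) := by
    have h1 : ∑ k, (L * (m * c k / L) + m * c k % L) = m * L := by
      rw [← hsum, Finset.mul_sum]
      exact Finset.sum_congr rfl fun k _ => Nat.div_add_mod _ _
    rw [Finset.sum_add_distrib, hs, ← Finset.mul_sum] at h1
    have h2 : (∑ k, m * c k / L) + 1 = m := by
      have : L * ((∑ k, m * c k / L) + 1) = L * m := by
        rw [mul_add, mul_one, h1, mul_comm]
      exact Nat.eq_of_mul_eq_mul_left hL this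
    obtain ⟨r, hr⟩ := hmodd
    exact ⟨r, by omega⟩
  have hprod : ∏ k, Real.sin (m * θ k) = ∏ k, Real.sin (φ k) := by
    rw [Finset.prod_congr rfl fun k _ => hsφ k, Finset.prod_mul_distrib,
      Finset.prod_pow_eq_pow_sum, hQ.neg_one_pow, one_mul]
  have habs : ∀ k, |Real.sin (m * θ k)| = Real.sin (φ k) := by
    intro k
    rw [hsφ k, abs_mul, abs_pow, abs_neg, abs_one, one_pow, one_mul, abs_of_pos (hsφpos k)]
  have habss : |s| = 1 := by rcases hs1 with h1 | h1 <;> rw [h1] <;> norm_num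
  have hsd' : ∀ i k, sd (fun k => g (t i k)) k = g (sd (t i) k) := by
    intro i k
    unfold sd
    rw [map_sub]
  have hlen' : ∀ i k, len (fun k => g (t i k)) k = 2 * Real.sin (φ (τ i k)) := by
    intro i k
    obtain ⟨W, hW1, hW2, hW3⟩ := hside i k
    unfold len
    rw [hsd', hW3, norm_mul, hW1, mul_one, Complex.norm_real, Real.norm_eq_abs, abs_mul, habss,
      one_mul, abs_mul, habs, abs_two]
  have hdd' : ∀ i, 0 < dd (fun k => g (t i k)) := by
    intro i
    obtain ⟨W1, a1, a2, a3⟩ := hside i 1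
    obtain ⟨W2, b1, b2, b3⟩ := hside i 2
    have hrel := dir_rel (t i) (h.ccwt i) 0
    have hW : W2 = -Complex.exp (-((m * θ (τ i 0) : ℝ) : ℂ) * Complex.I) * W1 := by
      rw [b2, a2]
      have e1 : dir (t i) 2 = -Complex.exp (-(ang (t i) 0 : ℂ) * Complex.I) * dir (t i) 1 := hrel
      rw [e1, hang, mul_div_assoc, mul_pow, Odd.neg_pow hmodd, ← Complex.exp_nat_mul]
      congr 3
      push_cast
      ring
    rw [← h_cr_sd (fun k => g (t i k)) 1]
    change 0 < cr (sd (fun k => g (t i k)) 1) (sd (fun k => g (t i k)) 2)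
    rw [hsd', hsd', a3, b3, cr_smul, hW, cr_rot W1 a1]
    have h1 : s * (2 * Real.sin (m * θ (τ i 1))) * (s * (2 * Real.sin (m * θ (τ i 2)))) *
        Real.sin (m * θ (τ i 0)) = 4 * ∏ k, Real.sin (m * θ k) := by
      rw [← Equiv.prod_comp (τ i), Fin.prod_univ_three]
      linear_combination (4 * Real.sin (m * θ (τ i 1)) * Real.sin (m * θ (τ i 2)) *
        Real.sin (m * θ (τ i 0))) * hs2
    rw [h1, hprod, Fin.prod_univ_three]
    have := hsφpos 0
    have := hsφpos 1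
    have := hsφpos 2
    positivity
  refine ⟨g, chain_dis hN _ _ hdd' hchain, ?_⟩
  intro i k
  have hsumφ : φ (τ i k) + φ (τ i (k + 1)) + φ (τ i (k + 2)) = Real.pi := by
    have h1 := Equiv.sum_comp (τ i) φ
    rw [Fin.sum_univ_three, Fin.sum_univ_three, hφsum] at h1
    rw [← h1]
    fin_cases k
    · rfl
    · change φ (τ i 1) + φ (τ i 2) + φ (τ i 0) = _
      ring
    · change φ (τ i 2) + φ (τ i 0) + φ (τ i 1) = _
      ring
  set v : Fin 3 → ℂ := fun k => g (t i k) with hv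
  have hlaw := EuclideanGeometry.law_cos (v (k + 1)) (v k) (v (k + 2))
  have d1 : dist (v (k + 1)) (v (k + 2)) = 2 * Real.sin (φ (τ i k)) := by
    rw [← hlen' i k, dist_comm, dist_eq_norm]; rfl
  have d2 : dist (v (k + 1)) (v k) = 2 * Real.sin (φ (τ i (k + 2))) := by
    rw [← hlen' i (k + 2), dist_eq_norm]
    unfold len sd
    have e1 : k + 2 + 2 = k + 1 := by
      have key : ∀ k : Fin 3, k + 2 + 2 = k + 1 := by decide
      exact key k
    have e2 : k + 2 + 1 = k := by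
      have key : ∀ k : Fin 3, k + 2 + 1 = k := by decide
      exact key k
    rw [e1, e2]
  have d3 : dist (v (k + 2)) (v k) = 2 * Real.sin (φ (τ i (k + 1))) := by
    rw [← hlen' i (k + 1), dist_comm, dist_eq_norm]
    unfold len sd
    have e1 : k + 1 + 2 = k := by
      have key : ∀ k : Fin 3, k + 1 + 2 = k := by decide
      exact key k
    have e2 : k + 1 + 1 = k + 2 := by
      have key : ∀ k : Fin 3, k + 1 + 1 = k + 2 := by decide
      exact key k
    rw [e1, e2]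
  rw [d1, d2, d3] at hlaw
  have hA : φ (τ i k) = Real.pi - (φ (τ i (k + 1)) + φ (τ i (k + 2))) := by linarith
  have hsA : Real.sin (φ (τ i k)) = Real.sin (φ (τ i (k + 1)) + φ (τ i (k + 2))) := by
    rw [hA, Real.sin_pi_sub]
  have hcA : Real.cos (φ (τ i k)) = -Real.cos (φ (τ i (k + 1)) + φ (τ i (k + 2))) := by
    rw [hA, Real.cos_pi_sub]
  rw [Real.sin_add] at hsA
  rw [Real.cos_add] at hcA
  have p1 := hsφpos (τ i (k + 1))
  have p2 := hsφpos (τ i (k + 2))
  have q1 := Real.sin_sq_add_cos_sq (φ (τ i (k + 1)))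
  have q2 := Real.sin_sq_add_cos_sq (φ (τ i (k + 2)))
  have hcos : Real.cos (EuclideanGeometry.angle (v (k + 1)) (v k) (v (k + 2))) =
      Real.cos (φ (τ i k)) := by
    have hne : 8 * Real.sin (φ (τ i (k + 1))) * Real.sin (φ (τ i (k + 2))) ≠ 0 := by positivity
    apply mul_left_cancel₀ hne
    rw [hsA] at hlaw
    rw [hcA]
    linear_combination hlaw - 4 * Real.sin (φ (τ i (k + 1))) ^ 2 * q2 -
      4 * Real.sin (φ (τ i (k + 2))) ^ 2 * q1
  exact Real.injOn_cos ⟨(ang_pos v (hdd' i) k).le, (ang_lt_pi v (hdd' i) k).le⟩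
    ⟨(hφpos _).le, (hφlt _).le⟩ hcos

/-- the key fact (K) -/
theorem rat_key (h : Dis N T t) (τ : Fin N → Equiv.Perm (Fin 3)) (ℓ θ : Fin 3 → ℝ)
    (hlen : ∀ i m, len (t i) m = ℓ (τ i m)) (hang : ∀ i m, ang (t i) m = θ (τ i m)) (L : ℕ)
    (hL : 0 < L) (c : Fin 3 → ℕ) (hθ : ∀ k, θ k = Real.pi * c k / L) (hc : ∀ k, c k < L)
    (hc0 : ∀ k, 0 < c k) (hsum : ∑ k, c k = L) (m : ℕ) (hm : m.Coprime L)
    (hs : ∑ k, (m * c k) % L = L) :
    ∑ k, (∑ j, cnt t τ (T j) k) * ((m * c k) % L) = L := by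
  classical
  have hπ := Real.pi_pos
  have hLpos : (0 : ℝ) < L := by exact_mod_cast hL
  -- an odd representative
  obtain ⟨m', hm', hmod⟩ : ∃ m' : ℕ, m'.Coprime (4 * L) ∧ ∀ x : ℕ, (m' * x) % L = (m * x) % L := by
    rcases Nat.even_or_odd m with he | ho
    · have hLodd : Odd L := by
        rcases Nat.even_or_odd L with h1 | h1
        · exfalso
          obtain ⟨a, ha⟩ := he
          obtain ⟨b, hb⟩ := h1
          have h2 : 2 ∣ Nat.gcd m L := Nat.dvd_gcd ⟨a, by omega⟩ ⟨b, by omega⟩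
          rw [hm] at h2
          omega
        · exact h1
      refine ⟨m + L, ?_, fun x => by rw [add_mul, Nat.add_mul_mod_self_left]⟩
      have h1 : (m + L).Coprime L := by simpa using hm
      have h2 : Odd (m + L) := he.add_odd hLodd
      have h3 : (m + L).Coprime 4 := by
        have : (m + L).Coprime (2 ^ 2) := Nat.Coprime.pow_right 2 h2.coprime_two_right
        simpa using this
      exact Nat.Coprime.mul_right h3 h1
    · refine ⟨m, ?_, fun x => rfl⟩
      have h3 : m.Coprime 4 := by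
        have : m.Coprime (2 ^ 2) := Nat.Coprime.pow_right 2 ho.coprime_two_right
        simpa using this
      exact Nat.Coprime.mul_right h3 hm
  have hs' : ∑ k, (m' * c k) % L = L :=
    (Finset.sum_congr rfl fun k _ => hmod (c k)).trans hs
  obtain ⟨g, hD, hA⟩ := rat_conj h τ ℓ θ hlen hang L hL c hθ hc hc0 hsum m' hm' hs'
  set φ : Fin 3 → ℝ := fun k => Real.pi * ((m' * c k % L : ℕ) : ℝ) / L with hφ
  have hcorner := fun j => Vertex.corner_angles hD τ φ hA j
  have hcnt : ∀ j k, cnt t τ (T j) k ≤ cnt (fun i k => g (t i k)) τ (g (T j)) k := by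
    intro j k
    unfold cnt
    refine Finset.sum_le_sum fun i _ => Finset.sum_le_sum fun l _ => ?_
    by_cases h1 : t i l = T j ∧ τ i l = k
    · rw [if_pos h1, if_pos (show g (t i l) = g (T j) ∧ τ i l = k from ⟨by rw [h1.1], h1.2⟩)]
    · rw [if_neg h1]; exact Nat.zero_le _
  have hφ0 : ∀ k, 0 ≤ φ k := fun k => by rw [hφ]; positivity
  have hTsum := ang_sum (fun k => g (T k)) hD.ccwT
  have h1 : ∑ j, ∑ k, (cnt t τ (T j) k : ℝ) * φ k ≤ Real.pi := by
    rw [← hTsum]
    have h2 : ∀ j, ∑ k, (cnt t τ (T j) k : ℝ) * φ k ≤ ang (fun k => g (T k)) j := by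
      intro j
      rw [← hcorner j]
      refine Finset.sum_le_sum fun k _ => mul_le_mul_of_nonneg_right ?_ (hφ0 k)
      exact_mod_cast hcnt j k
    have h3 := Finset.sum_le_sum (s := Finset.univ) fun j _ => h2 j
    rw [Fin.sum_univ_three (f := fun j => ang (fun k => g (T k)) j)] at h3
    exact h3
  -- as natural numbers
  set P : Fin 3 → ℕ := fun k => ∑ j, cnt t τ (T j) k with hP
  have h2 : ∑ k, P k * ((m' * c k) % L) ≤ L := by
    have h3 : ∑ j, ∑ k, (cnt t τ (T j) k : ℝ) * φ k =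
        Real.pi * ((∑ k, P k * ((m' * c k) % L) : ℕ) : ℝ) / L := by
      rw [Finset.sum_comm]
      push_cast
      rw [Finset.mul_sum, Finset.sum_div]
      refine Finset.sum_congr rfl fun k _ => ?_
      rw [← Finset.sum_mul, hP, hφ]
      push_cast
      ring
    rw [h3, div_le_iff₀ hLpos] at h1
    have h4 := le_of_mul_le_mul_left h1 hπ
    exact_mod_cast h4
  -- the sum for `m = 1`
  have h5 : ∑ k, P k * c k = L := by
    have h6 : ∑ j, ∑ k, (cnt t τ (T j) k : ℝ) * θ k = Real.pi := by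
      rw [Finset.sum_congr rfl fun j _ => Vertex.corner_angles h τ θ hang j, Fin.sum_univ_three]
      exact ang_sum T h.ccwT
    have h7 : ∑ j, ∑ k, (cnt t τ (T j) k : ℝ) * θ k = Real.pi * ((∑ k, P k * c k : ℕ) : ℝ) / L := by
      rw [Finset.sum_comm]
      push_cast
      rw [Finset.mul_sum, Finset.sum_div]
      refine Finset.sum_congr rfl fun k _ => ?_
      rw [← Finset.sum_mul, hP, hθ k]
      push_cast
      ring
    rw [h7, div_eq_iff hLpos.ne'] at h6
    have h8 := mul_left_cancel₀ hπ.ne' h6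
    exact_mod_cast h8
  have h9 : L ∣ ∑ k, P k * ((m' * c k) % L) := by
    have h10 : (∑ k, P k * ((m' * c k) % L)) % L = (m' * ∑ k, P k * c k) % L := by
      rw [Finset.mul_sum, Finset.sum_nat_mod, Finset.sum_nat_mod Finset.univ L
        (fun k => m' * (P k * c k))]
      congr 1
      refine Finset.sum_congr rfl fun k _ => ?_
      rw [Nat.mul_mod, Nat.mod_mod, ← Nat.mul_mod]
      congr 1
      ring
    rw [h5, Nat.mul_mod_left] at h10
    exact Nat.dvd_of_mod_eq_zero h10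
  have hpos : 0 < ∑ k, P k * ((m' * c k) % L) := by
    obtain ⟨k, hk⟩ : ∃ k, 0 < P k := by
      by_contra hcon
      push Not at hcon
      have : ∑ k, P k * c k = 0 := Finset.sum_eq_zero fun k _ => by
        rw [Nat.le_zero.mp (hcon k), zero_mul]
      omega
    have hr : 0 < m' * c k % L := by
      rcases Nat.eq_zero_or_pos (m' * c k % L) with h0 | h0
      · exfalso
        have h1 : L ∣ m' * c k := Nat.dvd_of_mod_eq_zero h0
        have h2 : Nat.Coprime L m' := (Nat.Coprime.coprime_mul_left_right hm').symm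
        have h3 : L ∣ c k := h2.dvd_of_dvd_mul_left h1
        exact absurd (Nat.le_of_dvd (hc0 k) h3) (not_le.mpr (hc k))
      · exact h0
    exact lt_of_lt_of_le (Nat.mul_pos hk hr)
      (Finset.single_le_sum (f := fun k => P k * ((m' * c k) % L)) (fun _ _ => Nat.zero_le _)
        (Finset.mem_univ k))
  have h11 : ∑ k, P k * ((m' * c k) % L) = L := le_antisymm h2 (Nat.le_of_dvd hpos h9)
  calc ∑ k, P k * ((m * c k) % L) = ∑ k, P k * ((m' * c k) % L) :=
        Finset.sum_congr rfl fun k _ => by rw [hmod]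
    _ = L := h11

end

end Pool.Agent.TH387
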