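import Mathlib
import Pool.Agent.Helper549.Tri.DataDef
import Pool.Agent.TH387.Base
set_option autoImplicit false
noncomputable section
open scoped BigOperators

namespace Pool.Agent.TH387
open Pool.Agent.Helper549.Tri

/-- corner table `κ'` (with `N` tiles) leads to a triangle of the list -/
def ShapeH (N : ℕ) (κ' : Fin 3 → Fin 3 → ℕ) : Prop :=
  ∀ {ℓ θ S A : Fin 3 → ℝ} {β : Fin 3 → Fin 3 → ℕ}, Data N ℓ θ S A κ' β → Corners κ' β → Exc S

end Pool.Agent.TH387
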