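import Mathlib
import Pool.Agent.Helper549.Tri.Defs
import Pool.Agent.Helper549.Tri.DataDef
import Pool.Agent.Helper549.Tri.DataDis
import Pool.Agent.Helper549.Tri.RatFalse
import Pool.Agent.TH387.Base
import Pool.Agent.TH387.RatConj
import Pool.Agent.TH609.J37
import Pool.Agent.TH609.J38
import Pool.Agent.TH609.J40
import Pool.Agent.TH609.J42
set_option autoImplicit false
noncomputable section
open scoped BigOperators

namespace Pool.Agent.TH387
open Pool.Agent.Helper549.Tri Pool.Agent.Helper549.Tri.Basic Pool.Agent.Helper549.Tri.Angles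
  Pool.Agent.Helper549.Tri.Corner Pool.Agent.Helper549.Tri.Odd Pool.Agent.TH609.J42

/-- the dissected triangle is similar to the tile -/
theorem sim_core {N : ℕ} (hN : ¬ IsSquare N) (ℓ θ S A : Fin 3 → ℝ) (κ β : Fin 3 → Fin 3 → ℕ)
    (hℓ : ∀ k, 0 < ℓ k) (hS : ∀ j, 0 < S j) (hsin : ∀ k, 0 < Real.sin (θ k))
    (sinet : ∀ j k, ℓ j * Real.sin (θ k) = ℓ k * Real.sin (θ j))
    (sineT : ∀ j k, S j * Real.sin (A k) = S k * Real.sin (A j))
    (area : (N : ℝ) * (ℓ 0 * ℓ 1 * Real.sin (θ 2)) = S 0 * S 1 * Real.sin (A 2))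
    (side : ∀ j, S j = ∑ k, (β j k : ℝ) * ℓ k) (angles : ∀ j, A j = ∑ k, (κ j k : ℝ) * θ k)
    (hc : Corners κ β) (π : Equiv.Perm (Fin 3)) (hπ : ∀ j, A j = θ (π j))
    (hP : ∑ j, ∑ k, κ j k ≤ 4) :
    (∃ i j, i ≠ j ∧ S i = S j) ∨
    ((∀ j, S j = Real.sqrt N * ℓ (π j)) ∧ ∃ z, ∑ k, κ z k = 2 ∧ ∀ j, j ≠ z →
      ∑ k, κ j k = 1 ∧ Real.sqrt N * ℓ (π j) = (β j (π z) : ℝ) * ℓ (π z)) := by
  obtain ⟨ρ, hρ, hl⟩ : ∃ ρ : ℝ, 0 < ρ ∧ ∀ j, ℓ j = ρ * Real.sin (θ j) := by
    have h0 := hsin 0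
    refine ⟨ℓ 0 / Real.sin (θ 0), div_pos (hℓ 0) h0, fun j => ?_⟩
    have h1 := sinet 0 j
    field_simp
    linarith
  obtain ⟨R, hR, hSs⟩ : ∃ R : ℝ, 0 < R ∧ ∀ j, S j = R * Real.sin (θ (π j)) := by
    have h0 := hsin (π 0)
    refine ⟨S 0 / Real.sin (θ (π 0)), div_pos (hS 0) h0, fun j => ?_⟩
    have h1 := sineT 0 j
    rw [hπ, hπ] at h1
    field_simp
    linarith
  have hprod : Real.sin (θ (π 0)) * Real.sin (θ (π 1)) * Real.sin (θ (π 2)) =
      Real.sin (θ 0) * Real.sin (θ 1) * Real.sin (θ 2) := by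
    have := Equiv.prod_comp π (fun k => Real.sin (θ k))
    rw [Fin.prod_univ_three, Fin.prod_univ_three] at this
    exact this
  have s0 := hsin 0
  have s1 := hsin 1
  have s2 := hsin 2
  have h2 : R = Real.sqrt N * ρ := by
    rw [hπ, hl 0, hl 1, hSs 0, hSs 1] at area
    have h1 : R ^ 2 = N * ρ ^ 2 := by
      have h2 : (R ^ 2 - N * ρ ^ 2) * (Real.sin (θ 0) * Real.sin (θ 1) * Real.sin (θ 2)) = 0 := by
        linear_combination -area - R ^ 2 * hprod
      have h3 : Real.sin (θ 0) * Real.sin (θ 1) * Real.sin (θ 2) ≠ 0 := by positivity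
      have h4 := (mul_eq_zero.1 h2).resolve_right h3
      linarith
    rw [← Real.sqrt_sq hR.le, h1, Real.sqrt_mul (Nat.cast_nonneg N), Real.sqrt_sq hρ.le]
  have hSN : ∀ j, S j = Real.sqrt N * ℓ (π j) := by
    intro j
    rw [hSs, hl, h2]; ring
  by_cases hinj : Function.Injective (fun j => θ (π j))
  · right
    refine ⟨hSN, ?_⟩
    have hsum : ∀ f : Fin 3 → ℕ, ∑ k, f (π k) = ∑ k, f k := fun f => Equiv.sum_comp π f
    obtain ⟨z, hz, hz2⟩ := simS N hN (fun j => ℓ (π j)) (fun j => θ (π j)) (fun j => hℓ _) hinj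
      (fun j k => κ j (π k)) (fun j k => β j (π k)) (by
        intro j
        rw [← hSN j, side j]
        exact (Equiv.sum_comp π (fun k => (β j k : ℝ) * ℓ k)).symm) (by
        intro j
        rw [← hπ j, angles j]
        exact Equiv.sum_comp π (fun k => (κ j k : ℝ) * θ k))
      (corners_perm hc 1 π) (by
        refine le_trans (le_of_eq ?_) hP
        exact Finset.sum_congr rfl fun j _ => hsum (κ j))
    refine ⟨z, by rw [← hsum (κ z)]; exact hz, fun j hj => ?_⟩
    obtain ⟨a1, a2, a3⟩ := hz2 j hj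
    exact ⟨by rw [← hsum (κ j)]; exact a1, a3⟩
  · left
    simp only [Function.Injective] at hinj
    push Not at hinj
    obtain ⟨i, j, h1, h2⟩ := hinj
    exact ⟨i, j, h2, by rw [hSs, hSs, h1]⟩

theorem tab4 (a b : Fin 3 → ℕ) (ha : a 0 + a 1 + a 2 = 2) (hb : b 0 + b 1 + b 2 = 2)
    (hr : ∀ j, 0 < a j + b j) : (∃ i j, i ≠ j ∧ a i = a j ∧ b i = b j) ∨
    ∃ j0 j1 j2 : Fin 3, j0 ≠ j1 ∧ j0 ≠ j2 ∧ j1 ≠ j2 ∧ a j0 = 1 ∧ b j0 = 1 ∧ a j1 = 1 ∧
      b j1 = 0 ∧ a j2 = 0 ∧ b j2 = 1 := by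
  have r0 := hr 0
  have r1 := hr 1
  have r2 := hr 2
  have a0 : a 0 ≤ 2 := by omega
  have a1 : a 1 ≤ 2 := by omega
  have b0 : b 0 ≤ 2 := by omega
  have b1 : b 1 ≤ 2 := by omega
  by_cases e1 : a 0 = a 1 ∧ b 0 = b 1
  · exact Or.inl ⟨0, 1, by decide, e1.1, e1.2⟩
  by_cases e2 : a 0 = a 2 ∧ b 0 = b 2
  · exact Or.inl ⟨0, 2, by decide, e2.1, e2.2⟩
  by_cases e3 : a 1 = a 2 ∧ b 1 = b 2
  · exact Or.inl ⟨1, 2, by decide, e3.1, e3.2⟩
  right
  have key : (a 0 = 1 ∧ b 0 = 1 ∧ a 1 = 1 ∧ b 1 = 0 ∧ a 2 = 0 ∧ b 2 = 1) ∨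
      (a 0 = 1 ∧ b 0 = 1 ∧ a 2 = 1 ∧ b 2 = 0 ∧ a 1 = 0 ∧ b 1 = 1) ∨
      (a 1 = 1 ∧ b 1 = 1 ∧ a 0 = 1 ∧ b 0 = 0 ∧ a 2 = 0 ∧ b 2 = 1) ∨
      (a 1 = 1 ∧ b 1 = 1 ∧ a 2 = 1 ∧ b 2 = 0 ∧ a 0 = 0 ∧ b 0 = 1) ∨
      (a 2 = 1 ∧ b 2 = 1 ∧ a 0 = 1 ∧ b 0 = 0 ∧ a 1 = 0 ∧ b 1 = 1) ∨
      (a 2 = 1 ∧ b 2 = 1 ∧ a 1 = 1 ∧ b 1 = 0 ∧ a 0 = 0 ∧ b 0 = 1) := by
    clear hr
    generalize a 0 = A0 at *
    generalize a 1 = A1 at *
    generalize a 2 = A2 at *
    generalize b 0 = B0 at *
    generalize b 1 = B1 at *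
    generalize b 2 = B2 at *
    have hA2 : A2 ≤ 3 := by omega
    have hB2 : B2 ≤ 2 := by omega
    interval_cases A0 <;> interval_cases A1 <;> (try (exfalso; omega)) <;>
      interval_cases B0 <;> interval_cases B1 <;>
      (first
        | (exfalso; omega)
        | (interval_cases A2 <;> interval_cases B2 <;> first | (exfalso; omega) | decide))
  rcases key with ⟨c1, c2, c3, c4, c5, c6⟩ | ⟨c1, c2, c3, c4, c5, c6⟩ | ⟨c1, c2, c3, c4, c5, c6⟩ |
    ⟨c1, c2, c3, c4, c5, c6⟩ | ⟨c1, c2, c3, c4, c5, c6⟩ | ⟨c1, c2, c3, c4, c5, c6⟩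
  · exact ⟨0, 1, 2, by decide, by decide, by decide, c1, c2, c3, c4, c5, c6⟩
  · exact ⟨0, 2, 1, by decide, by decide, by decide, c1, c2, c3, c4, c5, c6⟩
  · exact ⟨1, 0, 2, by decide, by decide, by decide, c1, c2, c3, c4, c5, c6⟩
  · exact ⟨1, 2, 0, by decide, by decide, by decide, c1, c2, c3, c4, c5, c6⟩
  · exact ⟨2, 0, 1, by decide, by decide, by decide, c1, c2, c3, c4, c5, c6⟩
  · exact ⟨2, 1, 0, by decide, by decide, by decide, c1, c2, c3, c4, c5, c6⟩

theorem tab5 (a b : Fin 3 → ℕ) (ha : a 0 + a 1 + a 2 = 3) (hb : b 0 + b 1 + b 2 = 1)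
    (hr : ∀ j, 0 < a j + b j) : (∃ i j, i ≠ j ∧ a i = a j ∧ b i = b j) ∨
    ∃ j0 j1 j2 : Fin 3, j0 ≠ j1 ∧ j0 ≠ j2 ∧ j1 ≠ j2 ∧ a j0 = 2 ∧ b j0 = 0 ∧ a j1 = 1 ∧
      b j1 = 0 ∧ a j2 = 0 ∧ b j2 = 1 := by
  have r0 := hr 0
  have r1 := hr 1
  have r2 := hr 2
  have a0 : a 0 ≤ 3 := by omega
  have a1 : a 1 ≤ 3 := by omega
  have b0 : b 0 ≤ 1 := by omega
  have b1 : b 1 ≤ 1 := by omega
  by_cases e1 : a 0 = a 1 ∧ b 0 = b 1
  · exact Or.inl ⟨0, 1, by decide, e1.1, e1.2⟩
  by_cases e2 : a 0 = a 2 ∧ b 0 = b 2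
  · exact Or.inl ⟨0, 2, by decide, e2.1, e2.2⟩
  by_cases e3 : a 1 = a 2 ∧ b 1 = b 2
  · exact Or.inl ⟨1, 2, by decide, e3.1, e3.2⟩
  right
  have key : (a 0 = 2 ∧ b 0 = 0 ∧ a 1 = 1 ∧ b 1 = 0 ∧ a 2 = 0 ∧ b 2 = 1) ∨
      (a 0 = 2 ∧ b 0 = 0 ∧ a 2 = 1 ∧ b 2 = 0 ∧ a 1 = 0 ∧ b 1 = 1) ∨
      (a 1 = 2 ∧ b 1 = 0 ∧ a 0 = 1 ∧ b 0 = 0 ∧ a 2 = 0 ∧ b 2 = 1) ∨
      (a 1 = 2 ∧ b 1 = 0 ∧ a 2 = 1 ∧ b 2 = 0 ∧ a 0 = 0 ∧ b 0 = 1) ∨
      (a 2 = 2 ∧ b 2 = 0 ∧ a 0 = 1 ∧ b 0 = 0 ∧ a 1 = 0 ∧ b 1 = 1) ∨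
      (a 2 = 2 ∧ b 2 = 0 ∧ a 1 = 1 ∧ b 1 = 0 ∧ a 0 = 0 ∧ b 0 = 1) := by
    clear hr
    generalize a 0 = A0 at *
    generalize a 1 = A1 at *
    generalize a 2 = A2 at *
    generalize b 0 = B0 at *
    generalize b 1 = B1 at *
    generalize b 2 = B2 at *
    have hA2 : A2 ≤ 3 := by omega
    have hB2 : B2 ≤ 2 := by omega
    interval_cases A0 <;> interval_cases A1 <;> (try (exfalso; omega)) <;>
      interval_cases B0 <;> interval_cases B1 <;>
      (first
        | (exfalso; omega)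
        | (interval_cases A2 <;> interval_cases B2 <;> first | (exfalso; omega) | decide))
  rcases key with ⟨c1, c2, c3, c4, c5, c6⟩ | ⟨c1, c2, c3, c4, c5, c6⟩ | ⟨c1, c2, c3, c4, c5, c6⟩ |
    ⟨c1, c2, c3, c4, c5, c6⟩ | ⟨c1, c2, c3, c4, c5, c6⟩ | ⟨c1, c2, c3, c4, c5, c6⟩
  · exact ⟨0, 1, 2, by decide, by decide, by decide, c1, c2, c3, c4, c5, c6⟩
  · exact ⟨0, 2, 1, by decide, by decide, by decide, c1, c2, c3, c4, c5, c6⟩
  · exact ⟨1, 0, 2, by decide, by decide, by decide, c1, c2, c3, c4, c5, c6⟩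
  · exact ⟨1, 2, 0, by decide, by decide, by decide, c1, c2, c3, c4, c5, c6⟩
  · exact ⟨2, 0, 1, by decide, by decide, by decide, c1, c2, c3, c4, c5, c6⟩
  · exact ⟨2, 1, 0, by decide, by decide, by decide, c1, c2, c3, c4, c5, c6⟩

/-- a permutation with prescribed values -/
theorem ex_perm (j0 j1 j2 x0 x1 x2 : Fin 3) (h1 : j0 ≠ j1) (h2 : j0 ≠ j2) (h3 : j1 ≠ j2)
    (g1 : x0 ≠ x1) (g2 : x0 ≠ x2) (g3 : x1 ≠ x2) :
    ∃ π : Equiv.Perm (Fin 3), π j0 = x0 ∧ π j1 = x1 ∧ π j2 = x2 := by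
  have key : ∀ a b c : Fin 3, a ≠ b → a ≠ c → b ≠ c → Function.Injective ![a, b, c] := by decide
  set p := Equiv.ofBijective ![j0, j1, j2]
    ((Fintype.bijective_iff_injective_and_card _).mpr ⟨key _ _ _ h1 h2 h3, rfl⟩) with hp
  set q := Equiv.ofBijective ![x0, x1, x2]
    ((Fintype.bijective_iff_injective_and_card _).mpr ⟨key _ _ _ g1 g2 g3, rfl⟩) with hq
  refine ⟨p.symm.trans q, ?_, ?_, ?_⟩
  · have : p.symm j0 = 0 := by rw [Equiv.symm_apply_eq]; rfl
    rw [Equiv.trans_apply, this]; rfl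
  · have : p.symm j1 = 1 := by rw [Equiv.symm_apply_eq]; rfl
    rw [Equiv.trans_apply, this]; rfl
  · have : p.symm j2 = 2 := by rw [Equiv.symm_apply_eq]; rfl
    rw [Equiv.trans_apply, this]; rfl

theorem five (p q : ℕ) (hp : 0 < p) (hq : 0 < q) :
    (p : ℝ) * Real.sin (3 * Real.pi / 10) ≠ q * Real.sin (Real.pi / 10) := by
  have h1 : Real.sin (3 * Real.pi / 10) = (1 + Real.sqrt 5) / 4 := by
    rw [← Real.cos_pi_div_five, ← Real.sin_pi_div_two_sub]
    congr 1; ring
  have h2 : Real.sin (Real.pi / 10) = (Real.sqrt 5 - 1) / 4 := by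
    have : Real.sin (Real.pi / 10) = Real.cos (2 * (Real.pi / 5)) := by
      rw [← Real.sin_pi_div_two_sub]
      congr 1; ring
    rw [this, Real.cos_two_mul, Real.cos_pi_div_five]
    have h5 : Real.sqrt 5 ^ 2 = 5 := Real.sq_sqrt (by norm_num)
    linear_combination (1 / 8 : ℝ) * h5
  intro h
  rw [h1, h2] at h
  have h3 : Real.sqrt 5 * ((p : ℝ) - q) = -((p : ℝ) + q) := by linear_combination 4 * h
  have hp' : (0 : ℝ) < p := by exact_mod_cast hp
  have hq' : (0 : ℝ) < q := by exact_mod_cast hq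
  have h4 : (p : ℝ) - q ≠ 0 := by
    intro h0
    rw [h0, mul_zero] at h3
    linarith
  have h5 : Real.sqrt 5 = ((-((p : ℚ) + q) / ((p : ℚ) - q) : ℚ) : ℝ) := by
    push_cast
    rw [eq_div_iff h4]
    exact h3
  have h6 : Irrational (Real.sqrt 5) := by
    have := Nat.Prime.irrational_sqrt (show Nat.Prime 5 by norm_num)
    exact_mod_cast this
  exact h6 ⟨_, h5.symm⟩

theorem rat_main {N : ℕ} (hNsq : ¬ IsSquare N) {T : Fin 3 → ℂ} {t : Fin N → Fin 3 → ℂ}
    (h : Dis N T t) (τ : Fin N → Equiv.Perm (Fin 3)) (ℓ θ : Fin 3 → ℝ)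
    (hlen : ∀ i m, len (t i) m = ℓ (τ i m)) (hang : ∀ i m, ang (t i) m = θ (τ i m))
    (hrat : ∀ k, ∃ q : ℚ, θ k = q * Real.pi) : Exc (len T) := by
  classical
  have hN0 : 0 < N := by
    rcases Nat.eq_zero_or_pos N with h0 | h0
    · exact absurd ⟨0, by rw [h0]⟩ hNsq
    · exact h0
  obtain ⟨i0, -⟩ : ∃ i0 : Fin N, i0 = ⟨0, hN0⟩ := ⟨_, rfl⟩
  have hπ := Real.pi_pos
  -- tile angles
  have hθpos : ∀ k, 0 < θ k := by
    intro k
    have h1 := ang_pos (t i0) (h.ccwt i0) ((τ i0).symm k)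
    rw [hang, Equiv.apply_symm_apply] at h1
    exact h1
  have hθlt : ∀ k, θ k < Real.pi := by
    intro k
    have h1 := ang_lt_pi (t i0) (h.ccwt i0) ((τ i0).symm k)
    rw [hang, Equiv.apply_symm_apply] at h1
    exact h1
  have hθsum : θ 0 + θ 1 + θ 2 = Real.pi := by
    have h1 := ang_sum (t i0) (h.ccwt i0)
    rw [hang, hang, hang] at h1
    have h2 := Equiv.sum_comp (τ i0) θ
    rw [Fin.sum_univ_three, Fin.sum_univ_three] at h2
    rw [← h2]; exact h1
  have hℓpos : ∀ k, 0 < ℓ k := by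
    intro k
    have h1 := len_pos (t i0) (h.ccwt i0) ((τ i0).symm k)
    rw [hlen, Equiv.apply_symm_apply] at h1
    exact h1
  have hsin : ∀ k, 0 < Real.sin (θ k) := fun k => Real.sin_pos_of_pos_of_lt_pi (hθpos k) (hθlt k)
  choose q hq using hrat
  have hqpos : ∀ k, 0 < q k := by
    intro k
    have h1 := hθpos k
    rw [hq k] at h1
    have h2 : (0 : ℝ) < (q k : ℝ) := (mul_pos_iff_of_pos_right hπ).1 h1
    exact_mod_cast h2
  obtain ⟨L, hL, c, hcq⟩ := RatFalse.denom7317 q hqpos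
  have hLR : (0 : ℝ) < L := by exact_mod_cast hL
  have hθeq : ∀ k, θ k = Real.pi * c k / L := by
    intro k
    rw [(hcq k).2, hq k]
    field_simp
  have hc0 : ∀ k, 0 < c k := fun k => (hcq k).1
  have hcs3 : c 0 + c 1 + c 2 = L := by
    have h1 := hθsum
    rw [hθeq 0, hθeq 1, hθeq 2] at h1
    have h2 : ((c 0 : ℝ) + c 1 + c 2) = L := by
      have h3 : Real.pi * ((c 0 : ℝ) + c 1 + c 2) = Real.pi * L := by
        have h4 : Real.pi * (c 0 : ℝ) / L + Real.pi * c 1 / L + Real.pi * c 2 / L =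
          Real.pi * ((c 0 : ℝ) + c 1 + c 2) / L := by ring
        rw [h4, div_eq_iff hLR.ne'] at h1
        exact h1
      exact mul_left_cancel₀ hπ.ne' h3
    exact_mod_cast h2
  have hcsum : ∑ k, c k = L := by rw [Fin.sum_univ_three]; exact hcs3
  have hcL : ∀ k, c k < L := by
    intro k
    have h0 := hc0 0
    have h1 := hc0 1
    have h2 := hc0 2
    rcases fin3_cases k with rfl | rfl | rfl <;> omega
  -- the data
  obtain ⟨κ, hκ⟩ : ∃ κ : Fin 3 → Fin 3 → ℕ, κ = fun j k => cnt t τ (T j) k := ⟨_, rfl⟩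
  obtain ⟨β, hβ⟩ : ∃ β : Fin 3 → Fin 3 → ℕ, β = fun j k => bcnt T t τ j k := ⟨_, rfl⟩
  have hcor : Corners κ β := by rw [hκ, hβ]; exact dis_corners h τ
  have angles : ∀ j, ang T j = ∑ k, (κ j k : ℝ) * θ k := by
    intro j
    rw [hκ]
    exact (Vertex.corner_angles h τ θ hang j).symm
  have angP : ∀ j, ang T j = Real.pi * ((∑ k, κ j k * c k : ℕ) : ℝ) / L := by
    intro j
    rw [angles j]
    push_cast
    rw [Finset.mul_sum, Finset.sum_div]
    refine Finset.sum_congr rfl fun k _ => ?_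
    rw [hθeq k]; ring
  have hκpos : ∀ j, ∃ k, 0 < κ j k := by
    intro j
    by_contra hcon
    push Not at hcon
    have h1 := angles j
    rw [Finset.sum_eq_zero (fun k _ => by
      rw [Nat.le_zero.mp (hcon k), Nat.cast_zero, zero_mul])] at h1
    exact (ang_pos T h.ccwT j).ne' h1
  have hside : ∀ j, len T j = ∑ k, (β j k : ℝ) * ℓ k := by
    intro j
    rw [hβ]
    have h1 := bd_len h j
    rw [← h1]
    symm
    unfold bcnt
    push_cast
    simp_rw [Finset.sum_mul]
    rw [Finset.sum_comm]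
    apply Finset.sum_congr rfl
    intro i _
    rw [Finset.sum_comm]
    apply Finset.sum_congr rfl
    intro l _
    by_cases hb : onBd T (t i) l j
    · simp only [hb, true_and, if_true]
      rw [hlen]
      simp
    · simp [hb]
  have sinet : ∀ j k, ℓ j * Real.sin (θ k) = ℓ k * Real.sin (θ j) := by
    intro j k
    obtain ⟨a, rfl⟩ := (τ i0).surjective j
    obtain ⟨b, rfl⟩ := (τ i0).surjective k
    rw [← hlen, ← hlen, ← hang, ← hang]
    exact sine_law _ (h.ccwt i0) a b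
  have sineT := sine_law T h.ccwT
  have area : (N : ℝ) * (ℓ 0 * ℓ 1 * Real.sin (θ 2)) = len T 0 * len T 1 * Real.sin (ang T 2) := by
    have h1 := AngleSum.area_sum h
    rw [Finset.sum_congr rfl fun i _ => DataDis.area_tile7310 h.ccwt τ ℓ θ hlen hang i] at h1
    rw [Finset.sum_const, Finset.card_univ, Fintype.card_fin, nsmul_eq_mul] at h1
    rw [h1]
    exact dd_eq T h.ccwT 2
  have hSpos := len_pos T h.ccwT
  have hkey := ratlem L hL c hc0 hcsum κ hκpos (fun m hm hs => by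
    have := rat_key h τ ℓ θ hlen hang L hL c hθeq hcL hc0 hcsum m hm hs
    rw [hκ]; exact this)
  -- equal corner numbers give an isosceles triangle
  have heqA : ∀ i j, i ≠ j → ∑ k, κ i k * c k = ∑ k, κ j k * c k → Exc (len T) := by
    intro i j hij he
    left
    refine ⟨i, j, hij, ?_⟩
    have h1 : ang T i = ang T j := by rw [angP, angP, he]
    have h2 := sineT i j
    rw [h1] at h2
    have h3 : 0 < Real.sin (ang T j) :=
      Real.sin_pos_of_pos_of_lt_pi (ang_pos T h.ccwT j) (ang_lt_pi T h.ccwT j)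
    exact mul_right_cancel₀ h3.ne' h2
  have hsim := fun π hπ' hP => sim_core hNsq ℓ θ (len T) (ang T) κ β hℓpos hSpos hsin sinet sineT
    area hside angles hcor π hπ' hP
  have hsum3 := Pool.Agent.TH609.J37.sum3 (M := ℕ)
  have hsum3' := Pool.Agent.TH609.J37.sum3 (M := ℝ)
  rcases hkey with h1 | ⟨i, j, hij, he⟩ | ⟨σ, hσ⟩ | ⟨x, y, z, hxy, hxz, hyz, hz, hPx, hPy, hPz⟩ |
    ⟨x, y, z, hxy, hxz, hyz, h5⟩
  · -- one tile of each type at the corners
    choose p hp using hκpos
    have hpinj : Function.Injective p := by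
      intro i j hpij
      by_contra hij
      have h2 := h1 (p i)
      have h3 : κ i (p i) + κ j (p i) ≤ ∑ j, κ j (p i) := by
        have : ({i, j} : Finset (Fin 3)) ⊆ Finset.univ := Finset.subset_univ _
        have h4 := Finset.sum_le_sum_of_subset (f := fun j => κ j (p i)) this
        rw [Finset.sum_pair hij] at h4
        exact h4
      have h4 := hp i
      have h5 := hp j
      rw [← hpij] at h5
      omega
    set π : Equiv.Perm (Fin 3) := Equiv.ofBijective p (Finite.injective_iff_bijective.1 hpinj)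
      with hπdef
    have hπp : ∀ j, π j = p j := fun j => rfl
    have hκ1 : ∀ j, κ j (p j) = 1 := by
      intro j
      have h2 := h1 (p j)
      have h3 := Finset.single_le_sum (f := fun j' => κ j' (p j)) (fun _ _ => Nat.zero_le _)
        (Finset.mem_univ j)
      have h4 := hp j
      try simp only at h3
      omega
    have hκ0 : ∀ j k, k ≠ p j → κ j k = 0 := by
      intro j k hk
      obtain ⟨i, hi⟩ : ∃ i, p i = k := π.surjective k
      have hij : i ≠ j := by
        intro hh; rw [hh] at hi; exact hk hi.symm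
      have h2 := h1 k
      have h3 : κ i k + κ j k ≤ ∑ j, κ j k := by
        have : ({i, j} : Finset (Fin 3)) ⊆ Finset.univ := Finset.subset_univ _
        have h4 := Finset.sum_le_sum_of_subset (f := fun j => κ j k) this
        rw [Finset.sum_pair hij] at h4
        exact h4
      have h4 := hp i
      rw [hi] at h4
      omega
    have hrow : ∀ j, ∑ k, κ j k = 1 := by
      intro j
      rw [Finset.sum_eq_single (p j) (fun k _ hk => hκ0 j k hk)
        (fun hh => absurd (Finset.mem_univ _) hh), hκ1]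
    rcases hsim π (by
      intro j
      rw [angles j, Finset.sum_eq_single (p j) (fun k _ hk => by rw [hκ0 j k hk]; simp)
        (fun hh => absurd (Finset.mem_univ _) hh), hκ1, hπp]
      simp) (by
      have h5 : ∑ j, ∑ k, κ j k = ∑ _j : Fin 3, 1 := Finset.sum_congr rfl fun j _ => hrow j
      rw [h5]
      decide) with ⟨i, j, hij, he⟩ | ⟨-, z, hz, -⟩
    · exact Or.inl ⟨i, j, hij, he⟩
    · rw [hrow z] at hz
      omega
  · exact heqA i j hij he
  · -- 30-60-90
    have hA : ∀ j : Fin 3, ang T (σ j) = (j.val + 1 : ℕ) * Real.pi / 6 := by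
      intro j
      rw [angP (σ j)]
      have h1 : (6 : ℝ) * ((∑ k, κ (σ j) k * c k : ℕ) : ℝ) = ((j.val + 1 : ℕ) : ℝ) * L := by
        exact_mod_cast hσ j
      rw [div_eq_div_iff hLR.ne' (by norm_num)]
      linear_combination Real.pi * h1
    have a0 : ang T (σ 0) = Real.pi / 6 := by
      rw [hA 0]; norm_num
    have a1 : ang T (σ 1) = Real.pi / 3 := by
      rw [hA 1]; norm_num; ring
    have a2 : ang T (σ 2) = Real.pi / 2 := by
      rw [hA 2]; norm_num; ring
    right; right; left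
    have e1 := sineT (σ 0) (σ 1)
    have e2 := sineT (σ 0) (σ 2)
    rw [a0, a1, Real.sin_pi_div_six, Real.sin_pi_div_three] at e1
    rw [a0, a2, Real.sin_pi_div_six, Real.sin_pi_div_two] at e2
    exact ⟨σ, len T (σ 0), hSpos _, by ring, by linarith, by linarith⟩
  · -- right triangles
    rcases tab4 (fun j => κ j x) (fun j => κ j y)
      ((Fin.sum_univ_three fun j => κ j x).symm.trans hPx) ((Fin.sum_univ_three fun j => κ j y).symm.trans hPy)
      (by
        intro j
        obtain ⟨k, hk⟩ := hκpos j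
        have h1 : κ j z = 0 := by
          have h2 := Finset.single_le_sum (f := fun j' => κ j' z) (fun _ _ => Nat.zero_le _)
            (Finset.mem_univ j)
          try simp only at h2
          omega
        have h2 : κ j k ≤ ∑ k, κ j k := Finset.single_le_sum (f := fun k => κ j k)
          (fun _ _ => Nat.zero_le _) (Finset.mem_univ k)
        rw [hsum3 (fun k => κ j k) x y z hxy hxz hyz] at h2
        try simp only
        omega) with ⟨i, j, hij, e1, e2⟩ | ⟨j0, j1, j2, h01, h02, h12, ha0, hb0, ha1, hb1, ha2, hb2⟩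
    · have hz0 : ∀ j, κ j z = 0 := by
        intro j
        have h2 := Finset.single_le_sum (f := fun j' => κ j' z) (fun _ _ => Nat.zero_le _)
            (Finset.mem_univ j)
        try simp only at h2
        omega
      refine heqA i j hij ?_
      try simp only at e1 e2
      rw [hsum3 _ x y z hxy hxz hyz, hsum3 _ x y z hxy hxz hyz, e1, e2, hz0, hz0]
    · have hz0 : ∀ j, κ j z = 0 := by
        intro j
        have h2 := Finset.single_le_sum (f := fun j' => κ j' z) (fun _ _ => Nat.zero_le _)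
            (Finset.mem_univ j)
        try simp only at h2
        omega
      try simp only at ha0 hb0 ha1 hb1 ha2 hb2
      have hθs : θ x + θ y + θ z = Real.pi := by
        have h1 := hsum3' (fun k => θ k) x y z hxy hxz hyz
        rw [Fin.sum_univ_three] at h1
        linarith
      have hθz : θ z = Real.pi / 2 := by
        rw [hθeq z]
        have h1 : (2 : ℝ) * c z = L := by exact_mod_cast hz
        rw [div_eq_div_iff hLR.ne' (by norm_num)]
        linear_combination Real.pi * h1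
      obtain ⟨π, p0, p1, p2⟩ := ex_perm j0 j1 j2 z x y h01 h02 h12 hxz.symm hyz.symm hxy
      have hrow : ∀ j, ang T j = κ j x * θ x + κ j y * θ y := by
        intro j
        rw [angles j, hsum3' _ x y z hxy hxz hyz, hz0]
        push_cast; ring
      have hall : ∀ j, j = j0 ∨ j = j1 ∨ j = j2 := by
        intro j
        revert h01 h02 h12
        clear * -
        revert j j0 j1 j2
        decide
      rcases hsim π (by
        intro j
        rcases hall j with rfl | rfl | rfl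
        · rw [hrow, p0, ha0, hb0, hθz]; push_cast; linarith
        · rw [hrow, p1, ha1, hb1]; push_cast; ring
        · rw [hrow, p2, ha2, hb2]; push_cast; ring) (by
        rw [Finset.sum_comm, hsum3 _ x y z hxy hxz hyz, hPx, hPy, hPz]) with
        ⟨i, j, hij, he⟩ | ⟨hSN, z', hz', hzz⟩
      · exact Or.inl ⟨i, j, hij, he⟩
      · have hz'0 : z' = j0 := by
          rcases hall z' with h1 | h1 | h1
          · exact h1
          · exfalso
            rw [hsum3 _ x y z hxy hxz hyz, h1, ha1, hb1, hz0] at hz'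
            omega
          · exfalso
            rw [hsum3 _ x y z hxy hxz hyz, h1, ha2, hb2, hz0] at hz'
            omega
        obtain ⟨-, g1⟩ := hzz j1 (by rw [hz'0]; exact h01.symm)
        obtain ⟨-, g2⟩ := hzz j2 (by rw [hz'0]; exact h02.symm)
        rw [hz'0, p0, p1] at g1
        rw [hz'0, p0, p2] at g2
        have hNR : (0 : ℝ) < N := by exact_mod_cast hN0
        have hsN : 0 < Real.sqrt N := Real.sqrt_pos.2 hNR
        have hsq : Real.sqrt N ^ 2 = N := Real.sq_sqrt hNR.le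
        have hpp : 0 < β j1 z := by
          rcases Nat.eq_zero_or_pos (β j1 z) with h0 | h0
          · rw [h0, Nat.cast_zero, zero_mul] at g1
            exact absurd g1 (mul_pos hsN (hℓpos x)).ne'
          · exact h0
        have hqq : 0 < β j2 z := by
          rcases Nat.eq_zero_or_pos (β j2 z) with h0 | h0
          · rw [h0, Nat.cast_zero, zero_mul] at g2
            exact absurd g2 (mul_pos hsN (hℓpos y)).ne'
          · exact h0
        have t1 := sinet x z
        have t2 := sinet y z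
        have hθy : θ y = Real.pi / 2 - θ x := by linarith
        rw [hθz, Real.sin_pi_div_two, mul_one] at t1
        rw [hθz, Real.sin_pi_div_two, mul_one, hθy, Real.sin_pi_div_two_sub] at t2
        have hpyth : ℓ x ^ 2 + ℓ y ^ 2 = ℓ z ^ 2 := by
          rw [t1, t2]
          have := Real.sin_sq_add_cos_sq (θ x)
          linear_combination ℓ z ^ 2 * this
        have hNN : (N : ℝ) = (β j1 z : ℝ) ^ 2 + (β j2 z : ℝ) ^ 2 := by
          have h1 : (N : ℝ) * ℓ z ^ 2 = ((β j1 z : ℝ) ^ 2 + (β j2 z : ℝ) ^ 2) * ℓ z ^ 2 := by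
            rw [← hpyth]
            have h2 : (N : ℝ) * ℓ x ^ 2 = (β j1 z : ℝ) ^ 2 * ℓ z ^ 2 := by
              rw [← hsq, ← mul_pow, g1, mul_pow]
            have h3 : (N : ℝ) * ℓ y ^ 2 = (β j2 z : ℝ) ^ 2 * ℓ z ^ 2 := by
              rw [← hsq, ← mul_pow, g2, mul_pow]
            rw [hpyth]
            linear_combination h2 + h3 - (N : ℝ) * hpyth
          exact mul_right_cancel₀ (pow_pos (hℓpos z) 2).ne' h1
        have hNn : N = β j1 z ^ 2 + β j2 z ^ 2 := by exact_mod_cast hNN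
        obtain ⟨σ, s0, s1, s2⟩ := ex_perm 0 1 2 j1 j2 j0 (by decide) (by decide) (by decide)
          h12 h01.symm h02.symm
        right; left
        refine ⟨β j1 z, β j2 z, hpp, hqq, by rw [← hNn]; exact hNsq, σ, ℓ z, hℓpos z, ?_, ?_, ?_⟩
        · rw [s0, hSN, p1, g1]; ring
        · rw [s1, hSN, p2, g2]; ring
        · rw [s2, hSN, p0, ← hNN]; ring
  · -- tiles with angles that are multiples of 18 degrees
    have hcy : 2 * c x = c y := by
      rcases h5 with ⟨e1, e2, -⟩ | ⟨e1, e2, -⟩ <;> omega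
    have hPx : ∑ j, κ j x = 3 := by
      rcases h5 with ⟨-, -, -, e1, -⟩ | ⟨-, -, -, e1, -⟩ <;> exact e1
    have hPy : ∑ j, κ j y = 0 := by
      rcases h5 with ⟨-, -, -, -, e1, -⟩ | ⟨-, -, -, -, e1, -⟩ <;> exact e1
    have hPz : ∑ j, κ j z = 1 := by
      rcases h5 with ⟨-, -, -, -, -, e1⟩ | ⟨-, -, -, -, -, e1⟩ <;> exact e1
    have hy0 : ∀ j, κ j y = 0 := by
      intro j
      have h2 := Finset.single_le_sum (f := fun j' => κ j' y) (fun _ _ => Nat.zero_le _)
          (Finset.mem_univ j)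
      try simp only at h2
      omega
    rcases tab5 (fun j => κ j x) (fun j => κ j z)
      ((Fin.sum_univ_three fun j => κ j x).symm.trans hPx) ((Fin.sum_univ_three fun j => κ j z).symm.trans hPz)
      (by
        intro j
        obtain ⟨k, hk⟩ := hκpos j
        have h1 := hy0 j
        have h2 : κ j k ≤ ∑ k, κ j k := Finset.single_le_sum (f := fun k => κ j k)
          (fun _ _ => Nat.zero_le _) (Finset.mem_univ k)
        rw [hsum3 (fun k => κ j k) x y z hxy hxz hyz] at h2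
        try simp only
        omega) with ⟨i, j, hij, e1, e2⟩ | ⟨j0, j1, j2, h01, h02, h12, ha0, hb0, ha1, hb1, ha2, hb2⟩
    · refine heqA i j hij ?_
      try simp only at e1 e2
      rw [hsum3 _ x y z hxy hxz hyz, hsum3 _ x y z hxy hxz hyz, e1, e2, hy0, hy0]
    · try simp only at ha0 hb0 ha1 hb1 ha2 hb2
      have hθy : θ y = 2 * θ x := by
        rw [hθeq y, hθeq x]
        have h1 : (2 : ℝ) * c x = c y := by exact_mod_cast hcy
        rw [← h1]; ring
      obtain ⟨π, p0, p1, p2⟩ := ex_perm j0 j1 j2 y x z h01 h02 h12 hxy.symm hyz hxz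
      have hrow : ∀ j, ang T j = κ j x * θ x + κ j z * θ z := by
        intro j
        rw [angles j, hsum3' _ x y z hxy hxz hyz, hy0]
        push_cast; ring
      have hall : ∀ j, j = j0 ∨ j = j1 ∨ j = j2 := by
        intro j
        revert h01 h02 h12
        clear * -
        revert j j0 j1 j2
        decide
      rcases hsim π (by
        intro j
        rcases hall j with rfl | rfl | rfl
        · rw [hrow, p0, ha0, hb0, hθy]; push_cast; ring
        · rw [hrow, p1, ha1, hb1]; push_cast; ring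
        · rw [hrow, p2, ha2, hb2]; push_cast; ring) (by
        rw [Finset.sum_comm, hsum3 _ x y z hxy hxz hyz, hPx, hPy, hPz]) with
        ⟨i, j, hij, he⟩ | ⟨hSN, z', hz', hzz⟩
      · exact Or.inl ⟨i, j, hij, he⟩
      · exfalso
        have hz'0 : z' = j0 := by
          rcases hall z' with h1 | h1 | h1
          · exact h1
          · exfalso
            rw [hsum3 _ x y z hxy hxz hyz, h1, ha1, hb1, hy0] at hz'
            omega
          · exfalso
            rw [hsum3 _ x y z hxy hxz hyz, h1, ha2, hb2, hy0] at hz'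
            omega
        obtain ⟨-, g1⟩ := hzz j1 (by rw [hz'0]; exact h01.symm)
        obtain ⟨-, g2⟩ := hzz j2 (by rw [hz'0]; exact h02.symm)
        rw [hz'0, p0, p1] at g1
        rw [hz'0, p0, p2] at g2
        have hNR : (0 : ℝ) < N := by exact_mod_cast hN0
        have hsN : 0 < Real.sqrt N := Real.sqrt_pos.2 hNR
        have hpp : 0 < β j1 y := by
          rcases Nat.eq_zero_or_pos (β j1 y) with h0 | h0
          · rw [h0, Nat.cast_zero, zero_mul] at g1
            exact absurd g1 (mul_pos hsN (hℓpos x)).ne'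
          · exact h0
        have hqq : 0 < β j2 y := by
          rcases Nat.eq_zero_or_pos (β j2 y) with h0 | h0
          · rw [h0, Nat.cast_zero, zero_mul] at g2
            exact absurd g2 (mul_pos hsN (hℓpos z)).ne'
          · exact h0
        have t1 := sinet x z
        have t2 : (β j2 y : ℝ) * ℓ x = β j1 y * ℓ z := by
          have h1 : Real.sqrt N * ((β j2 y : ℝ) * ℓ x) = Real.sqrt N * (β j1 y * ℓ z) := by
            linear_combination (β j2 y : ℝ) * g1 - (β j1 y : ℝ) * g2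
          exact mul_left_cancel₀ hsN.ne' h1
        have t3 : (β j2 y : ℝ) * Real.sin (θ x) = β j1 y * Real.sin (θ z) := by
          have h1 : ℓ z * ((β j2 y : ℝ) * Real.sin (θ x)) = ℓ z * (β j1 y * Real.sin (θ z)) := by
            linear_combination Real.sin (θ z) * t2 - (β j2 y : ℝ) * t1
          exact mul_left_cancel₀ (hℓpos z).ne' h1
        rcases h5 with ⟨e1, e2, e3, -⟩ | ⟨e1, e2, e3, -⟩
        · have f1 : θ x = Real.pi / 10 := by
            rw [hθeq x]
            have h1 : (10 : ℝ) * c x = L := by exact_mod_cast e1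
            rw [div_eq_div_iff hLR.ne' (by norm_num)]
            linear_combination Real.pi * h1
          have f2 : θ z = Real.pi - 3 * Real.pi / 10 := by
            have h1 : (10 : ℝ) * c z = 7 * L := by exact_mod_cast e3
            have h2 : θ z = 7 * Real.pi / 10 := by
              rw [hθeq z]
              rw [div_eq_div_iff hLR.ne' (by norm_num)]
              linear_combination Real.pi * h1
            rw [h2]; ring
          rw [f1, f2, Real.sin_pi_sub] at t3
          exact five _ _ hpp hqq t3.symm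
        · have f1 : θ x = 3 * Real.pi / 10 := by
            rw [hθeq x]
            have h1 : (10 : ℝ) * c x = 3 * L := by exact_mod_cast e1
            rw [div_eq_div_iff hLR.ne' (by norm_num)]
            linear_combination Real.pi * h1
          have f2 : θ z = Real.pi / 10 := by
            have h1 : (10 : ℝ) * c z = L := by exact_mod_cast e3
            rw [hθeq z]
            rw [div_eq_div_iff hLR.ne' (by norm_num)]
            linear_combination Real.pi * h1
          rw [f1, f2] at t3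
          exact five _ _ hqq hpp t3

end Pool.Agent.TH387
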