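import Mathlib
import Pool.Agent.Helper549.Tri.SqDefs
import Pool.Agent.Helper549.Tri.Setup
import Pool.Agent.Helper549.Tri.DataDis
import Pool.Agent.Helper549.Tri.ClassDis
import Pool.Agent.TH387.Base
import Pool.Agent.TH387.ShapeH
import Pool.Agent.TH387.ExistMain
import Pool.Agent.TH387.RatMain
import Pool.Agent.TH609.J38
import Pool.Agent.TH609.J40
import Pool.Agent.TH609.J42
import Pool.Agent.TH609.J43
import Pool.Agent.TH511.J44
import Pool.Agent.TH511.J45
import Pool.Agent.TH511.J46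
import Pool.Agent.TH39.J41
set_option autoImplicit false
noncomputable section
open scoped BigOperators

namespace Pool.Agent.TH387
open Pool.Agent.Helper549.Tri Pool.Agent.TH609.J42

/-- a dissected triangle with a non-square number of tiles is in the list -/
theorem dis_exc {N : ℕ} (hNsq : ¬ IsSquare N) {T : Fin 3 → ℂ} {t : Fin N → Fin 3 → ℂ}
    (h : Dis N T t) (τ : Fin N → Equiv.Perm (Fin 3)) (ℓ θ : Fin 3 → ℝ)
    (hlen : ∀ i m, len (t i) m = ℓ (τ i m)) (hang : ∀ i m, ang (t i) m = θ (τ i m)) :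
    Exc (len T) := by
  have hN2 : 2 ≤ N := by
    rcases Nat.lt_or_ge N 2 with h0 | h0
    · exfalso
      interval_cases N
      · exact hNsq ⟨0, rfl⟩
      · exact hNsq ⟨1, rfl⟩
    · exact h0
  by_cases hrat : ∀ k, ∃ q : ℚ, θ k = q * Real.pi
  · exact rat_main hNsq h τ ℓ θ hlen hang hrat
  · have hD := DataDis.data_of_dis hN2 h τ ℓ θ hlen hang hrat
    obtain ⟨σ, P, hP, hcl⟩ := ClassDis.class_of_dis (by omega) h τ θ hang hrat
    have hS : SimS N := fun ℓ θ hℓ hθ κ β hβ hκ hc hP => simS N hNsq ℓ θ hℓ hθ κ β hβ hκ hc hP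
    exact irr_main (shape_id hNsq hS) (shape_301 hNsq) (shape_220 hNsq hS) (shape_320 hNsq)
      (shape_c hNsq) (shape_d hNsq) (shape_330 hNsq) (shape_u1 hNsq) (shape_u2 hNsq)
      (shape_u3 hNsq) (shape_u4 hNsq) hD (dis_corners h τ) σ P hP hcl

theorem not_squareOnly_exc (T : Fin 3 → EuclideanSpace ℝ (Fin 2)) (hT : AffineIndependent ℝ T)
    (h : ¬ SquareOnly T) : Exc (side T) := by
  unfold SquareOnly at h
  push Not at h
  obtain ⟨N, hN1, ⟨P, hP, hcong, hU, hD⟩, hNsq⟩ := h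
  have : NeZero N := ⟨by omega⟩
  have hdist : ∀ i, ∃ σ : Equiv.Perm (Fin 3), ∀ k l,
      dist (P i k) (P i l) = dist (P 0 (σ k)) (P 0 (σ l)) := by
    intro i
    obtain ⟨f, hf⟩ := hcong 0 i
    exact Setup.cong_perm (P 0) (P i) (hP 0) (hP i) f hf
  obtain ⟨TC, t, τ, ℓ, θ, ρ, h, hlen, hang, hTC⟩ := Setup.setup T P hT hP hdist hU hD
  have h1 := dis_exc hNsq h τ ℓ θ hlen hang
  have h2 : len TC = fun k => side T (ρ k) := by
    funext k
    rw [hTC k]
    unfold side
    rcases Setup.perm3 ρ k with ⟨e1, e2⟩ | ⟨e1, e2⟩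
    · rw [e1, e2]
    · rw [e1, e2, dist_comm]
  rw [h2] at h1
  exact exc_perm ρ h1

theorem squareOnly_iff (T : Fin 3 → EuclideanSpace ℝ (Fin 2)) (hT : AffineIndependent ℝ T) :
    SquareOnly T ↔ ¬ Exc (side T) := by
  constructor
  · intro h hE
    exact exc_not_squareOnly (fun A T t h ℓ h1 h2 => canCut_of_dis A T t h ℓ h1 h2) T hT hE h
  · intro h
    by_contra hcon
    exact h (not_squareOnly_exc T hT hcon)

end Pool.Agent.TH387
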